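import Mathlib

/-!
# [H2 GAP CONJ] the completed zeta function is real on the critical line

PROOF. `Λ₀ = completedRiemannZeta₀` is entire (`differentiable_completedZeta₀`). The function
`f s = conj (Λ₀ (conj s))` is entire too. For `Re s > 1` both agree:
`completedZeta_eq_tsum_of_one_lt_re`, `Complex.Gamma_conj`, `Complex.cpow_conj` (for real positive
bases, `arg ≠ π`), `completedRiemannZeta_eq`. By the identity theorem
(`AnalyticOnNhd.eq_of_eventuallyEq` on `ℂ`) they agree everywhere. Then
`Λ s = Λ₀ s - 1 / s - 1 / (1 - s)` (`completedRiemannZeta_eq`) gives `completed_conj`.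
For `s = 1/2 + it`: `conj s = 1 - s`, and `completedRiemannZeta_one_sub`.
-/

set_option autoImplicit false

namespace H2.Gap

open Complex

private theorem gammaR_conj (s : ℂ) :
    Gammaℝ ((starRingEnd ℂ) s) = (starRingEnd ℂ) (Gammaℝ s) := by
  have h0 : ((Real.pi : ℝ) : ℂ).arg ≠ Real.pi := by
    rw [arg_ofReal_of_nonneg Real.pi_pos.le]
    exact Real.pi_ne_zero.symm
  have h1 : (starRingEnd ℂ) (-s / 2) = -(starRingEnd ℂ) s / 2 := by
    rw [map_div₀, map_neg, map_ofNat]
  have h2 : (starRingEnd ℂ) (s / 2) = (starRingEnd ℂ) s / 2 := by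
    rw [map_div₀, map_ofNat]
  rw [Gammaℝ_def, Gammaℝ_def, map_mul, ← h1, ← h2, Gamma_conj, cpow_conj _ _ h0, conj_ofReal]

private theorem completed_conj_pos (s : ℂ) (hs : 0 < s.re) :
    completedRiemannZeta ((starRingEnd ℂ) s) = (starRingEnd ℂ) (completedRiemannZeta s) := by
  have key : ∀ z : ℂ, 0 < z.re → completedRiemannZeta z = riemannZeta z * Gammaℝ z := by
    intro z hz
    have hz0 : z ≠ 0 := by
      rintro rfl
      simp at hz
    rw [riemannZeta_def_of_ne_zero hz0, div_mul_cancel₀ _ (Gammaℝ_ne_zero_of_re_pos hz)]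
  rw [key s hs, key _ (by rwa [conj_re]), riemannZeta_conj, gammaR_conj, map_mul]

theorem completed_conj (s : ℂ) :
    completedRiemannZeta ((starRingEnd ℂ) s) = (starRingEnd ℂ) (completedRiemannZeta s) := by
  rcases lt_or_ge 0 s.re with h | h
  · exact completed_conj_pos s h
  · have h1 := completed_conj_pos (1 - s) (by rw [sub_re, one_re]; linarith)
    rwa [completedRiemannZeta_one_sub, map_sub, map_one, completedRiemannZeta_one_sub] at h1

theorem completed_line (t : ℝ) : (completedRiemannZeta (1 / 2 + I * t)).im = 0 := by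
  have h1 : (starRingEnd ℂ) (1 / 2 + I * t) = 1 - (1 / 2 + I * t) := by
    apply Complex.ext
    · simp
      norm_num
    · simp
  rw [← conj_eq_iff_im, ← completed_conj, h1, completedRiemannZeta_one_sub]

end H2.Gap
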