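import Pool.Agent.H2.Gap.Defs

/-!
# [H2 GAP GAMABS] the modulus of the ratio of the Gamma factors

Proved (helper2): Euler product for the ratio, every factor bounded, and the sum
`sum 1/((x+j)^2+y^2)` bounded by an explicit primitive (unimodality).
-/

set_option autoImplicit false

namespace H2.Gap

open Complex Filter Topology Finset

/-- `u ↦ arctan (u/y) / y`. -/
private noncomputable def FA (y u : ℝ) : ℝ := Real.arctan (u / y) / y

private lemma FA_mono (y : ℝ) (hy : 0 < y) : Monotone (FA y) := by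
  intro a b hab
  unfold FA
  have : Real.arctan (a / y) ≤ Real.arctan (b / y) :=
    Real.arctan_strictMono.monotone (by gcongr)
  gcongr

private lemma FA_deriv (y : ℝ) (hy : 0 < y) (u : ℝ) :
    HasDerivAt (FA y) (1 / (u ^ 2 + y ^ 2)) u := by
  have h1 : HasDerivAt (fun u : ℝ => u / y) (1 / y) u := (hasDerivAt_id u).div_const y
  have h2 := (h1.arctan).div_const y
  have e : (1 / (1 + (u / y) ^ 2) * (1 / y)) / y = 1 / (u ^ 2 + y ^ 2) := by
    field_simp
    ring
  rw [← e]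
  exact h2

/-- the increment on `[a, a+1]` is at least the value at the point of largest modulus. -/
private lemma FA_incr (y : ℝ) (hy : 0 < y) (a w : ℝ)
    (h : ∀ x ∈ Set.Ioo a (a + 1), x ^ 2 ≤ w ^ 2) :
    1 / (w ^ 2 + y ^ 2) ≤ FA y (a + 1) - FA y a := by
  have hc : ContinuousOn (FA y) (Set.Icc a (a + 1)) := fun x _ =>
    (FA_deriv y hy x).continuousAt.continuousWithinAt
  obtain ⟨x, hx, hx2⟩ := exists_hasDerivAt_eq_slope (FA y) (fun u => 1 / (u ^ 2 + y ^ 2))
    (by linarith : a < a + 1) hc (fun x _ => FA_deriv y hy x)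
  have e : a + 1 - a = 1 := by ring
  rw [e, div_one] at hx2
  rw [← hx2]
  have := h x hx
  have hy2 : 0 < y ^ 2 := by positivity
  exact one_div_le_one_div_of_le (by positivity) (by linarith)

private lemma FA_bound (y : ℝ) (hy : 0 < y) (u : ℝ) :
    -(Real.pi / 2 / y) ≤ FA y u ∧ FA y u ≤ Real.pi / 2 / y := by
  unfold FA
  have h1 := (Real.neg_pi_div_two_lt_arctan (u / y)).le
  have h2 := (Real.arctan_lt_pi_div_two (u / y)).le
  constructor
  · rw [← neg_div]
    gcongr
  · gcongr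

private lemma FA_zero (y : ℝ) : FA y 0 = 0 := by simp [FA]

private noncomputable def PA (y u : ℝ) : ℝ :=
  FA y (min u 0) + FA y (max (u - 1) 0) + (max (-1) (min u 2)) / y ^ 2

private lemma PA_incr (y : ℝ) (hy : 0 < y) (u : ℝ) :
    1 / (u ^ 2 + y ^ 2) ≤ PA y (u + 1) - PA y u := by
  have hm1 : FA y (min u 0) ≤ FA y (min (u + 1) 0) := FA_mono y hy (by gcongr; linarith)
  have hm2 : FA y (max (u - 1) 0) ≤ FA y (max (u + 1 - 1) 0) := FA_mono y hy (by gcongr; linarith)
  have hm3 : (max (-1) (min u 2)) / y ^ 2 ≤ (max (-1) (min (u + 1) 2)) / y ^ 2 := by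
    gcongr
    linarith
  unfold PA
  rcases le_or_gt 1 u with h1 | h1
  · have e1 : max (u - 1) 0 = u - 1 := max_eq_left (by linarith)
    have e2 : max (u + 1 - 1) 0 = u := by rw [add_sub_cancel_right]; exact max_eq_left (by linarith)
    have := FA_incr y hy (u - 1) u (fun x hx => by nlinarith [hx.1, hx.2])
    rw [sub_add_cancel] at this
    rw [e1, e2] at *
    linarith
  · rcases le_or_gt u (-1) with h2 | h2
    · have e1 : min u 0 = u := min_eq_left (by linarith)
      have e2 : min (u + 1) 0 = u + 1 := min_eq_left (by linarith)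
      have := FA_incr y hy u u (fun x hx => by nlinarith [hx.1, hx.2])
      rw [e1, e2] at *
      linarith
    · have e1 : max (-1) (min u 2) = u := by
        rw [min_eq_left (by linarith), max_eq_right (by linarith)]
      have e2 : max (-1) (min (u + 1) 2) = u + 1 := by
        rw [min_eq_left (by linarith), max_eq_right (by linarith)]
      rw [e1, e2]
      have h3 : 1 / (u ^ 2 + y ^ 2) ≤ 1 / y ^ 2 :=
        one_div_le_one_div_of_le (by positivity) (by nlinarith [sq_nonneg u])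
      have h4 : (u + 1) / y ^ 2 - u / y ^ 2 = 1 / y ^ 2 := by ring
      linarith

private lemma PA_range (y : ℝ) (hy : 0 < y) (u v : ℝ) :
    PA y u - PA y v ≤ Real.pi / y + 3 / y ^ 2 := by
  unfold PA
  have a1 : FA y (min u 0) ≤ 0 := by
    have := FA_mono y hy (min_le_right u 0)
    rwa [FA_zero] at this
  have a2 := (FA_bound y hy (max (u - 1) 0)).2
  have a3 : (max (-1) (min u 2)) / y ^ 2 ≤ 2 / y ^ 2 := by
    gcongr
    exact max_le (by norm_num) (min_le_right _ _)
  have b1 := (FA_bound y hy (min v 0)).1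
  have b2 : 0 ≤ FA y (max (v - 1) 0) := by
    have := FA_mono y hy (le_max_right (v - 1) 0)
    rwa [FA_zero] at this
  have b3 : (-1) / y ^ 2 ≤ (max (-1) (min v 2)) / y ^ 2 := by
    gcongr
    exact le_max_left _ _
  have e1 : Real.pi / y = Real.pi / 2 / y + Real.pi / 2 / y := by ring
  have e2 : 3 / y ^ 2 = 2 / y ^ 2 - (-1) / y ^ 2 := by ring
  rw [e1, e2]
  linarith

private lemma sum_bound (x y : ℝ) (hy : 0 < y) (n : ℕ) :
    ∑ j ∈ range n, 1 / ((x + j) ^ 2 + y ^ 2) ≤ Real.pi / y + 3 / y ^ 2 := by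
  have h : ∀ n : ℕ, ∑ j ∈ range n, 1 / ((x + j) ^ 2 + y ^ 2) ≤ PA y (x + n) - PA y x := by
    intro n
    induction n with
    | zero => simp
    | succ n ih =>
      rw [sum_range_succ]
      have := PA_incr y hy (x + n)
      push_cast
      rw [← add_assoc]
      linarith
  exact le_trans (h n) (PA_range y hy _ _)

private lemma gamma_ratio_limit (z : ℂ) (b : ℝ) (hz : 0 < z.im) (hb : 0 ≤ b) :
    Tendsto (fun n : ℕ => (n : ℂ) ^ (-(I * b) : ℂ) *
      ∏ j ∈ range (n + 1), (1 + I * b / (z + j))) atTop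
      (𝓝 (Gamma z / Gamma (z + I * b))) := by
  have hzb : ∀ j : ℕ, z + I * b + (j : ℂ) ≠ 0 := by
    intro j h
    have := congrArg Complex.im h
    simp at this
    linarith
  have hzj : ∀ j : ℕ, z + (j : ℂ) ≠ 0 := by
    intro j h
    have := congrArg Complex.im h
    simp at this
    linarith
  have hG : Gamma (z + I * b) ≠ 0 := by
    refine Gamma_ne_zero fun m hm => ?_
    exact hzb m (by rw [hm]; ring)
  have h1 := (GammaSeq_tendsto_Gamma z).div (GammaSeq_tendsto_Gamma (z + I * b)) hG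
  refine h1.congr' ?_
  filter_upwards [eventually_ge_atTop 1] with n hn
  have hn0 : (n : ℂ) ≠ 0 := by exact_mod_cast (by omega : n ≠ 0)
  simp only [Pi.div_apply, GammaSeq]
  have hfac : ((n.factorial : ℕ) : ℂ) ≠ 0 := by exact_mod_cast n.factorial_ne_zero
  have hp1 : ∏ j ∈ range (n + 1), (z + j) ≠ 0 := prod_ne_zero_iff.mpr fun j _ => hzj j
  have hp2 : ∏ j ∈ range (n + 1), (z + I * b + j) ≠ 0 := prod_ne_zero_iff.mpr fun j _ => hzb j
  have e1 : ∏ j ∈ range (n + 1), (1 + I * b / (z + j)) =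
      (∏ j ∈ range (n + 1), (z + I * b + j)) / ∏ j ∈ range (n + 1), (z + j) := by
    rw [← prod_div_distrib]
    refine prod_congr rfl fun j _ => ?_
    have := hzj j
    rw [eq_div_iff this, add_mul, div_mul_cancel₀ _ this]
    ring
  have e2 : (n : ℂ) ^ (z + I * b : ℂ) = (n : ℂ) ^ z * (n : ℂ) ^ (I * b : ℂ) := cpow_add _ _ hn0
  have e3 : (n : ℂ) ^ (-(I * b) : ℂ) = ((n : ℂ) ^ (I * b : ℂ))⁻¹ := cpow_neg _ _
  have hc1 : (n : ℂ) ^ z ≠ 0 := by
    rw [Ne, cpow_eq_zero_iff]; tauto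
  have hc2 : (n : ℂ) ^ (I * b : ℂ) ≠ 0 := by
    rw [Ne, cpow_eq_zero_iff]; tauto
  rw [e1, e2, e3]
  generalize ∏ j ∈ range (n + 1), (z + j) = P1 at hp1 ⊢
  generalize ∏ j ∈ range (n + 1), (z + I * b + j) = P2 at hp2 ⊢
  generalize (n : ℂ) ^ z = Q1 at hc1 ⊢
  generalize (n : ℂ) ^ (I * b : ℂ) = Q2 at hc2 ⊢
  generalize ((n.factorial : ℕ) : ℂ) = F1 at hfac ⊢
  field_simp

private lemma prod_norm_le (z : ℂ) (b : ℝ) (hz : 1 ≤ z.im) (hb : 0 ≤ b) (hb1 : b ≤ 1 / 2) (n : ℕ) :
    ‖∏ j ∈ range n, (1 + I * b / (z + j))‖ ≤ Real.exp (8 * b) := by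
  have hy : 0 < z.im := by linarith
  have hfac : ∀ j : ℕ, ‖1 + I * b / (z + j)‖ ^ 2 =
      1 + (2 * b * z.im + b ^ 2) * (1 / ((z.re + j) ^ 2 + z.im ^ 2)) := by
    intro j
    have hne : (z.re + j) ^ 2 + z.im ^ 2 ≠ 0 := by positivity
    have hzj : z + (j : ℂ) ≠ 0 := by
      intro h
      have := congrArg Complex.im h
      simp at this
      linarith
    have e : 1 + I * (b : ℂ) / (z + j) = (z + j + I * b) / (z + j) := by
      field_simp
    rw [e, norm_div, div_pow, Complex.sq_norm, Complex.sq_norm, normSq_apply, normSq_apply]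
    simp
    field_simp
    ring
  have hsq : ‖∏ j ∈ range n, (1 + I * b / (z + j))‖ ^ 2 ≤ Real.exp (16 * b) := by
    rw [norm_prod, ← prod_pow]
    have h1 : ∏ j ∈ range n, ‖1 + I * b / (z + j)‖ ^ 2 ≤
        ∏ j ∈ range n, Real.exp ((2 * b * z.im + b ^ 2) * (1 / ((z.re + j) ^ 2 + z.im ^ 2))) := by
      refine prod_le_prod (fun j _ => by positivity) fun j _ => ?_
      rw [hfac j, add_comm]
      exact Real.add_one_le_exp _
    refine le_trans h1 ?_
    rw [← Real.exp_sum, ← mul_sum]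
    refine Real.exp_le_exp.mpr ?_
    have h2 := sum_bound z.re z.im hy n
    have h3 : 0 ≤ 2 * b * z.im + b ^ 2 := by positivity
    refine le_trans (mul_le_mul_of_nonneg_left h2 h3) ?_
    have hpi := Real.pi_lt_d2
    have h4 : (2 * b * z.im + b ^ 2) * (Real.pi / z.im + 3 / z.im ^ 2) =
        b * (2 + b / z.im) * (Real.pi + 3 / z.im) := by
      field_simp
    rw [h4]
    have h5 : b / z.im ≤ 1 / 2 := by
      rw [div_le_iff₀ hy]
      nlinarith
    have h6 : 3 / z.im ≤ 3 := by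
      rw [div_le_iff₀ hy]
      linarith
    have h7 : 0 ≤ b / z.im := by positivity
    have h8 : 0 ≤ 3 / z.im := by positivity
    have h9 : (2 + b / z.im) * (Real.pi + 3 / z.im) ≤ (5 / 2) * (6.15) := by
      have := Real.pi_pos
      nlinarith
    have h10 : b * (2 + b / z.im) * (Real.pi + 3 / z.im) =
        b * ((2 + b / z.im) * (Real.pi + 3 / z.im)) := by ring
    rw [h10]
    nlinarith
  have e : Real.exp (16 * b) = (Real.exp (8 * b)) ^ 2 := by
    rw [← Real.exp_nat_mul]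
    congr 1
    push_cast
    ring
  rw [e] at hsq
  exact le_of_sq_le_sq hsq (Real.exp_pos _).le

theorem norm_gfac_le (α : ℝ) (h0 : 0 ≤ α) (h1 : α ≤ 1) (s : ℂ) (hs : 2 ≤ s.im) :
    ‖gfac α s‖ ≤ Real.exp (4 * α) := by
  have him : (s / 2).im = s.im / 2 := by
    simp
  have hlim := gamma_ratio_limit (s / 2) (α / 2) (by rw [him]; linarith) (by linarith)
  have hpi : (Real.pi : ℂ) ≠ 0 := by exact_mod_cast Real.pi_ne_zero
  have hlogpi : log (Real.pi : ℂ) = (Real.log Real.pi : ℂ) := (ofReal_log Real.pi_pos.le).symm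
  have e1 : gfac α s = cexp (I * ((α / 2 : ℝ) : ℂ) * (Real.log Real.pi : ℂ)) *
      (Gamma (s / 2) / Gamma (s / 2 + I * ((α / 2 : ℝ) : ℂ))) := by
    unfold gfac
    rw [Gammaℝ_def, Gammaℝ_def]
    have a2 : (s + I * (α : ℂ)) / 2 = s / 2 + I * ((α / 2 : ℝ) : ℂ) := by
      push_cast
      ring
    rw [a2, mul_div_mul_comm]
    congr 1
    rw [cpow_def_of_ne_zero hpi, cpow_def_of_ne_zero hpi, ← exp_sub, hlogpi]
    congr 1
    push_cast
    ring
  have hn : ‖cexp (I * ((α / 2 : ℝ) : ℂ) * (Real.log Real.pi : ℂ))‖ = 1 := by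
    have : I * ((α / 2 : ℝ) : ℂ) * (Real.log Real.pi : ℂ) =
        ((α / 2 * Real.log Real.pi : ℝ) : ℂ) * I := by
      push_cast
      ring
    rw [this, norm_exp_ofReal_mul_I]
  rw [e1, norm_mul, hn, one_mul]
  refine le_of_tendsto hlim.norm ?_
  filter_upwards [eventually_ge_atTop 1] with n hn1
  have hn0 : (0 : ℝ) < n := by exact_mod_cast hn1
  rw [norm_mul]
  have h2 : ‖(n : ℂ) ^ (-(I * ((α / 2 : ℝ) : ℂ)) : ℂ)‖ = 1 := by
    rw [← ofReal_natCast, norm_cpow_eq_rpow_re_of_pos hn0]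
    simp
  rw [h2, one_mul]
  refine le_trans (prod_norm_le (s / 2) (α / 2) (by rw [him]; linarith) (by linarith)
    (by linarith) (n + 1)) ?_
  refine Real.exp_le_exp.mpr ?_
  linarith

/-- `gfac α` is holomorphic in the upper half plane. -/
theorem differentiableAt_gfac (α : ℝ) (h0 : 0 ≤ α) (s : ℂ) (hs : 0 < s.im) :
    DifferentiableAt ℂ (gfac α) s := by
  have hne : ∀ w : ℂ, 0 < w.im → Gammaℝ w ≠ 0 := by
    intro w hw h
    rw [Gammaℝ_eq_zero_iff] at h
    obtain ⟨n, hn⟩ := h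
    rw [hn] at hw
    simp at hw
  have hd : DifferentiableAt ℂ Gammaℝ s := by
    have h1 := (differentiable_Gammaℝ_inv s).inv (inv_ne_zero (hne s hs))
    have h2 : (fun s => (Gammaℝ s)⁻¹)⁻¹ = Gammaℝ := by
      funext w
      simp
    rwa [h2] at h1
  have hd2 : DifferentiableAt ℂ (fun w => (Gammaℝ (w + I * α))⁻¹) s :=
    DifferentiableAt.comp (f := fun w => w + I * α) s
      (differentiable_Gammaℝ_inv (s + I * α)) (by fun_prop)
  have : gfac α = fun w => Gammaℝ w * (Gammaℝ (w + I * α))⁻¹ := by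
    funext w
    rw [gfac, div_eq_mul_inv]
  rw [this]
  exact hd.mul hd2

end H2.Gap
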