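import Pool.Agent.H2.Gap.Defs

/-!
# [H2 GAP TINY] growth comparisons

PROOF. `T = N^(1+k)`, `D = N^(1+k/2)`, `l = N^(1+k/4)`. `(l+1)^2/D^2 ≤ 4 N^(-k/2) ≤ 1` for large `N`;
`(N/(N+1))^(l-2) ≤ exp(-(l-2)/(N+1)) ≤ exp(-N^(k/4)/4)`; `(T/4)^2/D^2 = N^k/16`.
Exponentials of powers of `N` beat every power of `N` and `exp(C (log N)^2)`.
(3): the exponent `((9/4) - (T/4)^2)/D^2 ≤ 9/4 - N^k/16`.
-/

set_option autoImplicit false

namespace H2.Gap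

open Complex Filter Topology

/-- `C N^p exp(-c N^a)` is eventually small. -/
theorem ev_small (C p a c ε : ℝ) (ha : 0 < a) (hc : 0 < c) (hε : 0 < ε) :
    ∀ᶠ N : ℕ in atTop, C * ((N : ℝ) ^ p * Real.exp (-(c * (N : ℝ) ^ a))) ≤ ε := by
  have h1 := tendsto_rpow_mul_exp_neg_mul_atTop_nhds_zero (p / a) c hc
  have h2 : Tendsto (fun N : ℕ => (N : ℝ) ^ a) atTop atTop :=
    (tendsto_rpow_atTop ha).comp tendsto_natCast_atTop_atTop
  have h3 := (h1.comp h2).const_mul C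
  rw [mul_zero] at h3
  have h4 := h3.eventually (gt_mem_nhds hε)
  filter_upwards [h4, eventually_ge_atTop 1] with N hN hN1
  have hN0 : (0 : ℝ) ≤ N := Nat.cast_nonneg N
  have e1 : ((N : ℝ) ^ a) ^ (p / a) = (N : ℝ) ^ p := by
    rw [← Real.rpow_mul hN0, mul_div_cancel₀ _ ha.ne']
  simp only [Function.comp_apply, e1, neg_mul] at hN
  exact hN.le

theorem TD_eq (k : ℝ) (N : ℕ) (hN : 1 ≤ N) :
    (TT k N / 4) ^ 2 / (DD k N) ^ 2 = 1 / 16 * (N : ℝ) ^ k := by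
  have hN0 : (0 : ℝ) < N := by exact_mod_cast hN
  have hD : 0 < DD k N := Real.rpow_pos_of_pos hN0 _
  have h1 : TT k N ^ 2 = (N : ℝ) ^ k * DD k N ^ 2 := by
    unfold TT DD
    rw [← Real.rpow_natCast, ← Real.rpow_natCast, ← Real.rpow_mul hN0.le, ← Real.rpow_mul hN0.le,
      ← Real.rpow_add hN0]
    congr 1
    push_cast
    ring
  rw [div_pow, h1]
  field_simp
  norm_num

theorem DD_ge_one (k : ℝ) (hk : 0 < k) (N : ℕ) (hN : 1 ≤ N) : 1 ≤ DD k N := by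
  unfold DD
  apply Real.one_le_rpow
  · exact_mod_cast hN
  · linarith

theorem LL_ge_one (k : ℝ) (hk : 0 < k) (N : ℕ) (hN : 1 ≤ N) : 1 ≤ LL k N := by
  unfold LL
  apply Real.one_le_rpow
  · exact_mod_cast hN
  · linarith

theorem LL_le_DD (k : ℝ) (hk : 0 < k) (N : ℕ) (hN : 1 ≤ N) : LL k N ≤ DD k N := by
  unfold LL DD
  apply Real.rpow_le_rpow_of_exponent_le
  · exact_mod_cast hN
  · linarith

theorem LD_le (k : ℝ) (hk : 0 < k) (N : ℕ) (hN : 1 ≤ N) : (LL k N + 1) ^ 2 / (DD k N) ^ 2 ≤ 4 := by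
  have h1 := DD_ge_one k hk N hN
  have h2 := LL_ge_one k hk N hN
  have h3 := LL_le_DD k hk N hN
  rw [div_le_iff₀ (by positivity)]
  nlinarith

theorem exp_edge_le (k : ℝ) (hk : 0 < k) (N : ℕ) (hN : 1 ≤ N) :
    Real.exp ((9 / 4 - (TT k N / 4) ^ 2) / (DD k N) ^ 2) ≤
      Real.exp (9 / 4) * Real.exp (-(1 / 16 * (N : ℝ) ^ k)) := by
  rw [← Real.exp_add]
  apply Real.exp_le_exp.2
  rw [sub_div, TD_eq k N hN]
  have h1 := DD_ge_one k hk N hN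
  have h2 : 9 / 4 / DD k N ^ 2 ≤ 9 / 4 := by
    apply div_le_self (by norm_num)
    nlinarith
  linarith

theorem exp_off_le (k : ℝ) (hk : 0 < k) (N : ℕ) (hN : 1 ≤ N) :
    Real.exp (((LL k N + 1) ^ 2 - (TT k N / 4) ^ 2) / (DD k N) ^ 2) ≤
      Real.exp 4 * Real.exp (-(1 / 16 * (N : ℝ) ^ k)) := by
  rw [← Real.exp_add]
  apply Real.exp_le_exp.2
  rw [sub_div, TD_eq k N hN]
  linarith [LD_le k hk N hN]

theorem ratio_pow_le (k : ℝ) (hk : 0 < k) : ∀ᶠ N : ℕ in atTop,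
    ((N : ℝ) / (N + 1)) ^ (LL k N - 2) ≤ Real.exp (-(1 / 4 * (N : ℝ) ^ (k / 4))) := by
  have h2 : Tendsto (fun N : ℕ => (N : ℝ) ^ (k / 4)) atTop atTop :=
    (tendsto_rpow_atTop (by linarith)).comp tendsto_natCast_atTop_atTop
  filter_upwards [h2.eventually_ge_atTop 8, eventually_ge_atTop 1] with N hN hN1
  have hN0 : (0 : ℝ) < N := by exact_mod_cast hN1
  have hN1' : (1 : ℝ) ≤ N := by exact_mod_cast hN1
  have hL : LL k N = N * (N : ℝ) ^ (k / 4) := by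
    unfold LL
    rw [Real.rpow_add hN0, Real.rpow_one]
  have hpos : 0 < (N : ℝ) / (N + 1) := by positivity
  rw [Real.rpow_def_of_pos hpos]
  apply Real.exp_le_exp.2
  have hlog : Real.log ((N : ℝ) / (N + 1)) ≤ -(1 / (N + 1)) := by
    have := Real.log_le_sub_one_of_pos hpos
    have e : (N : ℝ) / (N + 1) - 1 = -(1 / (N + 1)) := by field_simp; ring
    rwa [e] at this
  have hL2 : 0 ≤ LL k N - 2 := by rw [hL]; nlinarith
  have h3 : Real.log ((N : ℝ) / (N + 1)) * (LL k N - 2) ≤ -(1 / (N + 1)) * (LL k N - 2) :=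
    mul_le_mul_of_nonneg_right hlog hL2
  refine h3.trans ?_
  rw [neg_mul, neg_le_neg_iff, hL]
  have h5 : 1 / ((N : ℝ) + 1) * (N * (N : ℝ) ^ (k / 4) - 2) =
      (N * (N : ℝ) ^ (k / 4) - 2) / (N + 1) := by ring
  rw [h5, le_div_iff₀ (by positivity)]
  nlinarith

theorem tiny_off (k : ℝ) (hk : 0 < k) (hk1 : k ≤ 1) : ∃ N0 : ℕ, ∀ N : ℕ, N0 ≤ N →
    8 * ((N : ℝ) * (N + 1)) * Real.exp 4 *
      (2 * TT k N * Real.exp ((LL k N + 1) ^ 2 / (DD k N) ^ 2) *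
        ((N : ℝ) / (N + 1)) ^ (LL k N - 2) +
      4 * LL k N * Real.exp (((LL k N + 1) ^ 2 - (TT k N / 4) ^ 2) / (DD k N) ^ 2)) ≤ 1 / 2 := by
  rw [← eventually_atTop]
  filter_upwards [ratio_pow_le k hk, eventually_ge_atTop 1,
    ev_small (32 * Real.exp 4 * Real.exp 4) 4 (k / 4) (1 / 4) (1 / 4) (by linarith) (by norm_num)
      (by norm_num),
    ev_small (64 * Real.exp 4 * Real.exp 4) 4 k (1 / 16) (1 / 4) hk (by norm_num)
      (by norm_num)] with N h1 hN1 h2 h3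
  have hN0 : (0 : ℝ) < N := by exact_mod_cast hN1
  have hN1' : (1 : ℝ) ≤ N := by exact_mod_cast hN1
  have hT : TT k N ≤ (N : ℝ) ^ (2 : ℝ) := by
    unfold TT
    exact Real.rpow_le_rpow_of_exponent_le hN1' (by linarith)
  have hL : LL k N ≤ (N : ℝ) ^ (2 : ℝ) := by
    unfold LL
    exact Real.rpow_le_rpow_of_exponent_le hN1' (by linarith)
  have hT0 : 0 ≤ TT k N := Real.rpow_nonneg hN0.le _
  have hL0 : 0 ≤ LL k N := Real.rpow_nonneg hN0.le _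
  have hNN : (N : ℝ) * (N + 1) ≤ 2 * (N : ℝ) ^ (2 : ℝ) := by
    rw [Real.rpow_two]; nlinarith
  have h4 : (N : ℝ) ^ (4 : ℝ) = (N : ℝ) ^ (2 : ℝ) * (N : ℝ) ^ (2 : ℝ) := by
    rw [← Real.rpow_add hN0]; norm_num
  have hp0 : 0 ≤ (N : ℝ) ^ (2 : ℝ) := Real.rpow_nonneg hN0.le _
  have hr0 : 0 ≤ ((N : ℝ) / (N + 1)) ^ (LL k N - 2) := Real.rpow_nonneg (by positivity) _
  have hE4 : Real.exp ((LL k N + 1) ^ 2 / (DD k N) ^ 2) ≤ Real.exp 4 :=
    Real.exp_le_exp.2 (LD_le k hk N hN1)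
  have hA : 2 * TT k N * Real.exp ((LL k N + 1) ^ 2 / (DD k N) ^ 2) *
        ((N : ℝ) / (N + 1)) ^ (LL k N - 2) ≤
      2 * (N : ℝ) ^ (2 : ℝ) * Real.exp 4 * Real.exp (-(1 / 4 * (N : ℝ) ^ (k / 4))) := by
    gcongr
  have hB : 4 * LL k N * Real.exp (((LL k N + 1) ^ 2 - (TT k N / 4) ^ 2) / (DD k N) ^ 2) ≤
      4 * (N : ℝ) ^ (2 : ℝ) * (Real.exp 4 * Real.exp (-(1 / 16 * (N : ℝ) ^ k))) := by
    gcongr
    exact exp_off_le k hk N hN1
  calc 8 * ((N : ℝ) * (N + 1)) * Real.exp 4 *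
      (2 * TT k N * Real.exp ((LL k N + 1) ^ 2 / (DD k N) ^ 2) *
        ((N : ℝ) / (N + 1)) ^ (LL k N - 2) +
      4 * LL k N * Real.exp (((LL k N + 1) ^ 2 - (TT k N / 4) ^ 2) / (DD k N) ^ 2))
      ≤ 8 * (2 * (N : ℝ) ^ (2 : ℝ)) * Real.exp 4 *
        (2 * (N : ℝ) ^ (2 : ℝ) * Real.exp 4 * Real.exp (-(1 / 4 * (N : ℝ) ^ (k / 4))) +
        4 * (N : ℝ) ^ (2 : ℝ) * (Real.exp 4 * Real.exp (-(1 / 16 * (N : ℝ) ^ k)))) := by
        gcongr
    _ = 32 * Real.exp 4 * Real.exp 4 *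
          ((N : ℝ) ^ (4 : ℝ) * Real.exp (-(1 / 4 * (N : ℝ) ^ (k / 4)))) +
        64 * Real.exp 4 * Real.exp 4 *
          ((N : ℝ) ^ (4 : ℝ) * Real.exp (-(1 / 16 * (N : ℝ) ^ k))) := by
        rw [h4]; ring
    _ ≤ 1 / 4 + 1 / 4 := add_le_add h2 h3
    _ = 1 / 2 := by norm_num

theorem tiny_diag (k : ℝ) (hk : 0 < k) (hk1 : k ≤ 1) : ∃ N0 : ℕ, ∀ N : ℕ, N0 ≤ N →
    (N : ℝ) * (3 * Real.exp 4 * Real.exp ((9 / 4 - (TT k N / 4) ^ 2) / (DD k N) ^ 2)) ≤ 1 / 2 := by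
  rw [← eventually_atTop]
  filter_upwards [eventually_ge_atTop 1,
    ev_small (3 * Real.exp 4 * Real.exp (9 / 4)) 1 k (1 / 16) (1 / 2) hk (by norm_num)
      (by norm_num)] with N hN1 h2
  rw [Real.rpow_one] at h2
  calc (N : ℝ) * (3 * Real.exp 4 * Real.exp ((9 / 4 - (TT k N / 4) ^ 2) / (DD k N) ^ 2))
      ≤ (N : ℝ) * (3 * Real.exp 4 * (Real.exp (9 / 4) * Real.exp (-(1 / 16 * (N : ℝ) ^ k)))) := by
        gcongr
        exact exp_edge_le k hk N hN1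
    _ = 3 * Real.exp 4 * Real.exp (9 / 4) * ((N : ℝ) * Real.exp (-(1 / 16 * (N : ℝ) ^ k))) := by
        ring
    _ ≤ 1 / 2 := h2

theorem log_sq_small (C k : ℝ) (hk : 0 < k) : ∀ᶠ N : ℕ in atTop,
    C * Real.log N ^ 2 ≤ 1 / 32 * (N : ℝ) ^ k := by
  have h1 := isLittleO_log_rpow_rpow_atTop (2 : ℝ) hk
  have h2 := (h1.comp_tendsto tendsto_natCast_atTop_atTop).const_mul_left C
  have h3 := h2.def (c := 1 / 32) (by norm_num)
  filter_upwards [h3, eventually_ge_atTop 1] with N hN hN1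
  have hN0 : (0 : ℝ) < N := by exact_mod_cast hN1
  simp only [Function.comp_apply, Real.norm_eq_abs, Real.rpow_two] at hN
  rw [abs_of_nonneg (Real.rpow_nonneg hN0.le k)] at hN
  exact (le_abs_self _).trans hN

theorem tiny_edge (k C : ℝ) (hk : 0 < k) (hk1 : k ≤ 1) : ∃ N0 : ℕ, ∀ N : ℕ, N0 ≤ N →
    C * TT k N ^ 2 * (N : ℝ) ^ 4 * Real.exp (C * (Real.log (TT k N)) ^ 2) *
      Real.exp ((9 / 4 - (TT k N / 4) ^ 2) / (DD k N) ^ 2) ≤ 1 := by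
  rw [← eventually_atTop]
  filter_upwards [eventually_ge_atTop 1, log_sq_small (|C| * 4) k hk,
    ev_small (|C| * Real.exp (9 / 4)) 8 k (1 / 32) 1 hk (by norm_num)
      (by norm_num)] with N hN1 hl h2
  have hN0 : (0 : ℝ) < N := by exact_mod_cast hN1
  have hN1' : (1 : ℝ) ≤ N := by exact_mod_cast hN1
  have hlog0 : 0 ≤ Real.log N := Real.log_nonneg hN1'
  have hTl : Real.log (TT k N) = (1 + k) * Real.log N := by
    unfold TT; rw [Real.log_rpow hN0]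
  have h3 : C * (Real.log (TT k N)) ^ 2 ≤ 1 / 32 * (N : ℝ) ^ k := by
    refine le_trans ?_ hl
    rw [hTl]
    have h4 : ((1 + k) * Real.log N) ^ 2 ≤ 4 * Real.log N ^ 2 := by
      rw [mul_pow]
      apply mul_le_mul_of_nonneg_right _ (sq_nonneg _)
      nlinarith
    calc C * ((1 + k) * Real.log N) ^ 2 ≤ |C| * ((1 + k) * Real.log N) ^ 2 :=
          mul_le_mul_of_nonneg_right (le_abs_self C) (sq_nonneg _)
      _ ≤ |C| * (4 * Real.log N ^ 2) := mul_le_mul_of_nonneg_left h4 (abs_nonneg C)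
      _ = |C| * 4 * Real.log N ^ 2 := by ring
  have hT : TT k N ^ 2 ≤ (N : ℝ) ^ 4 := by
    have h1 : TT k N ≤ (N : ℝ) ^ 2 := by
      rw [← Real.rpow_two]
      unfold TT
      exact Real.rpow_le_rpow_of_exponent_le hN1' (by linarith)
    have h0 : 0 ≤ TT k N := Real.rpow_nonneg hN0.le _
    calc TT k N ^ 2 ≤ ((N : ℝ) ^ 2) ^ 2 := pow_le_pow_left₀ h0 h1 2
      _ = (N : ℝ) ^ 4 := by ring
  have h8 : (N : ℝ) ^ (8 : ℝ) = (N : ℝ) ^ 8 := by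
    rw [show (8 : ℝ) = ((8 : ℕ) : ℝ) by norm_num, Real.rpow_natCast]
  calc C * TT k N ^ 2 * (N : ℝ) ^ 4 * Real.exp (C * (Real.log (TT k N)) ^ 2) *
      Real.exp ((9 / 4 - (TT k N / 4) ^ 2) / (DD k N) ^ 2)
      ≤ |C| * (N : ℝ) ^ 4 * (N : ℝ) ^ 4 * Real.exp (1 / 32 * (N : ℝ) ^ k) *
        (Real.exp (9 / 4) * Real.exp (-(1 / 16 * (N : ℝ) ^ k))) := by
        gcongr
        · exact le_abs_self C
        · exact exp_edge_le k hk N hN1
    _ = |C| * Real.exp (9 / 4) * ((N : ℝ) ^ 8 * (Real.exp (1 / 32 * (N : ℝ) ^ k) *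
          Real.exp (-(1 / 16 * (N : ℝ) ^ k)))) := by ring
    _ = |C| * Real.exp (9 / 4) * ((N : ℝ) ^ (8 : ℝ) * Real.exp (-(1 / 32 * (N : ℝ) ^ k))) := by
        rw [← Real.exp_add, h8]
        congr 3
        ring
    _ ≤ 1 := h2

/-- Basic facts about the parameters for large `N`. -/
theorem params (c k : ℝ) (hc : 1 / 2 < c) (hc1 : c < 1) (hk : 0 < k) (hk1 : k ≤ 1) (B : ℝ) :
    ∃ N0 : ℕ, ∀ N : ℕ, N0 ≤ N → B ≤ TT k N ∧ B ≤ Real.log N ∧ 0 < al c k N ∧ al c k N ≤ 1 ∧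
      2 ≤ LL k N ∧ 1 ≤ DD k N ∧ 2 ≤ N ∧ al c k N = 2 * Real.pi * c / Real.log (TT k N) := by
  rw [← eventually_atTop]
  have hlog : Tendsto (fun N : ℕ => Real.log N) atTop atTop :=
    Real.tendsto_log_atTop.comp tendsto_natCast_atTop_atTop
  filter_upwards [eventually_ge_atTop 2, hlog.eventually_ge_atTop B, hlog.eventually_ge_atTop 8,
    (tendsto_natCast_atTop_atTop (R := ℝ)).eventually_ge_atTop B] with N hN2 hB h8 hBN
  have hN1 : 1 ≤ N := by omega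
  have hN0 : (0 : ℝ) < N := by exact_mod_cast hN1
  have hN1' : (1 : ℝ) ≤ N := by exact_mod_cast hN1
  have hN2' : (2 : ℝ) ≤ N := by exact_mod_cast hN2
  have hTl : Real.log (TT k N) = (1 + k) * Real.log N := by
    unfold TT; rw [Real.log_rpow hN0]
  have hT : (N : ℝ) ≤ TT k N := by
    unfold TT
    calc (N : ℝ) = (N : ℝ) ^ (1 : ℝ) := (Real.rpow_one _).symm
      _ ≤ _ := Real.rpow_le_rpow_of_exponent_le hN1' (by linarith)
  have hL : (N : ℝ) ≤ LL k N := by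
    unfold LL
    calc (N : ℝ) = (N : ℝ) ^ (1 : ℝ) := (Real.rpow_one _).symm
      _ ≤ _ := Real.rpow_le_rpow_of_exponent_le hN1' (by linarith)
  have hden : 0 < (1 + k) * Real.log N := by positivity
  refine ⟨hBN.trans hT, hB, ?_, ?_, hN2'.trans hL, DD_ge_one k hk N hN1, hN2, ?_⟩
  · unfold al
    have := Real.pi_pos
    positivity
  · unfold al
    rw [div_le_one hden]
    have h1 := Real.pi_lt_four
    have h2 := Real.pi_pos
    nlinarith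
  · unfold al
    rw [hTl]

end H2.Gap
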