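import Pool.Agent.H2.Gap.ZLow
import Pool.Agent.H2.Gap.GamAbs
import Pool.Agent.H2.Gap.Tiny

/-!
# [H2 GAP EDGE] the integrand is small on the horizontal edges

PROOF. `T = TT k N`, `α = al c k N = 2πc/log T`. Let `s = u + it`, `1/2 < u ≤ 2`.
`Gr α s = gfac α s * ζ(s)/ζ(s+iα)` (`Λ = Gammaℝ ζ`, `Gammaℝ ≠ 0` for `Re > 0`).
`‖gfac‖ ≤ e^4` (`norm_gfac_le`), `‖ζ s‖ ≤ C1 t ≤ 2 C1 T` (`zeta_upper`). Lower bound: `zeta_lower` at
the height `t' = t + α ∈ [T/2, 2T+1]` with separation parameter `α`. Its hypotheses: a zero `ρ` with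
`0 < Re ρ` is on the critical line by RH (not a trivial zero since `Re > 0`; `ζ 1 ≠ 0`:
`riemannZeta_one_ne_zero`), so `ρ = 1/2 + i Im ρ` with `Im ρ ∈ [t'-2, t'+2] ⊆ [T/4, 4T]`; simple
and separated by `Good`; two different zeros on the line have different ordinates; the third
hypothesis is `hd`. So `‖ζ(s+iα)‖ ≥ exp(-(C2 (log(2T+1) + (1/α)(1+log(1/α))))) ≥
exp(-(C3 (log T)^2))`, because `1/α = log T/(2πc) ≤ log T`, `log(1/α) ≤ log T`.
`‖Asum‖ ≤ N` and `‖Bsum‖ ≤ N^2` (`|n^(-s)| ≤ 1`, `|n^(s-1)| ≤ n`, `|μ| ≤ 1`).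
`‖Wt‖ = exp(((u-1/2)^2 - (t-T)^2)/D^2) ≤ exp((9/4 - (T/4)^2)/D^2)`. Then `tiny_edge`.
-/

set_option autoImplicit false

namespace H2.Gap

open Complex

theorem ed_Wt (T D u t : ℝ) :
    ‖Wt T D (u + I * t)‖ = Real.exp (((u - 1 / 2) ^ 2 - (t - T) ^ 2) / D ^ 2) := by
  unfold Wt
  rw [Complex.norm_exp]
  congr 1
  have h1 : ((u : ℂ) + I * t - 1 / 2 - I * T) ^ 2 / (D : ℂ) ^ 2 =
      ((((u - 1 / 2) ^ 2 - (t - T) ^ 2) / D ^ 2 : ℝ) : ℂ) +
      ((2 * (u - 1 / 2) * (t - T) / D ^ 2 : ℝ) : ℂ) * I := by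
    have h2 : ((u : ℂ) + I * t - 1 / 2 - I * T) ^ 2 =
        (((u - 1 / 2) ^ 2 - (t - T) ^ 2 : ℝ) : ℂ) + ((2 * (u - 1 / 2) * (t - T) : ℝ) : ℂ) * I := by
      push_cast
      linear_combination ((t : ℂ) - T) ^ 2 * I_sq
    rw [h2, add_div]
    push_cast
    ring
  rw [h1, Complex.add_re, Complex.ofReal_re, Complex.re_ofReal_mul, Complex.I_re, mul_zero,
    add_zero]

theorem ed_A (N : ℕ) (s : ℂ) (hs : 0 ≤ s.re) : ‖Asum N s‖ ≤ N := by
  unfold Asum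
  refine (norm_sum_le_of_le (f := fun n : ℕ => (ArithmeticFunction.moebius n : ℂ) * (n : ℂ) ^ (-s))
    (n := fun _ => (1 : ℝ)) _ fun n hn => ?_).trans (by simp)
  rw [Finset.mem_Icc] at hn
  have h1 : ‖((ArithmeticFunction.moebius n : ℤ) : ℂ)‖ ≤ 1 := by
    rw [Complex.norm_intCast]
    have := ArithmeticFunction.abs_moebius_le_one (n := n)
    exact_mod_cast this
  have h2 : ‖(n : ℂ) ^ (-s)‖ ≤ 1 := by
    rw [Complex.norm_natCast_cpow_of_pos (by omega)]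
    apply Real.rpow_le_one_of_one_le_of_nonpos
    · exact_mod_cast hn.1
    · simpa using hs
  rw [norm_mul]
  exact mul_le_one₀ h1 (norm_nonneg _) h2

theorem ed_B (N : ℕ) (s : ℂ) (hs : s.re ≤ 2) : ‖Bsum N s‖ ≤ (N : ℝ) ^ 2 := by
  unfold Bsum
  refine (norm_sum_le_of_le
    (f := fun n : ℕ => (ArithmeticFunction.moebius n : ℂ) * (n : ℂ) ^ (s - 1))
    (n := fun _ => (N : ℝ)) _ fun n hn => ?_).trans (by
      rw [Finset.sum_const, Nat.card_Icc, nsmul_eq_mul, Nat.add_sub_cancel, sq])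
  rw [Finset.mem_Icc] at hn
  have h1 : ‖((ArithmeticFunction.moebius n : ℤ) : ℂ)‖ ≤ 1 := by
    rw [Complex.norm_intCast]
    have := ArithmeticFunction.abs_moebius_le_one (n := n)
    exact_mod_cast this
  have hn1 : (1 : ℝ) ≤ n := by exact_mod_cast hn.1
  have h2 : ‖(n : ℂ) ^ (s - 1)‖ ≤ N := by
    rw [Complex.norm_natCast_cpow_of_pos (by omega)]
    calc (n : ℝ) ^ (s - 1).re ≤ (n : ℝ) ^ (1 : ℝ) := by
          apply Real.rpow_le_rpow_of_exponent_le hn1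
          rw [Complex.sub_re, Complex.one_re]
          linarith
      _ = n := Real.rpow_one _
      _ ≤ N := by exact_mod_cast hn.2
  rw [norm_mul]
  calc _ ≤ 1 * (N : ℝ) := mul_le_mul h1 h2 (norm_nonneg _) zero_le_one
    _ = N := one_mul _

theorem ed_Gr (α : ℝ) (s : ℂ) (hs : 0 < s.re) :
    Gr α s = gfac α s * (riemannZeta s / riemannZeta (s + I * α)) := by
  have h1 : (s + I * α).re = s.re := by simp
  have hs0 : s ≠ 0 := by
    rintro rfl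
    simp at hs
  have hs1 : s + I * α ≠ 0 := by
    intro h2
    rw [h2] at h1
    simp at h1
    linarith
  have hg0 : Gammaℝ s ≠ 0 := Gammaℝ_ne_zero_of_re_pos hs
  have hg1 : Gammaℝ (s + I * α) ≠ 0 := Gammaℝ_ne_zero_of_re_pos (by rw [h1]; exact hs)
  unfold Gr gfac
  rw [riemannZeta_def_of_ne_zero hs0, riemannZeta_def_of_ne_zero hs1]
  field_simp

theorem ed_n1 (c : ℝ) (hc : 1 / 2 < c) : 1 ≤ 2 * Real.pi * c := by
  have := Real.pi_gt_three
  nlinarith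

theorem ed_n2 (t α T : ℝ) (h1 : t ≤ 2 * T) (h2 : α ≤ 1) (h3 : 100 ≤ T) : t + α ≤ T ^ 2 := by
  nlinarith

theorem ed_n3 (x a b : ℝ) (hx : 1 ≤ x) (ha : a ≤ 2 * x) (hb : b ≤ x * (1 + x)) :
    a + b ≤ 4 * x ^ 2 := by
  nlinarith

theorem ed_n4 (u : ℝ) (h1 : 1 / 2 < u) (h2 : u ≤ 2) : (u - 1 / 2) ^ 2 ≤ 9 / 4 := by
  nlinarith

theorem edge (hRH : RiemannHypothesis) (c k T0 : ℝ) (hc : 1 / 2 < c) (hc1 : c < 1) (hk : 0 < k)
    (hk1 : k ≤ 1) (hG : Good c T0) :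
    ∃ N0 : ℕ, ∀ N : ℕ, N0 ≤ N → ∀ t : ℝ, TT k N / 2 ≤ t → t ≤ 2 * TT k N →
      TT k N / 4 ≤ |t - TT k N| →
      (∀ v : ℝ, riemannZeta (1 / 2 + I * v) = 0 → al c k N / 4 ≤ |t + al c k N - v|) →
      ∀ u : ℝ, 1 / 2 < u → u ≤ 2 → ‖FF c k N (u + I * t)‖ ≤ 1 := by
  obtain ⟨C1, hC1, hup⟩ := zeta_upper
  obtain ⟨C2, hC2, hlow⟩ := zeta_lower
  obtain ⟨N1, hN1⟩ := tiny_edge k (2 * Real.exp 4 * C1 + 4 * C2) hk hk1
  obtain ⟨N2, hN2⟩ := params c k hc hc1 hk hk1 (max 100 (4 * T0))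
  refine ⟨max N1 N2, ?_⟩
  intro N hN t ht1 ht2 ht3 hv u hu1 hu2
  obtain ⟨hB, -, hα0, hα1, -, hD1, hN2', hαT⟩ := hN2 N ((le_max_right _ _).trans hN)
  have htiny := hN1 N ((le_max_left _ _).trans hN)
  set T : ℝ := TT k N with hT
  set α : ℝ := al c k N with hα
  have hT100 : 100 ≤ T := (le_max_left _ _).trans hB
  have hT0 : 4 * T0 ≤ T := (le_max_right _ _).trans hB
  have hNR : (2 : ℝ) ≤ N := by exact_mod_cast hN2'
  -- the logarithm
  have hl1 : 1 ≤ Real.log T := by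
    rw [Real.le_log_iff_exp_le (by linarith)]
    have := Real.exp_one_lt_d9
    linarith
  have hlc : 1 ≤ 2 * Real.pi * c := ed_n1 c hc
  have hαinv : 1 / α ≤ Real.log T := by
    rw [hαT, one_div_div, div_le_iff₀ (by linarith)]
    exact le_mul_of_one_le_right (by linarith) hlc
  have hαinv1 : 1 ≤ 1 / α := by
    rw [le_div_iff₀ hα0]
    linarith
  have hlogα : Real.log (1 / α) ≤ Real.log T := by
    have h1 := Real.log_le_sub_one_of_pos (show 0 < 1 / α by positivity)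
    linarith
  have hlogα0 : 0 ≤ Real.log (1 / α) := Real.log_nonneg hαinv1
  have hT1 : 0 ≤ T0 ∨ T0 < 0 := le_or_gt 0 T0
  have hT0T : T0 ≤ T / 4 := by linarith
  have hT0T' : T0 ≤ T := by linarith
  -- lower bound
  have h1 : ∀ ρ : ℂ, riemannZeta ρ = 0 → 0 < ρ.re → |ρ.im - (t + α)| ≤ 2 →
      ρ.re = 1 / 2 ∧ deriv riemannZeta ρ ≠ 0 := by
    intro ρ hρ hρ0 hρ2
    have h2 : ρ.re = 1 / 2 := by
      apply hRH ρ hρ
      · rintro ⟨n, hn⟩
        rw [hn] at hρ0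
        simp at hρ0
        have : (0 : ℝ) ≤ n := Nat.cast_nonneg n
        linarith
      · rintro rfl
        exact riemannZeta_one_ne_zero hρ
    have h3 : ρ = 1 / 2 + I * ρ.im := by
      apply Complex.ext
      · rw [h2]; simp
      · simp
    refine ⟨h2, ?_⟩
    rw [h3]
    apply hG.1 ρ.im
    · rw [abs_le] at hρ2
      linarith
    · rw [← h3]
      exact hρ
  have hline : ∀ ρ : ℂ, riemannZeta ρ = 0 → 0 < ρ.re → |ρ.im - (t + α)| ≤ 2 →
      riemannZeta (1 / 2 + I * ρ.im) = 0 := by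
    intro ρ hρ hρ0 hρ2
    have h3 : (1 / 2 + I * ρ.im : ℂ) = ρ := by
      apply Complex.ext
      · rw [(h1 ρ hρ hρ0 hρ2).1]; simp
      · simp
    rw [h3]
    exact hρ
  have h2 : ∀ ρ ρ' : ℂ, riemannZeta ρ = 0 → riemannZeta ρ' = 0 → 0 < ρ.re → 0 < ρ'.re →
      |ρ.im - (t + α)| ≤ 2 → |ρ'.im - (t + α)| ≤ 2 → ρ.im < ρ'.im → α ≤ ρ'.im - ρ.im := by
    intro ρ ρ' hρ hρ' h3 h4 h5 h6 h7
    have h8 := hG.2 T hT0T' ρ.im ρ'.im (by rw [abs_le] at h5; linarith) h7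
      (by rw [abs_le] at h6; linarith) (hline ρ hρ h3 h5) (hline ρ' hρ' h4 h6)
    rw [hαT]
    exact h8
  have hlower := hlow (t + α) α (by linarith) hα0 hα1 h1 (by
    intro ρ ρ' hρ hρ' h3 h4 h5 h6 h7
    rcases lt_trichotomy ρ.im ρ'.im with h8 | h8 | h8
    · have := h2 ρ ρ' hρ hρ' h3 h4 h5 h6 h8
      rw [abs_of_neg (by linarith)]
      linarith
    · exfalso
      apply h7
      apply Complex.ext
      · rw [(h1 ρ hρ h3 h5).1, (h1 ρ' hρ' h4 h6).1]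
      · exact h8
    · have := h2 ρ' ρ hρ' hρ h4 h3 h6 h5 h8
      rw [abs_of_pos (by linarith)]
      linarith) (by
    intro ρ hρ h3 h5
    have h6 := hv ρ.im (hline ρ hρ h3 h5)
    rwa [abs_sub_comm] at h6) u hu1.le hu2
  have hs' : (u : ℂ) + I * ((t + α : ℝ) : ℂ) = u + I * t + I * α := by
    push_cast
    ring
  rw [hs'] at hlower
  have hlogt : Real.log (t + α) ≤ 2 * Real.log T := by
    have h3 : t + α ≤ T ^ 2 := ed_n2 t α T ht2 hα1 hT100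
    have h4 := Real.log_le_log (by linarith) h3
    rwa [Real.log_pow] at h4
  have hexp : Real.log (t + α) + 1 / α * (1 + Real.log (1 / α)) ≤ 4 * Real.log T ^ 2 := by
    have h3 : 1 / α * (1 + Real.log (1 / α)) ≤ Real.log T * (1 + Real.log T) :=
      mul_le_mul hαinv (by linarith) (by linarith) (by linarith)
    exact ed_n3 _ _ _ hl1 hlogt h3
  have hinv : ‖(riemannZeta (u + I * t + I * α))‖⁻¹ ≤ Real.exp (4 * C2 * Real.log T ^ 2) := by
    have h3 : Real.exp (-(4 * C2 * Real.log T ^ 2)) ≤ ‖riemannZeta (u + I * t + I * α)‖ := by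
      refine le_trans ?_ hlower
      apply Real.exp_le_exp.2
      have := mul_le_mul_of_nonneg_left hexp hC2.le
      linarith
    have h4 := inv_anti₀ (Real.exp_pos _) h3
    rwa [← Real.exp_neg, neg_neg] at h4
  have hre : ((u : ℂ) + I * t).re = u := by simp
  have him : ((u : ℂ) + I * t).im = t := by simp
  have hupper := hup (u + I * t) (by rw [hre]; linarith) (by rw [hre]; linarith)
    (by rw [him]; linarith)
  rw [him] at hupper
  have hg := norm_gfac_le α hα0.le hα1 (u + I * t) (by rw [him]; linarith)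
  have hg4 : ‖gfac α (u + I * t)‖ ≤ Real.exp 4 := hg.trans (Real.exp_le_exp.2 (by linarith))
  have hA := ed_A N (u + I * t) (by rw [hre]; linarith)
  have hBs := ed_B N (u + I * t) (by rw [hre]; linarith)
  have hW : ‖Wt T (DD k N) (u + I * t)‖ ≤
      Real.exp ((9 / 4 - (T / 4) ^ 2) / (DD k N) ^ 2) := by
    rw [ed_Wt]
    apply Real.exp_le_exp.2
    have h3 : (T / 4) ^ 2 ≤ (t - T) ^ 2 := by
      rw [← sq_abs (t - T)]
      exact pow_le_pow_left₀ (by linarith) ht3 2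
    have h4 : (u - 1 / 2) ^ 2 ≤ 9 / 4 := ed_n4 u hu1 hu2
    gcongr
  unfold FF
  rw [← hα, ← hT, ed_Gr α _ (by rw [hre]; linarith)]
  rw [norm_mul, norm_mul, norm_div, norm_mul, norm_mul, div_eq_mul_inv]
  set E1 := Real.exp (4 * C2 * Real.log T ^ 2)
  set E2 := Real.exp ((9 / 4 - (T / 4) ^ 2) / (DD k N) ^ 2)
  have hE1 : 0 < E1 := Real.exp_pos _
  have hE2 : 0 < E2 := Real.exp_pos _
  have hz : ‖riemannZeta (u + I * t)‖ ≤ C1 * (2 * T) := by
    refine hupper.trans ?_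
    gcongr
  have hprod : ‖gfac α (u + I * t)‖ * (‖riemannZeta (u + I * t)‖ *
      ‖riemannZeta (u + I * t + I * α)‖⁻¹) * (‖Asum N (u + I * t)‖ * ‖Bsum N (u + I * t)‖ *
      ‖Wt T (DD k N) (u + I * t)‖) ≤
      Real.exp 4 * (C1 * (2 * T) * E1) * ((N : ℝ) * (N : ℝ) ^ 2 * E2) := by
    gcongr
  refine hprod.trans (le_trans ?_ htiny)
  have hE3 : E1 ≤ Real.exp ((2 * Real.exp 4 * C1 + 4 * C2) * Real.log T ^ 2) := by
    apply Real.exp_le_exp.2
    have h3 : 0 ≤ 2 * Real.exp 4 * C1 * Real.log T ^ 2 := by positivity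
    linarith
  have hTT : T ≤ T ^ 2 := le_self_pow₀ (by linarith) (by norm_num)
  have hNN : (N : ℝ) ^ 3 ≤ (N : ℝ) ^ 4 := pow_le_pow_right₀ (by linarith) (by norm_num)
  calc Real.exp 4 * (C1 * (2 * T) * E1) * ((N : ℝ) * (N : ℝ) ^ 2 * E2)
      = (2 * Real.exp 4 * C1) * T * (N : ℝ) ^ 3 * E1 * E2 := by ring
    _ ≤ (2 * Real.exp 4 * C1 + 4 * C2) * T ^ 2 * (N : ℝ) ^ 4 *
        Real.exp ((2 * Real.exp 4 * C1 + 4 * C2) * Real.log T ^ 2) * E2 := by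
        gcongr
        linarith

end H2.Gap
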