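import Pool.Agent.H2.Gap.Tiny

/-!
# [H2 GAP PICK] heights away from the zeros, and the integrand on and right of the line

PROOF. (pick) `a = al c k N = 2πc/log T`, `T = TT k N` large, `x ∈ [T/2, 3T/2]`. If some zero ordinate
`v` has `|x + a - v| < a/4` and some zero ordinate `v'` has `|x + a/2 + a - v'| < a/4`, then
`v ≠ v'` (`|v - v'| ≥ a/2 - a/4 - a/4`, strictly positive) and `|v - v'| < a/2 + a/2 = a`,
both lie in `[T/4, 4T]`: contradiction to `Good`. So `y = x` or `y = x + a/2` (`a/2 ≤ 1`) works.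
(diff) For `Re s > 1/2`, `Im s > 0`: `Λ(s+iα) ≠ 0`: otherwise `ζ(s+iα) = 0` (`Λ = Gammaℝ ζ`), RH
gives `Re = 1/2` (it is not a trivial zero because `Re s > 0`, and `s + iα ≠ 1` as `Im > 0`).
`Λ` is differentiable at points different from 0, 1 (`differentiableAt_completedZeta`); `Asum`,
`Bsum`, `Wt` are entire (`n ≥ 1`).
(line) On `s = 1/2+it`: `Bsum N s = conj (Asum N s)` (`n^(s-1) = n^(-1/2+it)`, conj of
`n^(-1/2-it)`), so the product is `|Asum|^2 ≥ 0`; `Wt T D (1/2+it) = exp(-(t-T)^2/D^2) > 0`.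
(zeros) `Λ(1/2+iv) = 0 ↔ ζ(1/2+iv) = 0`; at such a point with `ζ' ≠ 0`, `Λ' = Gammaℝ ζ' ≠ 0`
(product rule, `ζ = Λ / Gammaℝ` near the point). If `t ∈ [T/4, 3T]`, `1/2+i(t+α)` is a zero and
`t < u < t+α`, then `1/2+iu` is not a zero by `Good`.
(mass) `VV ≥ ∫_T^{T+1} exp(-(t-T)^2/D^2) dt ≥ e^{-1} ≥ 1/3` since `D ≥ 1`.
-/

set_option autoImplicit false

namespace H2.Gap

open Complex

private theorem pk_zeta (z : ℂ) (hz : z ≠ 0) (h : completedRiemannZeta z = 0) :
    riemannZeta z = 0 := by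
  rw [riemannZeta_def_of_ne_zero hz, h, zero_div]

private theorem pk_ne (t : ℝ) : (1 / 2 + I * t : ℂ) ≠ 0 ∧ (1 / 2 + I * t : ℂ) ≠ 1 := by
  constructor
  · intro h
    have := congrArg re h
    simp at this
  · intro h
    have := congrArg re h
    simp at this

theorem pick (c k T0 : ℝ) (hc : 1 / 2 < c) (hc1 : c < 1) (hk : 0 < k) (hk1 : k ≤ 1)
    (hG : Good c T0) : ∃ N0 : ℕ, ∀ N : ℕ, N0 ≤ N → ∀ x : ℝ, TT k N / 2 ≤ x →
      x ≤ 3 * TT k N / 2 → ∃ y : ℝ, x ≤ y ∧ y ≤ x + 1 ∧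
        ∀ v : ℝ, riemannZeta (1 / 2 + I * v) = 0 → al c k N / 4 ≤ |y + al c k N - v| := by
  obtain ⟨N0, hN0⟩ := params c k hc hc1 hk hk1 (max T0 1)
  refine ⟨N0, fun N hN x hx1 hx2 => ?_⟩
  obtain ⟨h1, -, h3, h4, -, -, -, h8⟩ := hN0 N hN
  have hT0 : T0 ≤ TT k N := (le_max_left _ _).trans h1
  have hT1 : 1 ≤ TT k N := (le_max_right _ _).trans h1
  by_contra hno
  push Not at hno
  obtain ⟨v, hv, hv1⟩ := hno x le_rfl (by linarith)
  obtain ⟨v', hv', hv1'⟩ := hno (x + al c k N / 2) (by linarith) (by linarith)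
  rw [abs_lt] at hv1 hv1'
  have h9 := hG.2 (TT k N) hT0 v v' (by linarith [hv1.1, hv1.2]) (by linarith [hv1.1, hv1'.2])
    (by linarith [hv1'.1]) hv hv'
  rw [← h8] at h9
  linarith [hv1.1, hv1.2, hv1'.1, hv1'.2]

theorem differentiable_ABW (N : ℕ) (T D : ℝ) :
    Differentiable ℂ fun s : ℂ => Asum N s * Bsum N s * Wt T D s := by
  have h1 : Differentiable ℂ (Asum N) := by
    unfold Asum
    refine Differentiable.fun_sum fun n hn => ?_
    have hn0 : (n : ℂ) ≠ 0 := by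
      have := (Finset.mem_Icc.1 hn).1
      exact_mod_cast (by omega : n ≠ 0)
    exact (differentiable_const _).mul (differentiable_neg.const_cpow (Or.inl hn0))
  have h2 : Differentiable ℂ (Bsum N) := by
    unfold Bsum
    refine Differentiable.fun_sum fun n hn => ?_
    have hn0 : (n : ℂ) ≠ 0 := by
      have := (Finset.mem_Icc.1 hn).1
      exact_mod_cast (by omega : n ≠ 0)
    exact (differentiable_const _).mul ((differentiable_id.sub_const 1).const_cpow (Or.inl hn0))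
  have h3 : Differentiable ℂ (Wt T D) := by
    unfold Wt
    exact ((((differentiable_id.sub_const _).sub_const _).pow 2).div_const _).cexp
  exact (h1.mul h2).mul h3

theorem diff_FF (hRH : RiemannHypothesis) (c k : ℝ) (N : ℕ) (hα : 0 < al c k N) (s : ℂ)
    (hs : 1 / 2 < s.re) (hs2 : 0 < s.im) : DifferentiableAt ℂ (FF c k N) s := by
  have hne : ∀ z : ℂ, 0 < z.im → z ≠ 0 ∧ z ≠ 1 := by
    intro z hz
    constructor
    · rintro rfl
      simp at hz
    · rintro rfl
      simp at hz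
  have hre : (s + I * (al c k N : ℂ)).re = s.re := by simp
  have him : (s + I * (al c k N : ℂ)).im = s.im + al c k N := by simp
  have hz := hne (s + I * (al c k N : ℂ)) (by rw [him]; linarith)
  have hs0 := hne s hs2
  have hL : completedRiemannZeta (s + I * (al c k N : ℂ)) ≠ 0 := by
    intro h
    have h1 := hRH _ (pk_zeta _ hz.1 h) (by
      rintro ⟨n, hn⟩
      have := congrArg re hn
      rw [hre] at this
      simp at this
      have h0 : (0 : ℝ) ≤ n := Nat.cast_nonneg n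
      linarith) hz.2
    rw [hre] at h1
    linarith
  have h1 : DifferentiableAt ℂ (Gr (al c k N)) s := by
    unfold Gr
    refine (differentiableAt_completedZeta hs0.1 hs0.2).div ?_ hL
    have h2 : DifferentiableAt ℂ (fun s : ℂ => s + I * (al c k N : ℂ)) s :=
      (differentiable_id.add_const _).differentiableAt
    exact DifferentiableAt.comp (g := completedRiemannZeta) s
      (differentiableAt_completedZeta hz.1 hz.2) h2
  exact h1.mul (differentiable_ABW N _ _).differentiableAt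

private theorem pk_bsum (N : ℕ) (t : ℝ) :
    Bsum N (1 / 2 + I * t) = (starRingEnd ℂ) (Asum N (1 / 2 + I * t)) := by
  unfold Bsum Asum
  rw [map_sum]
  refine Finset.sum_congr rfl fun n hn => ?_
  have harg : (n : ℂ).arg ≠ Real.pi := by
    rw [natCast_arg]
    exact Real.pi_ne_zero.symm
  have h1 : (1 / 2 + I * t - 1 : ℂ) = (starRingEnd ℂ) (-(1 / 2 + I * t)) := by
    apply Complex.ext
    · simp
      norm_num
    · simp
  rw [map_mul, h1, cpow_conj _ _ harg]
  simp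

theorem line_real (N : ℕ) (T D : ℝ) (t : ℝ) :
    (Asum N (1 / 2 + I * t) * Bsum N (1 / 2 + I * t) * Wt T D (1 / 2 + I * t)).im = 0 ∧
    0 ≤ (Asum N (1 / 2 + I * t) * Bsum N (1 / 2 + I * t) * Wt T D (1 / 2 + I * t)).re := by
  have h1 : Wt T D (1 / 2 + I * t) = ((Real.exp (-((t - T) ^ 2 / D ^ 2)) : ℝ) : ℂ) := by
    unfold Wt
    rw [ofReal_exp]
    congr 1
    have : (1 / 2 + I * t - 1 / 2 - I * T : ℂ) = I * (t - T) := by ring
    rw [this, mul_pow, I_sq]
    push_cast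
    ring
  have h2 : Asum N (1 / 2 + I * t) * Bsum N (1 / 2 + I * t) * Wt T D (1 / 2 + I * t) =
      ((normSq (Asum N (1 / 2 + I * t)) * Real.exp (-((t - T) ^ 2 / D ^ 2)) : ℝ) : ℂ) := by
    rw [pk_bsum, mul_conj, h1, ofReal_mul]
  rw [h2]
  refine ⟨ofReal_im _, ?_⟩
  rw [ofReal_re]
  exact mul_nonneg (normSq_nonneg _) (Real.exp_pos _).le

theorem zeros_good (c k T0 : ℝ) (hc : 1 / 2 < c) (hc1 : c < 1) (hk : 0 < k) (hk1 : k ≤ 1)
    (hG : Good c T0) : ∃ N0 : ℕ, ∀ N : ℕ, N0 ≤ N → ∀ t : ℝ, TT k N / 2 ≤ t → t ≤ 2 * TT k N →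
      completedRiemannZeta (1 / 2 + I * ((t + al c k N : ℝ) : ℂ)) = 0 →
      deriv completedRiemannZeta (1 / 2 + I * ((t + al c k N : ℝ) : ℂ)) ≠ 0 ∧
        ∀ u : ℝ, t < u → u < t + al c k N → completedRiemannZeta (1 / 2 + I * u) ≠ 0 := by
  obtain ⟨N0, hN0⟩ := params c k hc hc1 hk hk1 (max (2 * T0) 1)
  refine ⟨N0, fun N hN t ht1 ht2 h0 => ?_⟩
  obtain ⟨h1, -, h3, h4, -, -, -, h8⟩ := hN0 N hN
  have hT0 : 2 * T0 ≤ TT k N := (le_max_left _ _).trans h1
  have hT1 : 1 ≤ TT k N := (le_max_right _ _).trans h1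
  set z : ℂ := 1 / 2 + I * ((t + al c k N : ℝ) : ℂ) with hz
  have hz0 := pk_ne (t + al c k N)
  have hzeta : riemannZeta z = 0 := pk_zeta z hz0.1 h0
  constructor
  · intro hd
    refine hG.1 (t + al c k N) (by linarith) hzeta ?_
    have e1 : HasDerivAt completedRiemannZeta (0 : ℂ) z := by
      rw [← hd]
      exact (differentiableAt_completedZeta hz0.1 hz0.2).hasDerivAt
    have e2 : HasDerivAt (fun s : ℂ => (Gammaℝ s)⁻¹) (deriv (fun s : ℂ => (Gammaℝ s)⁻¹) z) z :=
      differentiable_Gammaℝ_inv.differentiableAt.hasDerivAt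
    have e3 := e1.mul e2
    rw [h0, zero_mul, zero_mul, add_zero] at e3
    have e4 : riemannZeta =ᶠ[nhds z]
        (completedRiemannZeta * fun s : ℂ => (Gammaℝ s)⁻¹) := by
      filter_upwards [isOpen_ne.mem_nhds hz0.1] with w hw
      rw [riemannZeta_def_of_ne_zero hw, Pi.mul_apply, div_eq_mul_inv]
    exact (e3.congr_of_eventuallyEq e4).deriv
  · intro u hu1 hu2 hu
    have hu0 := pk_zeta _ (pk_ne u).1 hu
    have h9 := hG.2 (TT k N) (by linarith) u (t + al c k N) (by linarith) hu2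
      (by linarith) hu0 hzeta
    rw [← h8] at h9
    linarith

theorem mass (k : ℝ) (N : ℕ) (t1 t2 : ℝ) (hD : 1 ≤ DD k N) (h1 : t1 ≤ TT k N)
    (h2 : TT k N + 1 ≤ t2) : 1 / 3 ≤ VV k N t1 t2 := by
  have hcont : Continuous fun t : ℝ => Real.exp (-((t - TT k N) ^ 2 / (DD k N) ^ 2)) := by
    fun_prop
  have hmono : ∫ t in (TT k N)..(TT k N + 1), Real.exp (-((t - TT k N) ^ 2 / (DD k N) ^ 2)) ≤
      VV k N t1 t2 := by
    unfold VV
    refine intervalIntegral.integral_mono_interval h1 (by linarith) h2 ?_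
      (hcont.intervalIntegrable _ _)
    exact Filter.Eventually.of_forall fun t => (Real.exp_pos _).le
  have hlow : ∫ _t in (TT k N)..(TT k N + 1), Real.exp (-1) ≤
      ∫ t in (TT k N)..(TT k N + 1), Real.exp (-((t - TT k N) ^ 2 / (DD k N) ^ 2)) := by
    refine intervalIntegral.integral_mono_on (by linarith) intervalIntegrable_const
      (hcont.intervalIntegrable _ _) fun t ht => ?_
    rw [Real.exp_le_exp, neg_le_neg_iff, div_le_one (by positivity)]
    have h3 : 0 ≤ t - TT k N := by linarith [ht.1]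
    have h4 : t - TT k N ≤ DD k N := by linarith [ht.2]
    exact pow_le_pow_left₀ h3 h4 2
  rw [intervalIntegral.integral_const, add_sub_cancel_left, one_smul] at hlow
  have hexp : (1 : ℝ) / 3 ≤ Real.exp (-1) := by
    rw [Real.exp_neg, one_div]
    refine inv_anti₀ (Real.exp_pos 1) ?_
    linarith [Real.exp_one_lt_d9]
  linarith

end H2.Gap
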