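import Mathlib

/-!
# [H2 GAP RECT] Cauchy on a rectangle and the limit to the critical line

PROOF. For `0 < d < 1/2` the Cauchy integral theorem on the rectangle `[1/2+d, 2] × [t1, t2]`
(`Complex.integral_boundary_rect_eq_zero_of_differentiableOn` with corners `1/2+d+it1`, `2+it2`)
gives `i ∫_{t1}^{t2} f(2+it) dt = i ∫_{t1}^{t2} f(1/2+d+it) dt - B + T`, with the horizontal
integrals `B = ∫_{1/2+d}^{2} f(u+it1) du`, `T = ∫_{1/2+d}^{2} f(u+it2) du`, `|B|, |T| ≤ (3/2) E`.
Take imaginary parts after dividing by `i`: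
`(∫ f(2+it) dt).im ≤ ∫ (f(1/2+d+it)).im dt + 3 E ≤ η (t2 - t1) + 3 E` for `d < d0(η)`
(the imaginary part of an interval integral is the integral of the imaginary part; the integrand is
continuous). Let `η → 0`.
-/

set_option autoImplicit false

namespace H2.Gap

open Complex

theorem rect_ineq (f : ℂ → ℂ) (t1 t2 E : ℝ) (h12 : t1 ≤ t2)
    (hf : ∀ s : ℂ, 1 / 2 < s.re → t1 ≤ s.im → s.im ≤ t2 → DifferentiableAt ℂ f s)
    (hedge : ∀ u : ℝ, 1 / 2 < u → u ≤ 2 → ‖f (u + I * t1)‖ ≤ E ∧ ‖f (u + I * t2)‖ ≤ E)
    (hsign : ∀ η : ℝ, 0 < η → ∃ d0 : ℝ, 0 < d0 ∧ ∀ d : ℝ, 0 < d → d < d0 →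
      ∀ t ∈ Set.Icc t1 t2, (f (1 / 2 + d + I * t)).im ≤ η) :
    (∫ t in t1..t2, f (2 + I * t)).im ≤ 3 * E := by
  have hE : 0 ≤ E := (norm_nonneg _).trans (hedge 1 (by norm_num) (by norm_num)).1
  -- reduce to eta
  have main : ∀ η : ℝ, 0 < η → (∫ t in t1..t2, f (2 + I * t)).im ≤ 3 * E + η * (t2 - t1) := by
    intro η hη
    obtain ⟨d0, hd0, hd⟩ := hsign η hη
    obtain ⟨d, hdpos, hdd0, hd1⟩ : ∃ d : ℝ, 0 < d ∧ d < d0 ∧ d < 1 := by
      refine ⟨min (d0 / 2) (1 / 2), by positivity, ?_, ?_⟩
      · exact (min_le_left _ _).trans_lt (by linarith)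
      · exact (min_le_right _ _).trans_lt (by norm_num)
    have hcauchy := Complex.integral_boundary_rect_eq_zero_of_differentiableOn f
      (((1 / 2 + d : ℝ) : ℂ) + t1 * I) (((2 : ℝ) : ℂ) + t2 * I) (by
        intro s hs
        apply DifferentiableAt.differentiableWithinAt
        rw [Complex.mem_reProdIm] at hs
        obtain ⟨h1, h2⟩ := hs
        simp only [add_re, ofReal_re, mul_re, I_re, mul_zero, ofReal_im, I_im, mul_one, sub_self,
          add_zero, add_im, mul_im, zero_add] at h1 h2
        rw [Set.uIcc_of_le (by linarith)] at h1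
        rw [Set.uIcc_of_le h12] at h2
        exact hf s (by linarith [h1.1]) h2.1 h2.2)
    simp only [add_re, ofReal_re, mul_re, I_re, mul_zero, ofReal_im, I_im, mul_one, sub_self,
          add_zero, add_im, mul_im, zero_add, smul_eq_mul] at hcauchy
    have hcontL : ContinuousOn (fun t : ℝ => f (((1 / 2 + d : ℝ) : ℂ) + t * I)) (Set.uIcc t1 t2) := by
      intro t ht
      rw [Set.uIcc_of_le h12] at ht
      apply ContinuousAt.continuousWithinAt
      have h1 : DifferentiableAt ℂ f (((1 / 2 + d : ℝ) : ℂ) + t * I) := by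
        apply hf
        · simp; linarith
        · simpa using ht.1
        · simpa using ht.2
      exact ContinuousAt.comp (f := fun t : ℝ => ((1 / 2 + d : ℝ) : ℂ) + t * I) h1.continuousAt
        (by fun_prop)
    set B := ∫ x in (1 / 2 + d)..2, f (x + t1 * I) with hB
    set T := ∫ x in (1 / 2 + d)..2, f (x + t2 * I) with hT
    set R := ∫ y in t1..t2, f (((2 : ℝ) : ℂ) + y * I) with hR
    set L := ∫ y in t1..t2, f (((1 / 2 + d : ℝ) : ℂ) + y * I) with hL
    have hBn : ‖B‖ ≤ E * |2 - (1 / 2 + d)| := by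
      apply intervalIntegral.norm_integral_le_of_norm_le_const
      intro x hx
      rw [Set.uIoc_of_le (by linarith)] at hx
      have := (hedge x (by linarith [hx.1]) hx.2).1
      rwa [mul_comm I] at this
    have hTn : ‖T‖ ≤ E * |2 - (1 / 2 + d)| := by
      apply intervalIntegral.norm_integral_le_of_norm_le_const
      intro x hx
      rw [Set.uIoc_of_le (by linarith)] at hx
      have := (hedge x (by linarith [hx.1]) hx.2).2
      rwa [mul_comm I] at this
    rw [abs_of_nonneg (by linarith)] at hBn hTn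
    have hBre := (abs_le.1 (Complex.abs_re_le_norm B)).2
    have hTre := (abs_le.1 (Complex.abs_re_le_norm T)).1
    have hLim : L.im ≤ η * (t2 - t1) := by
      have hint : IntervalIntegrable (fun t : ℝ => f (((1 / 2 + d : ℝ) : ℂ) + t * I))
          MeasureTheory.volume t1 t2 := hcontL.intervalIntegrable
      have e : L.im = ∫ t in t1..t2, (f (((1 / 2 + d : ℝ) : ℂ) + t * I)).im := by
        have := Complex.imCLM.intervalIntegral_comp_comm hint
        simp only [Complex.imCLM_apply] at this
        rw [this]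
      rw [e]
      have hle : ∫ t in t1..t2, (f (((1 / 2 + d : ℝ) : ℂ) + t * I)).im ≤ ∫ t in t1..t2, η := by
        apply intervalIntegral.integral_mono_on h12
        · exact (Complex.continuous_im.comp_continuousOn hcontL).intervalIntegrable
        · exact intervalIntegrable_const
        · intro t ht
          have := hd d hdpos hdd0 t ht
          rw [mul_comm I] at this
          push_cast
          exact this
      rw [intervalIntegral.integral_const, smul_eq_mul] at hle
      linarith
    have hRim : R.im = L.im + (B.re - T.re) := by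
      have h1 := congrArg Complex.re hcauchy
      simp only [sub_re, add_re, mul_re, I_re, zero_mul, I_im, one_mul, zero_sub, zero_re] at h1
      linarith
    have e2 : (∫ t in t1..t2, f (2 + I * t)) = R := by
      rw [hR]
      congr 1
      ext t
      rw [mul_comm I]
      norm_num
    rw [e2, hRim]
    have hEE : E * (2 - (1 / 2 + d)) ≤ 3 / 2 * E := by nlinarith
    linarith
  -- let eta go to zero
  apply le_of_forall_pos_le_add
  intro ε hε
  have h0 : 0 ≤ t2 - t1 := by linarith
  have h1 := main (ε / (t2 - t1 + 1)) (by positivity)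
  have h2 : ε / (t2 - t1 + 1) * (t2 - t1) ≤ ε := by
    rw [div_mul_eq_mul_div, div_le_iff₀ (by linarith)]
    nlinarith
  linarith

end H2.Gap
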