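import Pool.Agent.H2.Gap.Defs
import Pool.Agent.H2.Gap.Conj

/-!
# [H2 GAP SIGN] the sign of the imaginary part near the critical line

PROOF. `L = completedRiemannZeta`, `X t = (L (1/2+it)).re`; `L (1/2+it) = X t` by `completed_line`.
`F s = Gr α s * Φ s`. Fix `η > 0`. It is enough to show: every `t* ∈ [t1,t2]` has `e > 0` such that
`(F (1/2+d+it)).im ≤ η` for all `0 < d < e`, `|t - t*| < e`; then use compactness of `[t1,t2]`
(`IsCompact.induction_on` or a finite subcover).
(a) `L (1/2+i(t*+α)) ≠ 0`: `F` is continuous at `s* = 1/2+it*` (`L` is differentiable at points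
`s ≠ 0, 1`: `differentiableAt_completedZeta`) and `F s*` is real: `(F s*).im = 0`.
(b) `L (1/2+i(t*+α)) = 0`. By `hz` the zero is simple. Let `Y s = L (s + iα)`, `Y s* = 0`,
`y = dslope Y s*`, continuous (even differentiable) near `s*`, `y s* = L'(1/2+i(t*+α)) ≠ 0`,
`Y s = (s - s*) y s`. So for `s ≠ s*` near `s*`: `F s = q s / (s - s*)` with
`q s = L s * Φ s / y s`, differentiable near `s*`.
On the line, `t ≠ t*` close: `F(1/2+it)` is real, so `q (1/2+it) = i (t-t*) F(1/2+it)` is in `iR`;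
by continuity also `q s* ∈ iR`: `q s* = i ρ`. Then `F s = i ρ/(s - s*) + h s`, `h = dslope q s*`
continuous near `s*`, and for `s = 1/2+it`, `t ≠ t*`, `h s = F s - ρ/(t-t*)` is real, hence `h s*`
is real, so `|Im h s| ≤ η` for `s` close to `s*`. For `s = 1/2+d+it`:
`Im(iρ/(s-s*)) = ρ Re(1/(s - s*)) = ρ d/|s-s*|^2 ≤ 0` if `ρ ≤ 0`.
SIGN of ρ: `y s* = L'(1/2+iγ)`, `γ = t*+α`; `X` is differentiable with
`X' γ = i L'(1/2+iγ)`, so `y s* = -i X'(γ)`, and `q s* = X(t*) Φ(s*) / (-i X'(γ))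
= i X(t*) Φ(s*)/X'(γ)`, so `ρ = X(t*) Φ(s*)/X'(γ)`, `Φ(s*) ≥ 0`, `X'(γ) ≠ 0`, `X γ = 0`. By `hz` `X`
has no zero in `(t*, γ)`. If `X'(γ) > 0` then `X < 0` just to the left of `γ`, hence on `(t*,γ)`
(intermediate value theorem), hence `X(t*) ≤ 0` by continuity; if `X'(γ) < 0` then `X(t*) ≥ 0`.
So `ρ ≤ 0`.
-/

set_option autoImplicit false

namespace H2.Gap

open Complex

open Filter Topology Metric

theorem sg_im (z : ℂ) (h : z.im = 0) : z = (z.re : ℂ) := Complex.ext (by simp) (by simpa using h)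

/-- sign rule for a real function -/
theorem sg_pos {X : ℝ → ℝ} {a g m : ℝ} (hag : a < g) (hX : ContinuousOn X (Set.Icc a g))
    (hd : HasDerivAt X m g) (hm : 0 < m) (hg : X g = 0)
    (hne : ∀ u, a < u → u < g → X u ≠ 0) : X a ≤ 0 := by
  by_contra h
  push Not at h
  have h1 : Tendsto (slope X g) (𝓝[≠] g) (𝓝 m) := hasDerivAt_iff_tendsto_slope.1 hd
  have h2 : ∀ᶠ u in 𝓝[<] g, 0 < slope X g u :=
    (h1.mono_left (nhdsWithin_mono _ (fun u hu => ne_of_lt hu))).eventually (lt_mem_nhds hm)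
  have h3 : ∀ᶠ u in 𝓝[<] g, u ∈ Set.Ioo a g := Ioo_mem_nhdsLT hag
  obtain ⟨u, hu1, hu2, hu3⟩ := (h2.and h3).exists
  have h4 : X u < 0 := by
    rw [slope_def_field, hg, sub_zero] at hu1
    by_contra h5
    push Not at h5
    have h6 : X u / (u - g) ≤ 0 := div_nonpos_of_nonneg_of_nonpos h5 (by linarith)
    linarith
  have h5 : Set.Icc (X u) (X a) ⊆ X '' Set.Icc a u :=
    intermediate_value_Icc' hu2.le (hX.mono (Set.Icc_subset_Icc_right hu3.le))
  obtain ⟨v, hv1, hv2⟩ := h5 ⟨h4.le, h.le⟩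
  have h6 : v ≠ a := by
    rintro rfl
    linarith
  have h7 : v ≠ u := by
    rintro rfl
    linarith
  exact hne v (lt_of_le_of_ne hv1.1 (Ne.symm h6))
    ((lt_of_le_of_ne hv1.2 h7).trans hu3) hv2

theorem sg_div {X : ℝ → ℝ} {a g m : ℝ} (hag : a < g) (hX : ContinuousOn X (Set.Icc a g))
    (hd : HasDerivAt X m g) (hm : m ≠ 0) (hg : X g = 0)
    (hne : ∀ u, a < u → u < g → X u ≠ 0) : X a / m ≤ 0 := by
  rcases lt_or_gt_of_ne hm with h | h
  · have h1 := sg_pos (X := fun u => - X u) hag hX.neg hd.neg (by linarith) (by rw [hg, neg_zero])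
      (fun u hu1 hu2 => neg_ne_zero.2 (hne u hu1 hu2))
    exact div_nonpos_of_nonneg_of_nonpos (by linarith) h.le
  · exact div_nonpos_of_nonpos_of_nonneg (sg_pos hag hX hd h hg hne) h.le

/-- regular point -/
theorem sg_reg {F : ℂ → ℂ} {t0 : ℝ} (hF : ContinuousAt F (1 / 2 + I * t0))
    (h0 : (F (1 / 2 + I * t0)).im = 0) {η : ℝ} (hη : 0 < η) :
    ∃ e : ℝ, 0 < e ∧ ∀ d : ℝ, 0 < d → d < e → ∀ t : ℝ, |t - t0| < e →
      (F (1 / 2 + d + I * t)).im ≤ η := by
  obtain ⟨δ, hδ, h1⟩ := Metric.continuousAt_iff.1 hF η hη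
  refine ⟨δ / 2, by positivity, ?_⟩
  intro d hd hdδ t ht
  have h2 : dist (1 / 2 + d + I * t : ℂ) (1 / 2 + I * t0) < δ := by
    rw [dist_eq_norm]
    have h3 : (1 / 2 + d + I * t : ℂ) - (1 / 2 + I * t0) = (d : ℂ) + I * ((t - t0 : ℝ) : ℂ) := by
      push_cast
      ring
    rw [h3]
    refine (norm_add_le _ _).trans_lt ?_
    rw [norm_mul, Complex.norm_I, one_mul, Complex.norm_real, Complex.norm_real,
      Real.norm_of_nonneg hd.le, Real.norm_eq_abs]
    linarith
  have h3 := h1 h2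
  rw [dist_eq_norm] at h3
  have h4 := (Complex.abs_im_le_norm (F (1 / 2 + d + I * t) - F (1 / 2 + I * t0)))
  rw [Complex.sub_im, h0, sub_zero] at h4
  exact (le_abs_self _).trans (h4.trans h3.le)

/-- simple pole -/
theorem sg_pole {Nf Y : ℂ → ℂ} {t0 r : ℝ} (hr : 0 < r)
    (hN : DifferentiableOn ℂ Nf (ball (1 / 2 + I * t0) r))
    (hY : DifferentiableOn ℂ Y (ball (1 / 2 + I * t0) r))
    (hY0 : Y (1 / 2 + I * t0) = 0) (hY1 : deriv Y (1 / 2 + I * t0) ≠ 0)
    (hreal : ∀ t : ℝ, (Nf (1 / 2 + I * t)).im = 0 ∧ (Y (1 / 2 + I * t)).im = 0)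
    {ρ : ℝ} (hρ : ρ ≤ 0) (hq : Nf (1 / 2 + I * t0) / deriv Y (1 / 2 + I * t0) = I * ρ)
    {η : ℝ} (hη : 0 < η) :
    ∃ e : ℝ, 0 < e ∧ ∀ d : ℝ, 0 < d → d < e → ∀ t : ℝ, |t - t0| < e →
      (Nf (1 / 2 + d + I * t) / Y (1 / 2 + d + I * t)).im ≤ η := by
  set s0 : ℂ := 1 / 2 + I * t0 with hs0
  have hb : ball s0 r ∈ 𝓝 s0 := ball_mem_nhds s0 hr
  set y : ℂ → ℂ := dslope Y s0 with hy
  have hyd : DifferentiableOn ℂ y (ball s0 r) := (Complex.differentiableOn_dslope hb).2 hY
  have hy0 : y s0 = deriv Y s0 := dslope_same Y s0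
  set q : ℂ → ℂ := fun s => Nf s / y s with hqd
  have hqdiff : DifferentiableAt ℂ q s0 :=
    (hN.differentiableAt hb).div (hyd.differentiableAt hb) (by rw [hy0]; exact hY1)
  set h : ℂ → ℂ := dslope q s0 with hh
  have hhc : ContinuousAt h s0 := continuousAt_dslope_same.2 hqdiff
  have hq0 : q s0 = I * ρ := by
    rw [hqd]
    simp only [hy0]
    exact hq
  -- h is real on the line
  have hline : ∀ t : ℝ, t ≠ t0 → (h (1 / 2 + I * t)).im = 0 := by
    intro t ht
    have hτ : (t : ℂ) - t0 ≠ 0 := by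
      rw [← Complex.ofReal_sub]
      exact_mod_cast sub_ne_zero.2 ht
    have hs : (1 / 2 + I * t : ℂ) - s0 = I * (t - t0) := by
      rw [hs0]; ring
    have hne : (1 / 2 + I * t : ℂ) ≠ s0 := by
      rw [← sub_ne_zero, hs]
      exact mul_ne_zero I_ne_zero hτ
    obtain ⟨n, hn⟩ : ∃ n : ℝ, Nf (1 / 2 + I * t) = n := ⟨_, sg_im _ (hreal t).1⟩
    obtain ⟨x, hx⟩ : ∃ x : ℝ, Y (1 / 2 + I * t) = x := ⟨_, sg_im _ (hreal t).2⟩
    have h1 : y (1 / 2 + I * t) = x / (I * (t - t0)) := by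
      rw [hy, dslope_of_ne _ hne, slope_def_field, hY0, hx, sub_zero, hs]
    have h2 : h (1 / 2 + I * t) = ((n / x - ρ / (t - t0) : ℝ) : ℂ) := by
      rw [hh, dslope_of_ne _ hne, slope_def_field, hs, hq0, hqd]
      simp only [hn, h1]
      push_cast
      rcases eq_or_ne x 0 with h0 | h0
      · rw [h0]
        simp only [Complex.ofReal_zero, zero_div, div_zero, zero_sub]
        field_simp
      · have hx0 : (x : ℂ) ≠ 0 := by exact_mod_cast h0
        have hI := I_ne_zero
        field_simp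
    rw [h2, Complex.ofReal_im]
  have hh0 : (h s0).im = 0 := by
    have h1 : Tendsto (fun t : ℝ => (1 / 2 + I * t : ℂ)) (𝓝[≠] t0) (𝓝 s0) := by
      have : ContinuousAt (fun t : ℝ => (1 / 2 + I * t : ℂ)) t0 := by fun_prop
      exact this.tendsto.mono_left nhdsWithin_le_nhds
    have h2 : Tendsto (fun t : ℝ => (h (1 / 2 + I * t)).im) (𝓝[≠] t0) (𝓝 (h s0).im) :=
      (Complex.continuous_im.continuousAt.tendsto.comp (hhc.tendsto.comp h1))
    have h3 : Tendsto (fun t : ℝ => (h (1 / 2 + I * t)).im) (𝓝[≠] t0) (𝓝 0) := by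
      apply tendsto_const_nhds.congr'
      filter_upwards [self_mem_nhdsWithin] with t ht
      exact (hline t ht).symm
    exact tendsto_nhds_unique h2 h3
  obtain ⟨e, he, hreg⟩ := sg_reg (F := h) (t0 := t0) hhc hh0 hη
  refine ⟨e, he, ?_⟩
  intro d hd hde t ht
  have h1 := hreg d hd hde t ht
  set s : ℂ := 1 / 2 + d + I * t with hsdef
  have hre : (s - s0).re = d := by
    rw [hsdef, hs0]
    simp
  have hne : s ≠ s0 := by
    intro h2
    rw [h2, sub_self, Complex.zero_re] at hre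
    linarith
  have hsub : s - s0 ≠ 0 := sub_ne_zero.2 hne
  have h2 : Y s = (s - s0) * y s := by
    have := sub_smul_dslope Y s0 s
    rw [hY0, sub_zero, smul_eq_mul] at this
    exact this.symm
  have h3 : q s = I * ρ + (s - s0) * h s := by
    have := sub_smul_dslope q s0 s
    rw [hq0, smul_eq_mul] at this
    rw [hh, this]
    ring
  have h4 : Nf s / Y s = I * ρ / (s - s0) + h s := by
    have h5 : Nf s / Y s = q s / (s - s0) := by
      rw [h2, hqd]
      simp only
      rw [div_div, mul_comm (s - s0)]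
    rw [h5, h3]
    field_simp
  rw [h4, Complex.add_im]
  have h5 : (I * ρ / (s - s0)).im ≤ 0 := by
    rw [Complex.div_im, hre]
    simp only [Complex.mul_im, Complex.I_re, Complex.ofReal_im, Complex.I_im, Complex.ofReal_re,
      Complex.mul_re, zero_mul, one_mul, mul_zero, sub_zero, zero_add, zero_div]
    apply div_nonpos_of_nonpos_of_nonneg
    · nlinarith
    · exact Complex.normSq_nonneg _
  linarith

theorem sign_line (α t1 t2 : ℝ) (hα : 0 < α) (ht1 : 0 < t1) (Φ : ℂ → ℂ)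
    (hΦ : Differentiable ℂ Φ)
    (hreal : ∀ t : ℝ, (Φ (1 / 2 + I * t)).im = 0 ∧ 0 ≤ (Φ (1 / 2 + I * t)).re)
    (hz : ∀ t ∈ Set.Icc t1 t2, completedRiemannZeta (1 / 2 + I * ((t + α : ℝ) : ℂ)) = 0 →
      deriv completedRiemannZeta (1 / 2 + I * ((t + α : ℝ) : ℂ)) ≠ 0 ∧
        ∀ u : ℝ, t < u → u < t + α → completedRiemannZeta (1 / 2 + I * u) ≠ 0)
    (η : ℝ) (hη : 0 < η) :
    ∃ d0 : ℝ, 0 < d0 ∧ ∀ d : ℝ, 0 < d → d < d0 → ∀ t ∈ Set.Icc t1 t2,
      (Gr α (1 / 2 + d + I * t) * Φ (1 / 2 + d + I * t)).im ≤ η := by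
  set L : ℂ → ℂ := completedRiemannZeta with hL
  have hLd : ∀ s : ℂ, 0 < s.im → DifferentiableAt ℂ L s := by
    intro s hs
    apply differentiableAt_completedZeta
    · rintro rfl; simp at hs
    · rintro rfl; simp at hs
  have hF : ∀ s : ℂ, Gr α s * Φ s = (L s * Φ s) / L (s + I * α) := by
    intro s
    unfold Gr
    rw [div_mul_eq_mul_div]
  have hloc : ∀ t0 ∈ Set.Icc t1 t2, ∃ e : ℝ, 0 < e ∧ ∀ d : ℝ, 0 < d → d < e → ∀ t : ℝ,
      |t - t0| < e → (Gr α (1 / 2 + d + I * t) * Φ (1 / 2 + d + I * t)).im ≤ η := by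
    intro t0 ht0
    have ht0p : 0 < t0 := ht1.trans_le ht0.1
    have him : (1 / 2 + I * t0 : ℂ).im = t0 := by simp
    have hsh : ∀ t : ℝ, (1 / 2 + I * t : ℂ) + I * α = 1 / 2 + I * ((t + α : ℝ) : ℂ) := by
      intro t
      push_cast
      ring
    have hNreal : ∀ t : ℝ, (L (1 / 2 + I * t) * Φ (1 / 2 + I * t)).im = 0 := by
      intro t
      rw [Complex.mul_im, (hreal t).1, completed_line t]
      ring
    have hYreal : ∀ t : ℝ, (L (1 / 2 + I * t + I * α)).im = 0 := by
      intro t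
      rw [hsh]
      exact completed_line _
    by_cases h0 : L (1 / 2 + I * ((t0 + α : ℝ) : ℂ)) = 0
    · -- the pole
      obtain ⟨h1, h2⟩ := hz t0 ht0 h0
      have hNd : DifferentiableOn ℂ (fun s => L s * Φ s) (ball (1 / 2 + I * t0) t0) := by
        intro s hs
        apply DifferentiableAt.differentiableWithinAt
        refine (hLd s ?_).mul (hΦ s)
        rw [mem_ball, dist_eq_norm] at hs
        have h3 := (Complex.abs_im_le_norm (s - (1 / 2 + I * t0))).trans_lt hs
        rw [Complex.sub_im, him, abs_lt] at h3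
        linarith
      have hYd : DifferentiableOn ℂ (fun s => L (s + I * α)) (ball (1 / 2 + I * t0) t0) := by
        intro s hs
        apply DifferentiableAt.differentiableWithinAt
        have h4 : 0 < (s + I * α).im := by
          rw [mem_ball, dist_eq_norm] at hs
          have h3 := (Complex.abs_im_le_norm (s - (1 / 2 + I * t0))).trans_lt hs
          rw [Complex.sub_im, him, abs_lt] at h3
          simp
          linarith
        exact (hLd _ h4).comp s (by fun_prop : DifferentiableAt ℂ (fun s => s + I * α) s)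
      have hYder : deriv (fun s => L (s + I * α)) (1 / 2 + I * t0) =
          deriv L (1 / 2 + I * ((t0 + α : ℝ) : ℂ)) := by
        rw [deriv_comp_add_const, hsh]
      -- the real function
      set X : ℝ → ℝ := fun t => (L (1 / 2 + I * t)).re with hX
      have hXL : ∀ t : ℝ, L (1 / 2 + I * t) = X t := fun t => sg_im _ (completed_line t)
      have hXd : ∀ t : ℝ, 0 < t → HasDerivAt X (I * deriv L (1 / 2 + I * t)).re t ∧
          (I * deriv L (1 / 2 + I * t)).im = 0 := by
        intro t ht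
        have h3 : HasDerivAt L (deriv L (1 / 2 + I * t)) (1 / 2 + I * t) :=
          (hLd _ (by simpa using ht)).hasDerivAt
        have h4 : HasDerivAt (fun u : ℂ => 1 / 2 + I * u) I (t : ℂ) := by
          simpa using ((hasDerivAt_id (t : ℂ)).const_mul I).const_add (1 / 2)
        have h5 : HasDerivAt (fun u : ℂ => L (1 / 2 + I * u)) (deriv L (1 / 2 + I * t) * I)
            (t : ℂ) := HasDerivAt.comp (t : ℂ) h3 h4
        have h6 := h5.comp_ofReal
        rw [mul_comm] at h6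
        have h7 : HasDerivAt X (I * deriv L (1 / 2 + I * t)).re t :=
          (Complex.reCLM.hasFDerivAt.comp_hasDerivAt t h6)
        refine ⟨h7, ?_⟩
        have h8 : HasDerivAt (fun u : ℝ => (L (1 / 2 + I * u)).im)
            (I * deriv L (1 / 2 + I * t)).im t :=
          (Complex.imCLM.hasFDerivAt.comp_hasDerivAt t h6)
        have h9 : (fun u : ℝ => (L (1 / 2 + I * u)).im) = fun _ => 0 := by
          funext u
          exact completed_line u
        rw [h9] at h8
        exact h8.unique (hasDerivAt_const t (0 : ℝ))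
      obtain ⟨hd1, hd2⟩ := hXd (t0 + α) (by linarith)
      set m : ℝ := (I * deriv L (1 / 2 + I * ((t0 + α : ℝ) : ℂ))).re with hm
      have hmL : I * deriv L (1 / 2 + I * ((t0 + α : ℝ) : ℂ)) = m := sg_im _ hd2
      have hm0 : m ≠ 0 := by
        intro h3
        rw [h3, Complex.ofReal_zero] at hmL
        rcases mul_eq_zero.1 hmL with h4 | h4
        · exact I_ne_zero h4
        · exact h1 h4
      have hXg : X (t0 + α) = 0 := by
        rw [hX]
        simp only
        rw [h0, Complex.zero_re]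
      have hXc : ContinuousOn X (Set.Icc t0 (t0 + α)) := fun t ht =>
        (hXd t (ht0p.trans_le ht.1)).1.continuousAt.continuousWithinAt
      have hXne : ∀ u, t0 < u → u < t0 + α → X u ≠ 0 := by
        intro u hu1 hu2 hu3
        apply h2 u hu1 hu2
        rw [hXL, hu3, Complex.ofReal_zero]
      have hsign := sg_div (by linarith) hXc hd1 hm0 hXg hXne
      set φ : ℝ := (Φ (1 / 2 + I * t0)).re with hφ
      have hφ0 : 0 ≤ φ := (hreal t0).2
      have hφe : Φ (1 / 2 + I * t0) = φ := sg_im _ (hreal t0).1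
      have hq : (fun s => L s * Φ s) (1 / 2 + I * t0) /
          deriv (fun s => L (s + I * α)) (1 / 2 + I * t0) =
          I * ((X t0 / m * φ : ℝ) : ℂ) := by
        rw [hYder]
        simp only
        rw [hXL, hφe]
        have h3 : deriv L (1 / 2 + I * ((t0 + α : ℝ) : ℂ)) = m / I := by
          rw [← hmL]
          field_simp
        rw [h3]
        have hmC : (m : ℂ) ≠ 0 := by exact_mod_cast hm0
        push_cast
        field_simp
      obtain ⟨e, he, h3⟩ := sg_pole (Nf := fun s => L s * Φ s) (Y := fun s => L (s + I * α))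
        (t0 := t0) ht0p hNd hYd (by rw [hsh]; exact h0)
        (by rw [hYder]; exact h1) (fun t => ⟨hNreal t, hYreal t⟩)
        (mul_nonpos_of_nonpos_of_nonneg hsign hφ0) hq hη
      refine ⟨e, he, fun d hd hde t ht => ?_⟩
      rw [hF]
      exact h3 d hd hde t ht
    · -- regular
      have h1 : ContinuousAt (fun s => Gr α s * Φ s) (1 / 2 + I * t0) := by
        have h2 : (fun s => Gr α s * Φ s) = fun s => (L s * Φ s) / L (s + I * α) := by
          funext s; exact hF s
        rw [h2]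
        apply ContinuousAt.div
        · exact (hLd _ (by rw [him]; exact ht0p)).continuousAt.mul (hΦ _).continuousAt
        · have h4 : 0 < ((1 / 2 + I * t0 : ℂ) + I * α).im := by
            simp
            linarith
          exact ContinuousAt.comp (f := fun s : ℂ => s + I * α) (g := L)
            (hLd _ h4).continuousAt (by fun_prop)
        · rw [hsh]
          exact h0
      obtain ⟨e, he, h3⟩ := sg_reg (F := fun s => Gr α s * Φ s) (t0 := t0) h1 (by
        rw [hF, sg_im _ (hNreal t0), sg_im _ (hYreal t0), ← Complex.ofReal_div]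
        exact Complex.ofReal_im _) hη
      exact ⟨e, he, h3⟩
  -- compactness
  have hcomp := (isCompact_Icc (a := t1) (b := t2)).induction_on
    (p := fun S => ∃ d0 : ℝ, 0 < d0 ∧ ∀ d : ℝ, 0 < d → d < d0 → ∀ t ∈ S,
      (Gr α (1 / 2 + d + I * t) * Φ (1 / 2 + d + I * t)).im ≤ η)
    ⟨1, one_pos, fun d _ _ t ht => absurd ht (Set.notMem_empty t)⟩
    (fun S S' hSS ⟨d0, h1, h2⟩ => ⟨d0, h1, fun d hd hd1 t ht => h2 d hd hd1 t (hSS ht)⟩)
    (fun S S' ⟨d0, h1, h2⟩ ⟨d0', h1', h2'⟩ => ⟨min d0 d0', lt_min h1 h1', fun d hd hd1 t ht => by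
      rcases ht with ht | ht
      · exact h2 d hd (hd1.trans_le (min_le_left _ _)) t ht
      · exact h2' d hd (hd1.trans_le (min_le_right _ _)) t ht⟩)
    (fun t0 ht0 => by
      obtain ⟨e, he, h1⟩ := hloc t0 ht0
      refine ⟨ball t0 e, mem_nhdsWithin_of_mem_nhds (ball_mem_nhds t0 he), e, he,
        fun d hd hde t ht => h1 d hd hde t ?_⟩
      rwa [mem_ball, Real.dist_eq] at ht)
  exact hcomp

end H2.Gap
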