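import Mathlib

/-!
# [H2 GAP SUMSQ] the decisive sum over squarefree numbers is negative

PROOF. Let `F(u) = sin(2πc u + πc)`, `θ = 1/(1+k)`; the sum is
`S = ∑_{n≤N} μ(n)^2/n F(θ log n/log N)`. `μ(n)^2 = ∑_{d^2 | n} μ(d)` (in Mathlib:
`ArithmeticFunction.sum_moebius_sq`-type lemma or prove it from `Nat.sq_mul_squarefree`; `μ(n)^2 = 1`
iff squarefree). So `S = ∑_{d ≤ √N} μ(d)/d^2 ∑_{m ≤ N/d^2} (1/m) F(θ (log m + 2 log d)/log N)`.
Inner sum: for `φ` with `|φ| ≤ 1`, `|φ'| ≤ K/log N`, `∑_{m≤x} φ(log m)/m = ∫_0^{log x} φ + O(K+2)`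
(compare term by term with `∫_{log m}^{log(m+1)}`: `|1/m - log((m+1)/m)| ≤ 1/m^2` and
`φ` varies by at most `K/(m log N)`, total `O(1)`). So the inner sum is
`∫_{2 log d}^{log N} F(θ v/log N) dv + O(1) = log N ∫_0^1 F(θ v) dv + O(1 + log d)`, and
`S = (∑_{d≤√N} μ(d)/d^2) log N ∫_0^1 F(θ v) dv + O(∑ (1+log d)/d^2)`, where
`∑_{d≤√N} μ(d)/d^2 ≥ 1 - ∑_{d≥2} 1/d^2 = 2 - π^2/6 ≥ 1/4` (`hasSum_zeta_two`).
`∫_0^1 F(θ v) dv = (cos(πc) - cos(πc + 2πcθ))/(2πcθ)`; at `k = 0` it equals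
`(cos(πc) - cos(3πc))/(2πc) = 2 sin(2πc) sin(πc)/(2πc) < 0` for `1/2 < c < 1`, so it is negative
for small `k > 0` by continuity; `κ = -(1/8) ∫_0^1 F(θ v) dv` works.
-/

set_option autoImplicit false

namespace H2.Gap

private theorem ss_dvd {d b a : ℕ} (hb : 0 < b) (ha : Squarefree a) (h : d ^ 2 ∣ b ^ 2 * a) :
    d ∣ b := by
  obtain ⟨d', b', hc, hd, hb'⟩ := Nat.exists_coprime d b
  have hg : 0 < Nat.gcd d b := Nat.gcd_pos_of_pos_right d hb
  have h1 : d' ^ 2 * (Nat.gcd d b) ^ 2 ∣ (b' ^ 2 * a) * (Nat.gcd d b) ^ 2 := by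
    have h2 : d ^ 2 = d' ^ 2 * (Nat.gcd d b) ^ 2 := by
      conv_lhs => rw [hd]
      rw [mul_pow]
    have h3 : b ^ 2 * a = (b' ^ 2 * a) * (Nat.gcd d b) ^ 2 := by
      conv_lhs => rw [hb']
      ring
    rw [← h2, ← h3]
    exact h
  have h2 : d' ^ 2 ∣ b' ^ 2 * a := Nat.dvd_of_mul_dvd_mul_right (by positivity) h1
  have h3 : d' ^ 2 ∣ a := (Nat.Coprime.pow 2 2 hc).dvd_of_dvd_mul_left h2
  have h4 : IsUnit d' := ha d' (by rw [← sq]; exact h3)
  have h5 : d' = 1 := Nat.isUnit_iff.mp h4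
  rw [hd, h5, one_mul]
  exact Nat.gcd_dvd_right d b

private theorem ss_mu (n D : ℕ) (hn : 1 ≤ n) (hD : n < (D + 1) ^ 2) :
    (ArithmeticFunction.moebius n) ^ 2 =
      ∑ d ∈ (Finset.Icc 1 D).filter (fun d => d ^ 2 ∣ n), ArithmeticFunction.moebius d := by
  obtain ⟨a, b, ha, hb, hab, hsq⟩ := Nat.sq_mul_squarefree_of_pos hn
  have hset : (Finset.Icc 1 D).filter (fun d => d ^ 2 ∣ n) = b.divisors := by
    ext d
    rw [Finset.mem_filter, Finset.mem_Icc, Nat.mem_divisors]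
    constructor
    · rintro ⟨⟨h1, h2⟩, h3⟩
      rw [← hab] at h3
      exact ⟨ss_dvd hb hsq h3, by omega⟩
    · rintro ⟨h1, h2⟩
      have h3 : d ^ 2 ∣ n := by
        rw [← hab]
        exact Dvd.dvd.mul_right (pow_dvd_pow_of_dvd h1 2) a
      refine ⟨⟨Nat.pos_of_dvd_of_pos h1 hb, ?_⟩, h3⟩
      have h4 : d ^ 2 < (D + 1) ^ 2 := lt_of_le_of_lt (Nat.le_of_dvd hn h3) hD
      have h5 := lt_of_pow_lt_pow_left₀ 2 (by omega) h4
      omega
  rw [hset, ← ArithmeticFunction.coe_mul_zeta_apply, ArithmeticFunction.moebius_mul_coe_zeta,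
    ArithmeticFunction.moebius_sq, ArithmeticFunction.one_apply]
  by_cases h : b = 1
  · have h1 : Squarefree n := by
      rw [← hab, h, one_pow, one_mul]
      exact hsq
    rw [if_pos h, if_pos h1]
  · have h1 : ¬ Squarefree n := by
      intro h2
      refine h (Nat.isUnit_iff.mp (h2 b ?_))
      rw [← hab, ← sq]
      exact Dvd.intro a rfl
    rw [if_neg h, if_neg h1]

private theorem ss_swap (N D : ℕ) (hD : N < (D + 1) ^ 2) (g : ℕ → ℝ) :
    ∑ n ∈ Finset.Icc 1 N, ((ArithmeticFunction.moebius n : ℤ) : ℝ) ^ 2 * g n =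
      ∑ d ∈ Finset.Icc 1 D, ((ArithmeticFunction.moebius d : ℤ) : ℝ) *
        ∑ m ∈ Finset.Icc 1 (N / d ^ 2), g (d ^ 2 * m) := by
  have h1 : ∀ n ∈ Finset.Icc 1 N, ((ArithmeticFunction.moebius n : ℤ) : ℝ) ^ 2 * g n =
      ∑ d ∈ Finset.Icc 1 D, if d ^ 2 ∣ n then
        ((ArithmeticFunction.moebius d : ℤ) : ℝ) * g n else 0 := by
    intro n hn
    rw [Finset.mem_Icc] at hn
    have h2 := ss_mu n D hn.1 (lt_of_le_of_lt hn.2 hD)
    have h3 : ((ArithmeticFunction.moebius n : ℤ) : ℝ) ^ 2 =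
        ∑ d ∈ (Finset.Icc 1 D).filter (fun d => d ^ 2 ∣ n),
          ((ArithmeticFunction.moebius d : ℤ) : ℝ) := by
      exact_mod_cast congrArg (fun z : ℤ => (z : ℝ)) h2
    rw [h3, Finset.sum_mul, Finset.sum_filter]
  rw [Finset.sum_congr rfl h1, Finset.sum_comm]
  refine Finset.sum_congr rfl fun d hd => ?_
  rw [Finset.mem_Icc] at hd
  have hd2 : 0 < d ^ 2 := by
    have := hd.1
    positivity
  rw [← Finset.sum_filter, ← Finset.mul_sum]
  congr 1
  have h2 : (Finset.Icc 1 N).filter (fun n => d ^ 2 ∣ n) =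
      (Finset.Icc 1 (N / d ^ 2)).image (fun m => d ^ 2 * m) := by
    ext n
    rw [Finset.mem_filter, Finset.mem_Icc, Finset.mem_image]
    constructor
    · rintro ⟨⟨h3, h4⟩, m, rfl⟩
      refine ⟨m, Finset.mem_Icc.mpr ⟨?_, ?_⟩, rfl⟩
      · exact Nat.pos_of_ne_zero (fun h0 => by rw [h0, mul_zero] at h3; omega)
      · rw [Nat.le_div_iff_mul_le hd2, mul_comm]
        exact h4
    · rintro ⟨m, hm, rfl⟩
      rw [Finset.mem_Icc] at hm
      have h5 := (Nat.le_div_iff_mul_le hd2).mp hm.2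
      refine ⟨⟨Nat.mul_pos hd2 hm.1, ?_⟩, Dvd.intro m rfl⟩
      rw [mul_comm]
      exact h5
  rw [h2, Finset.sum_image]
  intro a _ b _ hab
  exact Nat.eq_of_mul_eq_mul_left hd2 hab

private theorem ss_sin (a b : ℝ) : |Real.sin a - Real.sin b| ≤ |a - b| := by
  have h := Real.lipschitzWith_sin.dist_le_mul a b
  rw [Real.dist_eq, Real.dist_eq] at h
  simpa using h

private theorem ss_cos (a b : ℝ) : |Real.cos a - Real.cos b| ≤ |a - b| := by
  have h := Real.lipschitzWith_cos.dist_le_mul a b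
  rw [Real.dist_eq, Real.dist_eq] at h
  simpa using h

private theorem ss_inv (M : ℕ) :
    ∑ m ∈ Finset.Icc 1 (M + 1), 1 / (m : ℝ) ^ 2 ≤ 2 - 1 / ((M : ℝ) + 1) := by
  induction M with
  | zero => norm_num
  | succ M ih =>
    rw [Finset.sum_Icc_succ_top (by omega)]
    have hM : (0 : ℝ) ≤ M := Nat.cast_nonneg M
    have h1 : 1 / ((M : ℝ) + 1 + 1) ^ 2 ≤ 1 / ((M : ℝ) + 1) - 1 / ((M : ℝ) + 1 + 1) := by
      rw [div_sub_div _ _ (by positivity) (by positivity), div_le_div_iff₀ (by positivity)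
        (by positivity)]
      nlinarith
    push_cast at ih ⊢
    linarith

private theorem ss_inv' (M : ℕ) : ∑ m ∈ Finset.Icc 1 M, 1 / (m : ℝ) ^ 2 ≤ 2 := by
  rcases Nat.eq_zero_or_pos M with h | h
  · rw [h]
    norm_num
  · obtain ⟨n, rfl⟩ := Nat.exists_eq_add_of_le' h
    have h1 := ss_inv n
    have h2 : 0 ≤ 1 / ((n : ℝ) + 1) := by positivity
    linarith

private theorem ss_low (D : ℕ) : 1 / 4 + 1 / ((D : ℝ) + 2) ≤
    ∑ d ∈ Finset.Icc 1 (D + 2), ((ArithmeticFunction.moebius d : ℤ) : ℝ) / (d : ℝ) ^ 2 := by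
  induction D with
  | zero =>
    rw [Finset.sum_Icc_succ_top (by norm_num), Finset.sum_Icc_succ_top (by norm_num)]
    have h2 : ArithmeticFunction.moebius 2 = -1 :=
      ArithmeticFunction.moebius_apply_prime Nat.prime_two
    have h1 : ArithmeticFunction.moebius (0 + 1) = 1 := ArithmeticFunction.moebius_apply_one
    simp only [zero_add, ArithmeticFunction.moebius_apply_one, h2]
    norm_num
  | succ D ih =>
    rw [Finset.sum_Icc_succ_top (by omega)]
    have hM : (0 : ℝ) ≤ D := Nat.cast_nonneg D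
    have h1 : 1 / ((D : ℝ) + 1 + 2) ^ 2 ≤ 1 / ((D : ℝ) + 2) - 1 / ((D : ℝ) + 1 + 2) := by
      rw [div_sub_div _ _ (by positivity) (by positivity), div_le_div_iff₀ (by positivity)
        (by positivity)]
      nlinarith
    have h2 : -(1 / ((D : ℝ) + 1 + 2) ^ 2) ≤
        ((ArithmeticFunction.moebius (D + 2 + 1) : ℤ) : ℝ) / (((D + 2 + 1 : ℕ) : ℝ)) ^ 2 := by
      have h3 : (-1 : ℝ) ≤ ((ArithmeticFunction.moebius (D + 2 + 1) : ℤ) : ℝ) := by
        have h4 := (abs_le.mp (ArithmeticFunction.abs_moebius_le_one (n := D + 2 + 1))).1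
        exact_mod_cast h4
      have h5 : (((D + 2 + 1 : ℕ) : ℝ)) = (D : ℝ) + 1 + 2 := by
        push_cast
        ring
      rw [h5, ← neg_div]
      exact div_le_div_of_nonneg_right h3 (by positivity)
    have h6 : (((D + 1 : ℕ) : ℝ)) + 2 = (D : ℝ) + 1 + 2 := by
      push_cast
      ring
    rw [h6]
    have h7 : ∑ d ∈ Finset.Icc 1 (D + 2), ((ArithmeticFunction.moebius d : ℤ) : ℝ) / (d : ℝ) ^ 2 +
        ((ArithmeticFunction.moebius (D + 2 + 1) : ℤ) : ℝ) / (((D + 2 + 1 : ℕ) : ℝ)) ^ 2 ≥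
        1 / 4 + 1 / ((D : ℝ) + 1 + 2) := by linarith
    exact h7

private theorem ss_low' (D : ℕ) (hD : 1 ≤ D) : 1 / 4 ≤
    ∑ d ∈ Finset.Icc 1 D, ((ArithmeticFunction.moebius d : ℤ) : ℝ) / (d : ℝ) ^ 2 := by
  rcases Nat.lt_or_ge D 2 with h | h
  · have h1 : D = 1 := by omega
    rw [h1, Finset.Icc_self, Finset.sum_singleton, ArithmeticFunction.moebius_apply_one]
    norm_num
  · obtain ⟨n, rfl⟩ := Nat.exists_eq_add_of_le' h
    have h1 := ss_low n
    have h2 : 0 ≤ 1 / ((n : ℝ) + 2) := by positivity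
    linarith

/-- one term of the sum -/
private theorem ss_term (β γ s : ℝ) (hβ : 0 < β) (m : ℕ) (hm : 1 ≤ m) :
    |Real.sin (β * (Real.log m + s) + γ) / m -
      ((-Real.cos (β * (Real.log ((m + 1 : ℕ) : ℝ) + s) + γ) / β) -
        (-Real.cos (β * (Real.log m + s) + γ) / β))| ≤ (1 + β) * (1 / (m : ℝ) ^ 2) := by
  have hm0 : (0 : ℝ) < m := by exact_mod_cast hm
  set x := Real.log m with hx
  set y := Real.log ((m + 1 : ℕ) : ℝ) with hy
  have hxy : x < y := Real.log_lt_log hm0 (by push_cast; linarith)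
  have hup : y - x ≤ 1 / m := by
    rw [hx, hy, ← Real.log_div (by positivity) (by positivity)]
    have h1 := Real.log_le_sub_one_of_pos (x := ((m + 1 : ℕ) : ℝ) / m) (by positivity)
    have h2 : ((m + 1 : ℕ) : ℝ) / m - 1 = 1 / m := by
      push_cast
      field_simp
      ring
    rw [h2] at h1
    exact h1
  have hlow : 1 / ((m : ℝ) + 1) ≤ y - x := by
    have h1 := Real.one_sub_inv_le_log_of_pos (x := ((m + 1 : ℕ) : ℝ) / m) (by positivity)
    rw [Real.log_div (by positivity) (by positivity)] at h1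
    have h2 : 1 - (((m + 1 : ℕ) : ℝ) / m)⁻¹ = 1 / ((m : ℝ) + 1) := by
      push_cast
      field_simp
      ring
    rw [h2] at h1
    exact h1
  obtain ⟨ξ, hξ, hslope⟩ := exists_hasDerivAt_eq_slope
    (fun u => -Real.cos (β * (u + s) + γ) / β) (fun u => Real.sin (β * (u + s) + γ)) hxy
    (by fun_prop) (fun u _ => by
      have h1 : HasDerivAt (fun u => β * (u + s) + γ) β u := by
        have h2 := (((hasDerivAt_id u).add_const s).const_mul β).add_const γ
        simpa using h2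
      have h3 := (h1.cos.neg).div_const β
      have h4 : -(-Real.sin (β * (u + s) + γ) * β) / β = Real.sin (β * (u + s) + γ) := by
        field_simp
      rw [h4] at h3
      exact h3)
  have hyx : 0 < y - x := by linarith
  have heq : (-Real.cos (β * (y + s) + γ) / β) - (-Real.cos (β * (x + s) + γ) / β) =
      Real.sin (β * (ξ + s) + γ) * (y - x) := by
    rw [hslope]
    field_simp
  rw [heq]
  have h1 : Real.sin (β * (x + s) + γ) / m - Real.sin (β * (ξ + s) + γ) * (y - x) =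
      Real.sin (β * (x + s) + γ) * (1 / m - (y - x)) +
        (Real.sin (β * (x + s) + γ) - Real.sin (β * (ξ + s) + γ)) * (y - x) := by ring
  rw [h1]
  have h2 : |Real.sin (β * (x + s) + γ) * (1 / m - (y - x))| ≤ 1 / (m : ℝ) ^ 2 := by
    rw [abs_mul]
    have h3 : |1 / (m : ℝ) - (y - x)| ≤ 1 / (m : ℝ) ^ 2 := by
      rw [abs_of_nonneg (by linarith)]
      have h4 : 1 / (m : ℝ) - 1 / ((m : ℝ) + 1) ≤ 1 / (m : ℝ) ^ 2 := by
        rw [div_sub_div _ _ (by positivity) (by positivity), div_le_div_iff₀ (by positivity)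
          (by positivity)]
        nlinarith
      linarith
    calc |Real.sin (β * (x + s) + γ)| * |1 / (m : ℝ) - (y - x)|
        ≤ 1 * (1 / (m : ℝ) ^ 2) :=
          mul_le_mul (Real.abs_sin_le_one _) h3 (abs_nonneg _) zero_le_one
      _ = 1 / (m : ℝ) ^ 2 := one_mul _
  have h3 : |(Real.sin (β * (x + s) + γ) - Real.sin (β * (ξ + s) + γ)) * (y - x)| ≤
      β * (1 / (m : ℝ) ^ 2) := by
    rw [abs_mul, abs_of_pos hyx]
    have h4 := ss_sin (β * (x + s) + γ) (β * (ξ + s) + γ)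
    have h5 : |β * (x + s) + γ - (β * (ξ + s) + γ)| = β * (ξ - x) := by
      rw [abs_of_nonpos]
      · ring
      · nlinarith [hξ.1]
    rw [h5] at h4
    have h6 : ξ - x ≤ 1 / m := by linarith [hξ.2]
    have h7 : β * (ξ - x) ≤ β * (1 / m) := mul_le_mul_of_nonneg_left h6 hβ.le
    calc |Real.sin (β * (x + s) + γ) - Real.sin (β * (ξ + s) + γ)| * (y - x)
        ≤ (β * (1 / m)) * (1 / m) := mul_le_mul (h4.trans h7) hup hyx.le (by positivity)
      _ = β * (1 / (m : ℝ) ^ 2) := by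
          field_simp
  calc _ ≤ _ := abs_add_le _ _
    _ ≤ 1 / (m : ℝ) ^ 2 + β * (1 / (m : ℝ) ^ 2) := add_le_add h2 h3
    _ = (1 + β) * (1 / (m : ℝ) ^ 2) := by ring

/-- the inner sum -/
private theorem ss_inner (β γ s : ℝ) (hβ : 0 < β) (M : ℕ) :
    |∑ m ∈ Finset.Icc 1 M, Real.sin (β * (Real.log m + s) + γ) / m -
      ((-Real.cos (β * (Real.log ((M + 1 : ℕ) : ℝ) + s) + γ) / β) -
        (-Real.cos (β * s + γ) / β))| ≤ (1 + β) * 2 := by
  have hsum : (-Real.cos (β * (Real.log ((M + 1 : ℕ) : ℝ) + s) + γ) / β) -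
        (-Real.cos (β * s + γ) / β) = ∑ m ∈ Finset.Icc 1 M,
      ((-Real.cos (β * (Real.log ((m + 1 : ℕ) : ℝ) + s) + γ) / β) -
        (-Real.cos (β * (Real.log m + s) + γ) / β)) := by
    induction M with
    | zero => simp
    | succ M ih =>
      rw [Finset.sum_Icc_succ_top (by omega), ← ih]
      ring
  rw [hsum, ← Finset.sum_sub_distrib]
  refine (Finset.abs_sum_le_sum_abs _ _).trans ?_
  calc _ ≤ ∑ m ∈ Finset.Icc 1 M, (1 + β) * (1 / (m : ℝ) ^ 2) :=
        Finset.sum_le_sum fun m hm => ss_term β γ s hβ m (Finset.mem_Icc.mp hm).1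
    _ = (1 + β) * ∑ m ∈ Finset.Icc 1 M, 1 / (m : ℝ) ^ 2 := (Finset.mul_sum _ _ _).symm
    _ ≤ (1 + β) * 2 := mul_le_mul_of_nonneg_left (ss_inv' M) (by linarith)

private theorem ss_cosd (β γ u v : ℝ) (hβ : 0 < β) :
    |(-Real.cos (β * u + γ) / β) - (-Real.cos (β * v + γ) / β)| ≤ |u - v| := by
  have h1 : (-Real.cos (β * u + γ) / β) - (-Real.cos (β * v + γ) / β) =
      -(Real.cos (β * u + γ) - Real.cos (β * v + γ)) / β := by ring
  rw [h1, abs_div, abs_neg, abs_of_pos hβ, div_le_iff₀ hβ]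
  refine (ss_cos _ _).trans (le_of_eq ?_)
  have h2 : β * u + γ - (β * v + γ) = (u - v) * β := by ring
  rw [h2, abs_mul, abs_of_pos hβ]

/-- the inner sum, compared with the main term -/
private theorem ss_inner2 (β γ : ℝ) (hβ : 0 < β) (N d : ℕ) (hd : 1 ≤ d) (hdN : d ^ 2 ≤ N) :
    |∑ m ∈ Finset.Icc 1 (N / d ^ 2), Real.sin (β * Real.log ((d ^ 2 * m : ℕ) : ℝ) + γ) / m -
      ((-Real.cos (β * Real.log N + γ) / β) - (-Real.cos (β * 0 + γ) / β))| ≤
      (1 + β) * 2 + 1 + 2 * Real.log d := by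
  have hd0 : (0 : ℝ) < d := by exact_mod_cast hd
  have hd2 : 0 < d ^ 2 := by positivity
  set s := 2 * Real.log d with hs
  set M := N / d ^ 2 with hM
  have hterm : ∑ m ∈ Finset.Icc 1 M, Real.sin (β * Real.log ((d ^ 2 * m : ℕ) : ℝ) + γ) / m =
      ∑ m ∈ Finset.Icc 1 M, Real.sin (β * (Real.log m + s) + γ) / m := by
    refine Finset.sum_congr rfl fun m hm => ?_
    have hm0 : (0 : ℝ) < m := by exact_mod_cast (Finset.mem_Icc.mp hm).1
    have h1 : Real.log ((d ^ 2 * m : ℕ) : ℝ) = Real.log m + s := by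
      push_cast
      rw [Real.log_mul (by positivity) (by positivity), Real.log_pow, hs]
      push_cast
      ring
    rw [h1]
  rw [hterm]
  have h1 := ss_inner β γ s hβ M
  have hN0 : 0 < N := lt_of_lt_of_le hd2 hdN
  have hNR : (0 : ℝ) < N := by exact_mod_cast hN0
  have h2 : |(Real.log ((M + 1 : ℕ) : ℝ) + s) - Real.log N| ≤ 1 := by
    have h3 : Real.log ((M + 1 : ℕ) : ℝ) + s = Real.log (((M + 1) * d ^ 2 : ℕ) : ℝ) := by
      push_cast
      rw [Real.log_mul (by positivity) (by positivity), Real.log_pow, hs]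
      push_cast
      ring
    have h4 : N < (M + 1) * d ^ 2 := by
      rw [hM]
      have := Nat.lt_div_mul_add hd2 (a := N)
      rw [add_mul, one_mul]
      exact this
    have h5 : (M + 1) * d ^ 2 ≤ 2 * N := by
      have h6 : M * d ^ 2 ≤ N := Nat.div_mul_le_self N (d ^ 2)
      rw [add_mul, one_mul]
      omega
    have h7 : Real.log N ≤ Real.log (((M + 1) * d ^ 2 : ℕ) : ℝ) :=
      Real.log_le_log hNR (by exact_mod_cast h4.le)
    have h8 : Real.log (((M + 1) * d ^ 2 : ℕ) : ℝ) ≤ Real.log 2 + Real.log N := by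
      rw [← Real.log_mul (by norm_num) hNR.ne']
      refine Real.log_le_log ?_ (by exact_mod_cast h5)
      exact_mod_cast (lt_of_le_of_lt (Nat.zero_le _) h4)
    rw [h3, abs_of_nonneg (by linarith)]
    have h9 : Real.log 2 < 1 := by
      have := Real.log_two_lt_d9
      linarith
    linarith
  have h3 := (ss_cosd β γ (Real.log ((M + 1 : ℕ) : ℝ) + s) (Real.log N) hβ).trans h2
  have h4 := ss_cosd β γ s 0 hβ
  have hs0 : 0 ≤ s := by
    have : 0 ≤ Real.log d := Real.log_nonneg (by exact_mod_cast hd)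
    rw [hs]
    linarith
  rw [sub_zero, abs_of_nonneg hs0] at h4
  have h5 : ∀ A B C D E : ℝ, |A - (B - C)| ≤ (1 + β) * 2 → |B - D| ≤ 1 → |C - E| ≤ s →
      |A - (D - E)| ≤ (1 + β) * 2 + 1 + s := by
    intro A B C D E hA hB hC
    rw [abs_le] at hA hB hC ⊢
    constructor <;> linarith [hA.1, hA.2, hB.1, hB.2, hC.1, hC.2]
  exact h5 _ _ _ _ _ h1 h3 h4

private theorem ss_err : ∃ C : ℝ, 0 ≤ C ∧ ∀ D : ℕ,
    ∑ d ∈ Finset.Icc 1 D, (19 + 2 * Real.log d) * (1 / (d : ℝ) ^ 2) ≤ C := by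
  have hs : Summable (fun n : ℕ => ((n : ℝ) ^ (3 / 2 : ℝ))⁻¹) :=
    Real.summable_nat_rpow_inv.mpr (by norm_num)
  refine ⟨23 * ∑' n : ℕ, ((n : ℝ) ^ (3 / 2 : ℝ))⁻¹,
    mul_nonneg (by norm_num) (tsum_nonneg fun n => by positivity), fun D => ?_⟩
  calc ∑ d ∈ Finset.Icc 1 D, (19 + 2 * Real.log d) * (1 / (d : ℝ) ^ 2)
      ≤ ∑ d ∈ Finset.Icc 1 D, 23 * ((d : ℝ) ^ (3 / 2 : ℝ))⁻¹ := by
        refine Finset.sum_le_sum fun d hd => ?_
        have hd1 : 1 ≤ d := (Finset.mem_Icc.mp hd).1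
        have hd1R : (1 : ℝ) ≤ d := by exact_mod_cast hd1
        have hd0 : (0 : ℝ) < d := by linarith
        have h1 : Real.log d ≤ (d : ℝ) ^ (1 / 2 : ℝ) / (1 / 2) :=
          Real.log_le_rpow_div hd0.le (by norm_num)
        have h2 : (1 : ℝ) ≤ (d : ℝ) ^ (1 / 2 : ℝ) := Real.one_le_rpow hd1R (by norm_num)
        have h3 : 19 + 2 * Real.log d ≤ 23 * (d : ℝ) ^ (1 / 2 : ℝ) := by
          have h4 : (d : ℝ) ^ (1 / 2 : ℝ) / (1 / 2) = 2 * (d : ℝ) ^ (1 / 2 : ℝ) := by ring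
          rw [h4] at h1
          linarith
        have h5 : (d : ℝ) ^ (1 / 2 : ℝ) * (1 / (d : ℝ) ^ 2) = ((d : ℝ) ^ (3 / 2 : ℝ))⁻¹ := by
          have h6 : (d : ℝ) ^ 2 = (d : ℝ) ^ (1 / 2 : ℝ) * (d : ℝ) ^ (3 / 2 : ℝ) := by
            rw [← Real.rpow_add hd0, ← Real.rpow_natCast]
            norm_num
          rw [h6]
          have h7 : (d : ℝ) ^ (1 / 2 : ℝ) ≠ 0 := (Real.rpow_pos_of_pos hd0 _).ne'
          have h8 : (d : ℝ) ^ (3 / 2 : ℝ) ≠ 0 := (Real.rpow_pos_of_pos hd0 _).ne'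
          field_simp
        calc (19 + 2 * Real.log d) * (1 / (d : ℝ) ^ 2)
            ≤ (23 * (d : ℝ) ^ (1 / 2 : ℝ)) * (1 / (d : ℝ) ^ 2) :=
              mul_le_mul_of_nonneg_right h3 (by positivity)
          _ = 23 * ((d : ℝ) ^ (3 / 2 : ℝ))⁻¹ := by rw [mul_assoc, h5]
    _ = 23 * ∑ d ∈ Finset.Icc 1 D, ((d : ℝ) ^ (3 / 2 : ℝ))⁻¹ := (Finset.mul_sum _ _ _).symm
    _ ≤ _ := mul_le_mul_of_nonneg_left (hs.sum_le_tsum _ fun n _ => by positivity) (by norm_num)

private theorem ss_J (c : ℝ) (h1 : 1 / 2 < c) (h2 : c < 1) : ∃ k : ℝ, 0 < k ∧ k ≤ 1 ∧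
    Real.cos (Real.pi * c) < Real.cos (2 * Real.pi * c / (1 + k) + Real.pi * c) := by
  have hcont : ContinuousAt (fun k : ℝ => Real.cos (2 * Real.pi * c / (1 + k) + Real.pi * c)) 0 := by
    apply ContinuousAt.comp Real.continuous_cos.continuousAt
    refine ContinuousAt.add ?_ continuousAt_const
    exact ContinuousAt.div continuousAt_const (by fun_prop) (by norm_num)
  have hpos : Real.cos (Real.pi * c) <
      (fun k : ℝ => Real.cos (2 * Real.pi * c / (1 + k) + Real.pi * c)) 0 := by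
    simp only [add_zero, div_one]
    have h3 : Real.cos (2 * Real.pi * c + Real.pi * c) - Real.cos (Real.pi * c) =
        -2 * Real.sin (2 * Real.pi * c) * Real.sin (Real.pi * c) := by
      rw [Real.cos_sub_cos]
      have h4 : (2 * Real.pi * c + Real.pi * c + Real.pi * c) / 2 = 2 * Real.pi * c := by ring
      have h5 : (2 * Real.pi * c + Real.pi * c - Real.pi * c) / 2 = Real.pi * c := by ring
      rw [h4, h5]
    have h4 : 0 < Real.sin (Real.pi * c) :=
      Real.sin_pos_of_pos_of_lt_pi (by nlinarith [Real.pi_pos]) (by nlinarith [Real.pi_pos])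
    have h5 : Real.sin (2 * Real.pi * c) < 0 := by
      have h6 : 0 < Real.sin (2 * Real.pi * c - Real.pi) :=
        Real.sin_pos_of_pos_of_lt_pi (by nlinarith [Real.pi_pos]) (by nlinarith [Real.pi_pos])
      rw [Real.sin_sub_pi] at h6
      linarith
    nlinarith [mul_pos_of_neg_of_neg h5 (neg_lt_zero.mpr h4)]
  have hev := hcont.eventually_const_lt hpos
  rw [Metric.eventually_nhds_iff] at hev
  obtain ⟨δ, hδ, hev⟩ := hev
  refine ⟨min (δ / 2) 1, lt_min (by linarith) one_pos, min_le_right _ _, hev ?_⟩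
  rw [Real.dist_eq, sub_zero, abs_of_pos (lt_min (by linarith) one_pos)]
  exact lt_of_le_of_lt (min_le_left _ _) (by linarith)

theorem sumsq (c : ℝ) (h1 : 1 / 2 < c) (h2 : c < 1) :
    ∃ k : ℝ, 0 < k ∧ k ≤ 1 ∧ ∃ κ : ℝ, 0 < κ ∧ ∃ N0 : ℕ, ∀ N : ℕ, N0 ≤ N →
      ∑ n ∈ Finset.Icc 1 N, ((ArithmeticFunction.moebius n : ℤ) : ℝ) ^ 2 / n *
        Real.sin (2 * Real.pi * c * Real.log n / ((1 + k) * Real.log N) + Real.pi * c) ≤
      -(κ * Real.log N) := by
  obtain ⟨k, hk0, hk1, hJ⟩ := ss_J c h1 h2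
  obtain ⟨C, hC0, hC⟩ := ss_err
  set J : ℝ := (1 + k) / (2 * Real.pi * c) *
    (Real.cos (2 * Real.pi * c / (1 + k) + Real.pi * c) - Real.cos (Real.pi * c)) with hJdef
  have hpi := Real.pi_pos
  have hc0 : 0 < c := by linarith
  have hJ0 : 0 < J := by
    rw [hJdef]
    have h3 : 0 < Real.cos (2 * Real.pi * c / (1 + k) + Real.pi * c) -
      Real.cos (Real.pi * c) := by linarith
    positivity
  refine ⟨k, hk0, hk1, J / 8, by positivity, max 3 ⌈Real.exp (8 * C / J)⌉₊, fun N hN => ?_⟩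
  have hN3 : 3 ≤ N := (le_max_left _ _).trans hN
  have hNR : (3 : ℝ) ≤ N := by exact_mod_cast hN3
  have hN0 : (0 : ℝ) < N := by linarith
  have hL1 : 1 < Real.log N := by
    rw [Real.lt_log_iff_exp_lt hN0]
    have := Real.exp_one_lt_d9
    linarith
  have hLC : C ≤ J / 8 * Real.log N := by
    have h3 : Real.exp (8 * C / J) ≤ N :=
      (Nat.le_ceil _).trans (by exact_mod_cast (le_max_right _ _).trans hN)
    have h4 : 8 * C / J ≤ Real.log N := by
      rw [Real.le_log_iff_exp_le hN0]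
      exact h3
    rw [div_le_iff₀ hJ0] at h4
    linarith
  set β : ℝ := 2 * Real.pi * c / ((1 + k) * Real.log N) with hβdef
  have hβ0 : 0 < β := by
    rw [hβdef]
    have : 0 < Real.log N := by linarith
    positivity
  have hβ7 : β ≤ 7 := by
    rw [hβdef, div_le_iff₀ (by nlinarith)]
    have h3 : 1 ≤ (1 + k) * Real.log N := by nlinarith
    nlinarith [Real.pi_lt_d2]
  set D := Nat.sqrt N with hD
  have hD1 : 1 ≤ D := by
    rw [hD, Nat.one_le_iff_ne_zero]
    intro h3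
    have := Nat.sqrt_eq_zero.mp h3
    omega
  have hDN : N < (D + 1) ^ 2 := by
    rw [sq]
    exact Nat.lt_succ_sqrt N
  have hDd : ∀ d ∈ Finset.Icc 1 D, d ^ 2 ≤ N := by
    intro d hd
    have h3 := (Finset.mem_Icc.mp hd).2
    rw [hD, Nat.le_sqrt] at h3
    rw [sq]
    exact h3
  have hrew : ∑ n ∈ Finset.Icc 1 N, ((ArithmeticFunction.moebius n : ℤ) : ℝ) ^ 2 / n *
        Real.sin (2 * Real.pi * c * Real.log n / ((1 + k) * Real.log N) + Real.pi * c) =
      ∑ d ∈ Finset.Icc 1 D, ((ArithmeticFunction.moebius d : ℤ) : ℝ) / (d : ℝ) ^ 2 *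
        ∑ m ∈ Finset.Icc 1 (N / d ^ 2),
          Real.sin (β * Real.log ((d ^ 2 * m : ℕ) : ℝ) + Real.pi * c) / m := by
    have h3 := ss_swap N D hDN (fun n => Real.sin (β * Real.log n + Real.pi * c) / n)
    have h4 : ∑ n ∈ Finset.Icc 1 N, ((ArithmeticFunction.moebius n : ℤ) : ℝ) ^ 2 / n *
        Real.sin (2 * Real.pi * c * Real.log n / ((1 + k) * Real.log N) + Real.pi * c) =
        ∑ n ∈ Finset.Icc 1 N, ((ArithmeticFunction.moebius n : ℤ) : ℝ) ^ 2 *
          (Real.sin (β * Real.log n + Real.pi * c) / n) := by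
      refine Finset.sum_congr rfl fun n _ => ?_
      have h5 : 2 * Real.pi * c * Real.log n / ((1 + k) * Real.log N) = β * Real.log n := by
        rw [hβdef]
        ring
      rw [h5]
      ring
    rw [h4, h3]
    refine Finset.sum_congr rfl fun d hd => ?_
    have hd0 : (0 : ℝ) < d := by exact_mod_cast (Finset.mem_Icc.mp hd).1
    rw [div_mul_eq_mul_div, mul_div_assoc, Finset.sum_div]
    congr 1
    refine Finset.sum_congr rfl fun m hm => ?_
    have hm0 : (0 : ℝ) < m := by exact_mod_cast (Finset.mem_Icc.mp hm).1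
    push_cast
    field_simp
  rw [hrew]
  set P : ℝ := (-Real.cos (β * Real.log N + Real.pi * c) / β) -
    (-Real.cos (β * 0 + Real.pi * c) / β) with hP
  have hPJ : P = -(J * Real.log N) := by
    have hL0 : Real.log N ≠ 0 := by linarith
    have h3 : β * Real.log N = 2 * Real.pi * c / (1 + k) := by
      rw [hβdef]
      field_simp
    rw [hP, h3, mul_zero, zero_add, hJdef, hβdef]
    field_simp
    ring
  have hbd : ∀ d ∈ Finset.Icc 1 D, ((ArithmeticFunction.moebius d : ℤ) : ℝ) / (d : ℝ) ^ 2 *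
        ∑ m ∈ Finset.Icc 1 (N / d ^ 2),
          Real.sin (β * Real.log ((d ^ 2 * m : ℕ) : ℝ) + Real.pi * c) / m ≤
      ((ArithmeticFunction.moebius d : ℤ) : ℝ) / (d : ℝ) ^ 2 * P +
        (19 + 2 * Real.log d) * (1 / (d : ℝ) ^ 2) := by
    intro d hd
    have hd1 := (Finset.mem_Icc.mp hd).1
    have hd0 : (0 : ℝ) < d := by exact_mod_cast hd1
    have h3 := ss_inner2 β (Real.pi * c) hβ0 N d hd1 (hDd d hd)
    rw [← hP] at h3
    set I := ∑ m ∈ Finset.Icc 1 (N / d ^ 2),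
      Real.sin (β * Real.log ((d ^ 2 * m : ℕ) : ℝ) + Real.pi * c) / m with hI
    have h4 : |((ArithmeticFunction.moebius d : ℤ) : ℝ) / (d : ℝ) ^ 2 * (I - P)| ≤
        (19 + 2 * Real.log d) * (1 / (d : ℝ) ^ 2) := by
      rw [abs_mul, mul_comm]
      refine mul_le_mul ?_ ?_ (abs_nonneg _) ?_
      · refine h3.trans ?_
        linarith
      · rw [abs_div, abs_of_pos (show (0 : ℝ) < (d : ℝ) ^ 2 by positivity)]
        refine div_le_div_of_nonneg_right ?_ (by positivity)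
        have h5 := ArithmeticFunction.abs_moebius_le_one (n := d)
        have h6 : ((|ArithmeticFunction.moebius d| : ℤ) : ℝ) ≤ 1 := by exact_mod_cast h5
        rw [Int.cast_abs] at h6
        exact h6
      · have : 0 ≤ Real.log d := Real.log_nonneg (by exact_mod_cast hd1)
        linarith
    have h5 := (abs_le.mp h4).2
    linarith
  have h3 := Finset.sum_le_sum hbd
  rw [Finset.sum_add_distrib, ← Finset.sum_mul] at h3
  have h4 := ss_low' D hD1
  have h5 := hC D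
  have hPneg : P ≤ 0 := by
    rw [hPJ]
    have : 0 ≤ J * Real.log N := by
      have : 0 < Real.log N := by linarith
      positivity
    linarith
  have h6 : (∑ d ∈ Finset.Icc 1 D, ((ArithmeticFunction.moebius d : ℤ) : ℝ) / (d : ℝ) ^ 2) * P ≤
      1 / 4 * P := mul_le_mul_of_nonpos_right h4 hPneg
  rw [hPJ] at h3 h6
  linarith

end H2.Gap
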