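import Pool.Agent.H2.Gap.REval
import Pool.Agent.H2.Gap.Edge
import Pool.Agent.H2.Gap.Pick
import Pool.Agent.H2.Gap.Sign
import Pool.Agent.H2.Gap.RectI
import Pool.Agent.H2.Gap.SumSq

/-!
# The contradiction (MP_400eac_nt)

`k, κ` from `sumsq`; `N` large. `t1 ∈ [T/2, T/2+1]`, `t2 ∈ [3T/2, 3T/2+1]` from `pick`.
`rect_ineq` for `f = FF c k N`, `E = 1`: differentiability `diff_FF`, edges `edge`
(`|t_i - T| ≥ T/2 - 1 ≥ T/4`), sign `sign_line` with `Φ = Asum * Bsum * Wt`, `line_real`,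
`zeros_good`. So `Im ∫ FF(2+it) dt ≤ 3`. By `reval` and `sumsq`
`V κ log N - C V - 1 ≤ 3`, `V ≥ 1/3` (`mass`): impossible for large `N`.
-/

set_option autoImplicit false

namespace H2.Gap

open Complex Finset

theorem core (hRH : RiemannHypothesis) (c T0 : ℝ) (hc : 1 / 2 < c) (hc1 : c < 1)
    (hG : Good c T0) : False := by
  obtain ⟨k, hk, hk1, κ, hκ, N1, hN1⟩ := sumsq c hc hc1
  obtain ⟨C, hC, N2, hN2⟩ := reval c k hc hc1 hk hk1
  obtain ⟨N3, hN3⟩ := edge hRH c k T0 hc hc1 hk hk1 hG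
  obtain ⟨N4, hN4⟩ := pick c k T0 hc hc1 hk hk1 hG
  obtain ⟨N5, hN5⟩ := zeros_good c k T0 hc hc1 hk hk1 hG
  obtain ⟨N6, hN6⟩ := params c k hc hc1 hk hk1 (max 8 ((C + 13) / κ))
  set N := max (max (max N1 N2) (max N3 N4)) (max N5 N6) with hN
  have e1 : N1 ≤ N := le_trans (le_max_left _ _) (le_trans (le_max_left _ _) (le_max_left _ _))
  have e2 : N2 ≤ N := le_trans (le_max_right _ _) (le_trans (le_max_left _ _) (le_max_left _ _))
  have e3 : N3 ≤ N := le_trans (le_max_left _ _) (le_trans (le_max_right _ _) (le_max_left _ _))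
  have e4 : N4 ≤ N := le_trans (le_max_right _ _) (le_trans (le_max_right _ _) (le_max_left _ _))
  have e5 : N5 ≤ N := le_trans (le_max_left _ _) (le_max_right _ _)
  have e6 : N6 ≤ N := le_trans (le_max_right _ _) (le_max_right _ _)
  clear_value N
  obtain ⟨hT, hlog, ha, ha1, hL, hD, hN22, hal⟩ := hN6 N e6
  have hT8 : 8 ≤ TT k N := le_trans (le_max_left _ _) hT
  have hlog2 : (C + 13) / κ ≤ Real.log N := le_trans (le_max_right _ _) hlog
  obtain ⟨t1, ht1a, ht1b, ht1z⟩ := hN4 N e4 (TT k N / 2) le_rfl (by linarith)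
  obtain ⟨t2, ht2a, ht2b, ht2z⟩ := hN4 N e4 (3 * TT k N / 2) (by linarith) le_rfl
  have h12 : t1 ≤ t2 := by linarith
  have ht1pos : 0 < t1 := by linarith
  have habs1 : TT k N / 4 ≤ |t1 - TT k N| := by
    rw [abs_sub_comm]
    exact le_trans (by linarith) (le_abs_self _)
  have habs2 : TT k N / 4 ≤ |t2 - TT k N| := le_trans (by linarith) (le_abs_self _)
  have hmain : (∫ t in t1..t2, FF c k N (2 + I * t)).im ≤ 3 * 1 := by
    refine rect_ineq (FF c k N) t1 t2 1 h12 ?_ ?_ ?_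
    · intro s hs h1 h2
      exact diff_FF hRH c k N ha s hs (by linarith)
    · intro u hu hu2
      exact ⟨hN3 N e3 t1 ht1a (by linarith) habs1 ht1z u hu hu2,
        hN3 N e3 t2 (by linarith) (by linarith) habs2 ht2z u hu hu2⟩
    · intro η hη
      exact sign_line (al c k N) t1 t2 ha ht1pos
        (fun s => Asum N s * Bsum N s * Wt (TT k N) (DD k N) s)
        (differentiable_ABW N _ _) (fun t => line_real N _ _ t)
        (fun t ht => hN5 N e5 t (by linarith [ht.1]) (by linarith [ht.2])) η hη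
  have hr := hN2 N e2 t1 t2 ht1a ht1b ht2a ht2b
  have hV : 1 / 3 ≤ VV k N t1 t2 := mass k N t1 t2 hD (by linarith) (by linarith)
  have hs := hN1 N e1
  set S := ∑ n ∈ Finset.Icc 1 N, ((ArithmeticFunction.moebius n : ℤ) : ℝ) ^ 2 / n *
        Real.sin (2 * Real.pi * c * Real.log n / ((1 + k) * Real.log N) + Real.pi * c) with hS
  have h3 : VV k N t1 t2 * (κ * Real.log N) ≤ -(VV k N t1 t2 * S) := by
    have := mul_le_mul_of_nonneg_left hs (by linarith : (0 : ℝ) ≤ VV k N t1 t2)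
    linarith
  have h4 : C + 13 ≤ κ * Real.log N := by
    rw [div_le_iff₀ hκ] at hlog2
    linarith
  have h5 : VV k N t1 t2 * (C + 13) ≤ VV k N t1 t2 * (κ * Real.log N) :=
    mul_le_mul_of_nonneg_left h4 (by linarith)
  nlinarith

end H2.Gap
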