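import Mathlib

/-!
# Small gaps between zeta zeros: definitions (MP_400eac_nt)

Overview of the proof (`proofs` 269). `Gr α s = Λ(s) / Λ(s + iα)` with the completed zeta function;
it is real on the critical line.  `Asum N` is the truncated Dirichlet series of `1/ζ`,
`Bsum N (1/2+it)` is its conjugate, `Wt` a Gaussian weight.  If the zeros are simple and separated
by at least `α`, all residues of `Gr` on the critical line have the same sign; the integral over
`Re s = 2` is evaluated by Dirichlet series.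
-/

set_option autoImplicit false

namespace H2.Gap

open Complex Finset

/-- The ratio of the Gamma factors. -/
noncomputable def gfac (α : ℝ) (s : ℂ) : ℂ := Gammaℝ s / Gammaℝ (s + I * α)

/-- The ratio of the completed zeta functions. -/
noncomputable def Gr (α : ℝ) (s : ℂ) : ℂ :=
  completedRiemannZeta s / completedRiemannZeta (s + I * α)

/-- The truncated Dirichlet series of `1/ζ`. -/
noncomputable def Asum (N : ℕ) (s : ℂ) : ℂ :=
  ∑ n ∈ Icc 1 N, (ArithmeticFunction.moebius n : ℂ) * (n : ℂ) ^ (-s)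

/-- The reflected polynomial; `Bsum N (1/2 + it)` is the conjugate of `Asum N (1/2 + it)`. -/
noncomputable def Bsum (N : ℕ) (s : ℂ) : ℂ :=
  ∑ n ∈ Icc 1 N, (ArithmeticFunction.moebius n : ℂ) * (n : ℂ) ^ (s - 1)

/-- The Gaussian weight. -/
noncomputable def Wt (T D : ℝ) (s : ℂ) : ℂ := cexp ((s - 1 / 2 - I * T) ^ 2 / D ^ 2)

/-- The height `T = N^(1+k)`. -/
noncomputable def TT (k : ℝ) (N : ℕ) : ℝ := (N : ℝ) ^ (1 + k)

/-- The width of the Gaussian, `D = N^(1+k/2)`. -/
noncomputable def DD (k : ℝ) (N : ℕ) : ℝ := (N : ℝ) ^ (1 + k / 2)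

/-- The length of the contour shift, `N^(1+k/4)`. -/
noncomputable def LL (k : ℝ) (N : ℕ) : ℝ := (N : ℝ) ^ (1 + k / 4)

/-- The shift `α = 2πc / log T = 2πc / ((1+k) log N)`. -/
noncomputable def al (c k : ℝ) (N : ℕ) : ℝ := 2 * Real.pi * c / ((1 + k) * Real.log N)

/-- The integrand. -/
noncomputable def FF (c k : ℝ) (N : ℕ) (s : ℂ) : ℂ :=
  Gr (al c k N) s * (Asum N s * Bsum N s * Wt (TT k N) (DD k N) s)

/-- The mass of the Gaussian between `t1` and `t2`. -/
noncomputable def VV (k : ℝ) (N : ℕ) (t1 t2 : ℝ) : ℝ :=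
  ∫ t in t1..t2, Real.exp (-((t - TT k N) ^ 2 / (DD k N) ^ 2))

/-- Simple zeros and separation `2πc / log T` near every height `T ≥ T0`. -/
def Good (c T0 : ℝ) : Prop :=
  (∀ u : ℝ, T0 ≤ u → riemannZeta (1 / 2 + I * u) = 0 → deriv riemannZeta (1 / 2 + I * u) ≠ 0) ∧
  ∀ T : ℝ, T0 ≤ T → ∀ u v : ℝ, T / 4 ≤ u → u < v → v ≤ 4 * T →
    riemannZeta (1 / 2 + I * u) = 0 → riemannZeta (1 / 2 + I * v) = 0 →
    2 * Real.pi * c / Real.log T ≤ v - u

end H2.Gap
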