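import Mathlib

/-!
# [H2 GAP DIVIDE] dividing out simple zeros

PROOF. Induction on the finset `Z` (generalising `f`). Empty: `h = f`. For `insert w Z`: let
`f1 = dslope f w`; it is differentiable on `U` (`Complex.differentiableOn_dslope`, `U` is a
neighbourhood of `w`), `f z = (z - w) * f1 z` for all `z` (as `f w = 0`, `sub_smul_dslope`), and
`f1 w = deriv f w ≠ 0`. For `z ∈ Z`, `z ≠ w`: `f1 z = 0` and
`deriv f1 z = deriv f z / (z - w) ≠ 0` (derivative of `f = (· - w) f1` at `z` with `f1 z = 0`).
Apply the induction hypothesis to `f1`: `f1 z = (∏_{Z}) h z`, `h ≠ 0` on `Z`. Also `h w ≠ 0`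
because `f1 w ≠ 0` and `f1 w = (∏_{v ∈ Z} (w - v)) h w`.
-/

set_option autoImplicit false

namespace H2.Gap

open Complex

theorem exists_divide (Z : Finset ℂ) (U : Set ℂ) (hU : IsOpen U) (f : ℂ → ℂ)
    (hf : DifferentiableOn ℂ f U) (hZU : ∀ z ∈ Z, z ∈ U) (hZ0 : ∀ z ∈ Z, f z = 0)
    (hZ1 : ∀ z ∈ Z, deriv f z ≠ 0) :
    ∃ h : ℂ → ℂ, DifferentiableOn ℂ h U ∧ (∀ z ∈ U, f z = (∏ w ∈ Z, (z - w)) * h z) ∧
      ∀ z ∈ Z, h z ≠ 0 := by
  classical
  induction Z using Finset.induction_on generalizing f with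
  | empty =>
    refine ⟨f, hf, fun z _ => ?_, fun z hz => absurd hz (Finset.notMem_empty z)⟩
    rw [Finset.prod_empty, one_mul]
  | insert w Z hw ih =>
    have hwU : w ∈ U := hZU w (Finset.mem_insert_self w Z)
    have hfw : f w = 0 := hZ0 w (Finset.mem_insert_self w Z)
    have hfw1 : deriv f w ≠ 0 := hZ1 w (Finset.mem_insert_self w Z)
    have hd1 : DifferentiableOn ℂ (dslope f w) U :=
      (Complex.differentiableOn_dslope (hU.mem_nhds hwU)).2 hf
    have hfac : ∀ z, f z = (z - w) * dslope f w z := by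
      intro z
      have h1 := sub_smul_dslope f w z
      rw [hfw, sub_zero, smul_eq_mul] at h1
      exact h1.symm
    have hz0 : ∀ z ∈ Z, dslope f w z = 0 := by
      intro z hz
      have h1 := hfac z
      rw [hZ0 z (Finset.mem_insert_of_mem hz)] at h1
      have h2 : z - w ≠ 0 := by
        intro h
        apply hw
        rw [← sub_eq_zero.1 h]
        exact hz
      exact (mul_eq_zero.1 h1.symm).resolve_left h2
    have hz1 : ∀ z ∈ Z, deriv (dslope f w) z ≠ 0 := by
      intro z hz h0
      apply hZ1 z (Finset.mem_insert_of_mem hz)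
      have hzU : z ∈ U := hZU z (Finset.mem_insert_of_mem hz)
      have hda : HasDerivAt (dslope f w) (deriv (dslope f w) z) z :=
        (hd1.differentiableAt (hU.mem_nhds hzU)).hasDerivAt
      have h1 : HasDerivAt (fun z => z - w) 1 z := (hasDerivAt_id z).sub_const w
      have h2 := h1.mul hda
      have h3 : f = fun z => (z - w) * dslope f w z := funext hfac
      have h4 : deriv f z = 1 * dslope f w z + (z - w) * deriv (dslope f w) z := by
        conv_lhs => rw [h3]
        exact h2.deriv
      rw [h4, hz0 z hz, h0]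
      ring
    obtain ⟨h, hh1, hh2, hh3⟩ := ih (dslope f w) hd1
      (fun z hz => hZU z (Finset.mem_insert_of_mem hz)) hz0 hz1
    refine ⟨h, hh1, ?_, ?_⟩
    · intro z hz
      rw [Finset.prod_insert hw, hfac z, hh2 z hz, mul_assoc]
    · intro z hz
      rcases Finset.mem_insert.1 hz with rfl | hz
      · intro h0
        apply hfw1
        rw [← dslope_same f z, hh2 z hwU, h0, mul_zero]
      · exact hh3 z hz

end H2.Gap
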