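import Pool.Agent.H2.Gap.Defs

/-!
# [H2 GAP EXPAND] the Dirichlet series of `ζ(s) / ζ(s+iα) * A(s)` for `Re s > 1`

PROOF. In the Dirichlet ring of arithmetic functions `ℕ → ℂ`: `ζ` (constant 1),
`m_α n = μ n * n^(-iα)`, `a n = μ n` for `n ≤ N`, `0` for `n > N`; `c = (ζ * m_α) * a`
(Dirichlet convolution, `LSeries.convolution` or `ArithmeticFunction` over `ℂ`).
For `Re s > 1`: `L(ζ,s) = ζ(s)` (`LSeries_zeta_eq_riemannZeta`), `L(m_α,s) = L(μ, s+iα)
= 1/ζ(s+iα)` (`LSeries_zeta_mul_Lseries_moebius`), `L(a,s) = Asum N s`; `LSeries_convolution`.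
For `1 ≤ n ≤ N`: `c n = ∑_{de=n} (ζ*m_α)(d) a(e) = ∑_{de=n} (ζ*m_α)(d) μ(e)` since `e ≤ n ≤ N`,
and `(ζ * m_α) * μ = m_α * (ζ * μ) = m_α`. `∑ |c n| n^-2 ≤ (∑ n^-2)^3 = (π^2/6)^3 ≤ 8`: norms of a
convolution are bounded by the convolution of the norms; each of the three sequences is bounded by 1
in absolute value, so `|c n| ≤ (1 * 1 * 1)(n)` and `∑ (1*1*1)(n) n^-2 = ζ(2)^3`
(`LSeries_convolution` at `s = 2` or `tsum_mul_tsum`).
-/

set_option autoImplicit false

namespace H2.Gap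

open Complex

open ArithmeticFunction ArithmeticFunction.Moebius ArithmeticFunction.zeta in
/-- the arithmetic function `μ n * n^(-iα)` -/
noncomputable def exM (α : ℝ) : ArithmeticFunction ℂ :=
  ⟨fun n => (ArithmeticFunction.moebius n : ℂ) * (n : ℂ) ^ (-(I * α)), by simp⟩

/-- the truncated Moebius function -/
noncomputable def exA (N : ℕ) : ArithmeticFunction ℂ :=
  ⟨fun n => if n ≤ N then (ArithmeticFunction.moebius n : ℂ) else 0, by simp⟩

/-- the constant function 1 -/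
noncomputable def exZ : ArithmeticFunction ℂ :=
  ((ArithmeticFunction.zeta : ArithmeticFunction ℕ) : ArithmeticFunction ℂ)

theorem exM_apply (α : ℝ) (n : ℕ) :
    exM α n = (ArithmeticFunction.moebius n : ℂ) * (n : ℂ) ^ (-(I * α)) := rfl

theorem exA_apply (N n : ℕ) :
    exA N n = if n ≤ N then (ArithmeticFunction.moebius n : ℂ) else 0 := rfl

theorem exZ_apply (n : ℕ) : exZ n = if n = 0 then 0 else 1 := by
  unfold exZ
  rw [ArithmeticFunction.natCoe_apply, ArithmeticFunction.zeta_apply]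
  split_ifs <;> simp

theorem ex_norm_moebius (n : ℕ) : ‖((ArithmeticFunction.moebius n : ℤ) : ℂ)‖ ≤ 1 := by
  rw [Complex.norm_intCast]
  exact_mod_cast ArithmeticFunction.abs_moebius_le_one

theorem ex_norm_pow (α : ℝ) {n : ℕ} (hn : n ≠ 0) : ‖(n : ℂ) ^ (-(I * α) : ℂ)‖ = 1 := by
  rw [norm_natCast_cpow_of_pos (Nat.pos_of_ne_zero hn)]
  simp

theorem exM_norm (α : ℝ) (n : ℕ) : ‖exM α n‖ ≤ (ArithmeticFunction.zeta n : ℕ) := by
  rcases eq_or_ne n 0 with rfl | hn
  · simp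
  · rw [exM_apply, norm_mul, ex_norm_pow α hn, mul_one, ArithmeticFunction.zeta_apply_ne hn]
    simpa using ex_norm_moebius n

theorem exA_norm (N n : ℕ) : ‖exA N n‖ ≤ (ArithmeticFunction.zeta n : ℕ) := by
  rcases eq_or_ne n 0 with rfl | hn
  · simp
  · rw [exA_apply, ArithmeticFunction.zeta_apply_ne hn]
    split_ifs
    · simpa using ex_norm_moebius n
    · simp

theorem exZ_norm (n : ℕ) : ‖exZ n‖ ≤ (ArithmeticFunction.zeta n : ℕ) := by
  rcases eq_or_ne n 0 with rfl | hn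
  · simp
  · rw [exZ_apply, if_neg hn, ArithmeticFunction.zeta_apply_ne hn]
    simp

theorem ex_norm_mul {f g : ArithmeticFunction ℂ} {F G : ArithmeticFunction ℕ}
    (hf : ∀ n, ‖f n‖ ≤ (F n : ℕ)) (hg : ∀ n, ‖g n‖ ≤ (G n : ℕ)) (n : ℕ) :
    ‖(f * g) n‖ ≤ ((F * G) n : ℕ) := by
  rw [ArithmeticFunction.mul_apply, ArithmeticFunction.mul_apply]
  push_cast
  refine (norm_sum_le _ _).trans (Finset.sum_le_sum fun x _ => ?_)
  rw [norm_mul]
  exact mul_le_mul (hf _) (hg _) (norm_nonneg _) (Nat.cast_nonneg _)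

/-- the ternary divisor function -/
noncomputable def exK : ArithmeticFunction ℕ :=
  (ArithmeticFunction.zeta * ArithmeticFunction.zeta) * ArithmeticFunction.zeta

theorem exK_cast : (exK : ArithmeticFunction ℂ) = (exZ * exZ) * exZ := by
  unfold exK exZ
  push_cast
  rfl

theorem ex_sum (f : ArithmeticFunction ℂ) {s : ℂ} (hs : 1 < s.re)
    (hf : ∀ n, ‖f n‖ ≤ (ArithmeticFunction.zeta n : ℕ)) : LSeriesSummable (fun n => f n) s := by
  refine LSeriesSummable_of_bounded_of_one_lt_re (m := 1) (fun n hn => ?_) hs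
  refine (hf n).trans ?_
  rw [ArithmeticFunction.zeta_apply_ne hn]
  simp

theorem exZ_L {s : ℂ} (hs : 1 < s.re) : LSeries (fun n => exZ n) s = riemannZeta s := by
  rw [← ArithmeticFunction.LSeries_zeta_eq_riemannZeta hs]
  refine LSeries_congr (fun {n} hn => ?_) s
  rw [exZ_apply, if_neg hn, ArithmeticFunction.zeta_apply_ne hn]
  simp

theorem exM_L (α : ℝ) {s : ℂ} (hs : 1 < s.re) :
    LSeries (fun n => exM α n) s = (riemannZeta (s + I * α))⁻¹ := by
  have hs' : 1 < (s + I * α).re := by simpa using hs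
  have h1 := ArithmeticFunction.LSeries_zeta_mul_Lseries_moebius hs'
  rw [ArithmeticFunction.LSeries_zeta_eq_riemannZeta hs'] at h1
  have h2 : LSeries (fun n => exM α n) s =
      LSeries (fun n => ((ArithmeticFunction.moebius n : ℤ) : ℂ)) (s + I * α) := by
    unfold LSeries
    refine tsum_congr fun n => ?_
    rcases eq_or_ne n 0 with rfl | hn
    · simp
    · rw [LSeries.term_of_ne_zero hn, LSeries.term_of_ne_zero hn, exM_apply]
      have hn' : (n : ℂ) ≠ 0 := by exact_mod_cast hn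
      rw [cpow_add _ _ hn', cpow_neg]
      have h3 : (n : ℂ) ^ s ≠ 0 := by simp [cpow_eq_zero_iff, hn']
      have h4 : (n : ℂ) ^ (I * α) ≠ 0 := by simp [cpow_eq_zero_iff, hn']
      field_simp
  rw [h2]
  exact eq_inv_of_mul_eq_one_right h1

theorem exA_L (N : ℕ) (s : ℂ) : LSeries (fun n => exA N n) s = Asum N s := by
  unfold LSeries Asum
  rw [tsum_eq_sum (s := Finset.Icc 1 N)]
  · refine Finset.sum_congr rfl fun n hn => ?_
    rw [Finset.mem_Icc] at hn
    rw [LSeries.term_of_ne_zero (by omega), exA_apply, if_pos hn.2, cpow_neg, div_eq_mul_inv]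
  · intro n hn
    rcases eq_or_ne n 0 with rfl | hn0
    · simp
    · rw [Finset.mem_Icc] at hn
      rw [LSeries.term_of_ne_zero hn0, exA_apply, if_neg (by omega), zero_div]

theorem ex_bound {f : ArithmeticFunction ℂ} (hf : ∀ n, ‖f n‖ ≤ (exK n : ℕ)) :
    (Summable fun n : ℕ => ‖f n‖ * ((n : ℝ) ^ 2)⁻¹) ∧
    (∑' n : ℕ, ‖f n‖ * ((n : ℝ) ^ 2)⁻¹ ≤ 8) := by
  have h2 : 1 < (2 : ℂ).re := by norm_num
  have hZ := ex_sum exZ h2 exZ_norm
  have hZZ := ArithmeticFunction.LSeriesSummable_mul hZ hZ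
  have hK : LSeriesSummable (fun n => (exZ * exZ * exZ) n) 2 :=
    ArithmeticFunction.LSeriesSummable_mul hZZ hZ
  have hval : LSeries (fun n => (exZ * exZ * exZ) n) 2 = riemannZeta 2 ^ 3 := by
    rw [ArithmeticFunction.LSeries_mul' hZZ hZ, ArithmeticFunction.LSeries_mul' hZ hZ, exZ_L h2]
    ring
  have hterm : ∀ n : ℕ, LSeries.term (fun n => (exZ * exZ * exZ) n) 2 n =
      (((exK n : ℝ) * ((n : ℝ) ^ 2)⁻¹ : ℝ) : ℂ) := by
    intro n
    rcases eq_or_ne n 0 with rfl | hn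
    · simp
    · rw [LSeries.term_of_ne_zero hn]
      have h3 : (exZ * exZ * exZ) n = ((exK n : ℕ) : ℂ) := by
        rw [← exK_cast, ArithmeticFunction.natCoe_apply]
      rw [h3]
      push_cast
      rw [div_eq_mul_inv]
      congr 2
      norm_num
  have hKs : Summable fun n : ℕ => (exK n : ℝ) * ((n : ℝ) ^ 2)⁻¹ := by
    have h3 : Summable fun n : ℕ => (((exK n : ℝ) * ((n : ℝ) ^ 2)⁻¹ : ℝ) : ℂ) := by
      refine hK.congr fun n => ?_
      exact hterm n
    exact Complex.summable_ofReal.1 h3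
  have hKt : (∑' n : ℕ, (exK n : ℝ) * ((n : ℝ) ^ 2)⁻¹) = (Real.pi ^ 2 / 6) ^ 3 := by
    have h3 : ((∑' n : ℕ, (exK n : ℝ) * ((n : ℝ) ^ 2)⁻¹ : ℝ) : ℂ) = riemannZeta 2 ^ 3 := by
      rw [Complex.ofReal_tsum, ← hval]
      unfold LSeries
      exact tsum_congr fun n => (hterm n).symm
    rw [riemannZeta_two] at h3
    exact_mod_cast h3
  have hle : ∀ n : ℕ, ‖f n‖ * ((n : ℝ) ^ 2)⁻¹ ≤ (exK n : ℝ) * ((n : ℝ) ^ 2)⁻¹ := fun n =>
    mul_le_mul_of_nonneg_right (hf n) (by positivity)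
  have hs : Summable fun n : ℕ => ‖f n‖ * ((n : ℝ) ^ 2)⁻¹ :=
    Summable.of_nonneg_of_le (fun n => by positivity) hle hKs
  refine ⟨hs, (hs.tsum_le_tsum hle hKs).trans ?_⟩
  rw [hKt]
  have hpi := Real.pi_lt_d2
  have hpi0 := Real.pi_pos
  have h6 : Real.pi ^ 2 / 6 ≤ 2 := by nlinarith
  calc (Real.pi ^ 2 / 6) ^ 3 ≤ 2 ^ 3 := pow_le_pow_left₀ (by positivity) h6 3
    _ = 8 := by norm_num

theorem expansion (α : ℝ) (N : ℕ) : ∃ c : ℕ → ℂ, c 0 = 0 ∧
    (∀ n : ℕ, 1 ≤ n → n ≤ N →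
      c n = (ArithmeticFunction.moebius n : ℂ) * (n : ℂ) ^ (-(I * α))) ∧
    (Summable fun n : ℕ => ‖c n‖ * ((n : ℝ) ^ 2)⁻¹) ∧
    (∑' n : ℕ, ‖c n‖ * ((n : ℝ) ^ 2)⁻¹ ≤ 8) ∧
    ∀ t : ℝ, riemannZeta (2 + I * t) / riemannZeta (2 + I * t + I * α) * Asum N (2 + I * t) =
      ∑' n : ℕ, c n * (n : ℂ) ^ (-(2 + I * t) : ℂ) := by
  have hb := ex_bound (f := exZ * exM α * exA N) (fun n => by
    unfold exK
    exact ex_norm_mul (ex_norm_mul exZ_norm (exM_norm α)) (exA_norm N) n)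
  refine ⟨fun n => (exZ * exM α * exA N) n, ArithmeticFunction.map_zero, ?_, hb.1, hb.2, ?_⟩
  · intro n hn hnN
    have h1 : (exZ * exM α * exA N) n =
        (exZ * exM α * ((ArithmeticFunction.moebius : ArithmeticFunction ℤ) :
          ArithmeticFunction ℂ)) n := by
      rw [ArithmeticFunction.mul_apply, ArithmeticFunction.mul_apply]
      refine Finset.sum_congr rfl fun x hx => ?_
      rw [Nat.mem_divisorsAntidiagonal] at hx
      have h2 : x.2 ≤ N := (Nat.le_of_dvd (by omega) ⟨x.1, by rw [← hx.1, mul_comm]⟩).trans hnN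
      rw [exA_apply, if_pos h2, ArithmeticFunction.intCoe_apply]
    have h3 : exZ * exM α * ((ArithmeticFunction.moebius : ArithmeticFunction ℤ) :
          ArithmeticFunction ℂ) = exM α := by
      rw [mul_comm exZ, mul_assoc]
      unfold exZ
      rw [ArithmeticFunction.coe_zeta_mul_coe_moebius, mul_one]
    show (exZ * exM α * exA N) n = _
    rw [h1, h3, exM_apply]
  · intro t
    have hs : 1 < (2 + I * (t : ℂ)).re := by simp
    have hZ := ex_sum exZ hs exZ_norm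
    have hM := ex_sum (exM α) hs (exM_norm α)
    have hA := ex_sum (exA N) hs (exA_norm N)
    have hZM := ArithmeticFunction.LSeriesSummable_mul hZ hM
    have h1 : LSeries (fun n => (exZ * exM α * exA N) n) (2 + I * t) =
        riemannZeta (2 + I * t) * (riemannZeta (2 + I * t + I * α))⁻¹ * Asum N (2 + I * t) := by
      rw [ArithmeticFunction.LSeries_mul' hZM hA, ArithmeticFunction.LSeries_mul' hZ hM, exZ_L hs,
        exM_L α hs, exA_L]
    rw [div_eq_mul_inv, ← h1]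
    unfold LSeries
    refine tsum_congr fun n => ?_
    exact LSeries.term_def₀ (by simp) _ _

end H2.Gap
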