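import Pool.Agent.H2.Gap.Defs

/-!
# The phase of the ratio of the Gamma factors on the critical line (MP_400eac_nt)

Euler's limit formula: `Γ(z)/Γ(z+ib) = lim n^(-ib) ∏ (1 + ib/(z+j))`.
-/

set_option autoImplicit false

namespace H2.Gap

open Complex Filter Topology Finset

private lemma zj_re (y : ℝ) (j : ℕ) : ((1 / 4 + I * y : ℂ) + j).re = 1 / 4 + j := by
  simp

private lemma zj_im (y : ℝ) (j : ℕ) : ((1 / 4 + I * y : ℂ) + j).im = y := by
  simp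

private lemma norm_zj_ge (y : ℝ) (j : ℕ) : y ≤ ‖(1 / 4 + I * y : ℂ) + j‖ := by
  have := abs_im_le_norm ((1 / 4 + I * y : ℂ) + j)
  rw [zj_im] at this
  exact le_trans (le_abs_self y) this

private lemma norm_zj_ge' (y : ℝ) (j : ℕ) : (j : ℝ) ≤ ‖(1 / 4 + I * y : ℂ) + j‖ := by
  have := abs_re_le_norm ((1 / 4 + I * y : ℂ) + j)
  rw [zj_re] at this
  have h2 := le_abs_self (1 / 4 + (j : ℝ))
  linarith

private lemma zj_ne (y : ℝ) (hy : 1 ≤ y) (j : ℕ) : (1 / 4 + I * y : ℂ) + j ≠ 0 := by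
  intro h
  have := norm_zj_ge y j
  rw [h, norm_zero] at this
  linarith

/-- tail of `∑ 1/j^2`. -/
private lemma sum_sq_le (m n : ℕ) (hm : 1 ≤ m) :
    ∑ j ∈ Ico m n, ((j : ℝ) ^ 2)⁻¹ ≤ 2 / m := by
  have h := sum_Ioo_inv_sq_le (α := ℝ) (m - 1) n
  have e : Ioo (m - 1) n = Ico m n := by
    ext x
    simp only [mem_Ioo, mem_Ico]
    omega
  rw [e] at h
  have e2 : (((m - 1 : ℕ) : ℝ) + 1) = m := by
    have : m - 1 + 1 = m := by omega
    exact_mod_cast this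
  rwa [e2] at h

private lemma sum_inv_bound (y : ℝ) (hy : 1 ≤ y) (n : ℕ) (hn : ⌈y⌉₊ ≤ n) :
    ‖(∑ j ∈ range (n + 1), 1 / ((1 / 4 + I * y : ℂ) + j)) -
      ((Real.log n - Real.log y : ℝ) : ℂ)‖ ≤ 6 := by
  set m := ⌈y⌉₊ with hmdef
  have hmy : y ≤ m := Nat.le_ceil y
  have hmy2 : (m : ℝ) < y + 1 := Nat.ceil_lt_add_one (by linarith)
  have hm1 : 1 ≤ m := by
    have : (1 : ℝ) ≤ m := le_trans hy hmy
    exact_mod_cast this
  have hy0 : 0 < y := by linarith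
  have hsplit : ∑ j ∈ range (n + 1), 1 / ((1 / 4 + I * y : ℂ) + j) =
      ∑ j ∈ range m, 1 / ((1 / 4 + I * y : ℂ) + j) +
        ∑ j ∈ Ico m (n + 1), 1 / ((1 / 4 + I * y : ℂ) + j) := by
    rw [range_eq_Ico, range_eq_Ico, sum_Ico_consecutive _ (Nat.zero_le _) (by omega)]
  have hA : ‖∑ j ∈ range m, 1 / ((1 / 4 + I * y : ℂ) + j)‖ ≤ 2 := by
    calc ‖∑ j ∈ range m, 1 / ((1 / 4 + I * y : ℂ) + j)‖
        ≤ ∑ j ∈ range m, (1 / y) := by
          refine norm_sum_le_of_le _ fun j _ => ?_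
          rw [norm_div, norm_one]
          exact one_div_le_one_div_of_le hy0 (norm_zj_ge y j)
      _ = m / y := by rw [sum_const, card_range, nsmul_eq_mul]; ring
      _ ≤ 2 := by rw [div_le_iff₀ hy0]; linarith
  have hz : ‖(1 / 4 + I * y : ℂ)‖ ≤ 5 / 4 * y := by
    calc ‖(1 / 4 + I * y : ℂ)‖ ≤ ‖(1 / 4 : ℂ)‖ + ‖I * (y : ℂ)‖ := norm_add_le _ _
      _ = 1 / 4 + y := by
          rw [norm_mul, norm_I, one_mul, norm_real, Real.norm_of_nonneg hy0.le]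
          norm_num
      _ ≤ 5 / 4 * y := by linarith
  have hB : ‖(∑ j ∈ Ico m (n + 1), 1 / ((1 / 4 + I * y : ℂ) + j)) -
      ∑ j ∈ Ico m (n + 1), (1 / (j : ℂ))‖ ≤ 5 / 2 := by
    rw [← sum_sub_distrib]
    calc ‖∑ j ∈ Ico m (n + 1), (1 / ((1 / 4 + I * y : ℂ) + j) - 1 / (j : ℂ))‖
        ≤ ∑ j ∈ Ico m (n + 1), (5 / 4 * y * ((j : ℝ) ^ 2)⁻¹) := by
          refine norm_sum_le_of_le _ fun j hj => ?_
          rw [mem_Ico] at hj
          have hj0 : (0 : ℝ) < j := by exact_mod_cast (by omega : 0 < j)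
          have hjc : (j : ℂ) ≠ 0 := by exact_mod_cast (by omega : j ≠ 0)
          have e : 1 / ((1 / 4 + I * y : ℂ) + j) - 1 / (j : ℂ) =
              -(1 / 4 + I * y : ℂ) / (((1 / 4 + I * y : ℂ) + j) * j) := by
            rw [div_sub_div _ _ (zj_ne y hy j) hjc]
            congr 1
            ring
          rw [e, norm_div, norm_neg, norm_mul, Complex.norm_natCast, ← div_eq_mul_inv]
          rw [div_le_div_iff₀ (mul_pos (lt_of_lt_of_le hj0 (norm_zj_ge' y j)) hj0) (by positivity)]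
          have h1 := norm_zj_ge' y j
          have h3 : (j : ℝ) ^ 2 ≤ ‖(1 / 4 + I * y : ℂ) + j‖ * j := by nlinarith
          calc ‖(1 / 4 + I * y : ℂ)‖ * (j : ℝ) ^ 2 ≤ (5 / 4 * y) * (j : ℝ) ^ 2 :=
                mul_le_mul_of_nonneg_right hz (by positivity)
            _ ≤ (5 / 4 * y) * (‖(1 / 4 + I * y : ℂ) + j‖ * j) :=
                mul_le_mul_of_nonneg_left h3 (by positivity)
      _ = 5 / 4 * y * ∑ j ∈ Ico m (n + 1), ((j : ℝ) ^ 2)⁻¹ := by rw [mul_sum]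
      _ ≤ 5 / 4 * y * (2 / m) := mul_le_mul_of_nonneg_left (sum_sq_le m (n + 1) hm1) (by positivity)
      _ ≤ 5 / 2 := by
          have hm0 : (0 : ℝ) < m := by linarith
          rw [mul_div_assoc', div_le_iff₀ hm0]
          linarith
  have hH : ∑ j ∈ Ico m (n + 1), (1 / (j : ℝ)) = (harmonic n : ℝ) - (harmonic (m - 1) : ℝ) := by
    rw [harmonic_eq_sum_Icc, harmonic_eq_sum_Icc]
    push_cast
    have e1 : Icc 1 n = Ico 1 (n + 1) := by ext x; simp only [mem_Icc, mem_Ico]; omega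
    have e2 : Icc 1 (m - 1) = Ico 1 m := by ext x; simp only [mem_Icc, mem_Ico]; omega
    rw [e1, e2, ← sum_Ico_consecutive (fun i : ℕ => ((i : ℝ))⁻¹) hm1 (by omega : m ≤ n + 1)]
    simp only [one_div]
    ring
  have hn0 : 1 ≤ n := le_trans hm1 hn
  have b1 := harmonic_le_one_add_log n
  have b2 := log_add_one_le_harmonic n
  have b3 := harmonic_le_one_add_log (m - 1)
  have b4 := log_add_one_le_harmonic (m - 1)
  have e4 : ((m - 1 + 1 : ℕ) : ℝ) = m := by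
    have : m - 1 + 1 = m := by omega
    exact_mod_cast this
  rw [e4] at b4
  have b5 : Real.log n ≤ Real.log ((n + 1 : ℕ) : ℝ) :=
    Real.log_le_log (by exact_mod_cast hn0) (by push_cast; linarith)
  have b6 : Real.log y ≤ Real.log m := Real.log_le_log hy0 hmy
  have b7 : Real.log ((m - 1 : ℕ) : ℝ) ≤ Real.log y := by
    rcases Nat.eq_zero_or_pos (m - 1) with h | h
    · rw [h]
      simp only [Nat.cast_zero, Real.log_zero]
      exact Real.log_nonneg hy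
    · refine Real.log_le_log (by exact_mod_cast h) ?_
      have : ((m - 1 : ℕ) : ℝ) = m - 1 := by
        rw [Nat.cast_sub hm1]; simp
      rw [this]
      linarith
  have hC : ‖(∑ j ∈ Ico m (n + 1), (1 / (j : ℂ))) - ((Real.log n - Real.log y : ℝ) : ℂ)‖ ≤ 1 := by
    have e : (∑ j ∈ Ico m (n + 1), (1 / (j : ℂ))) =
        ((∑ j ∈ Ico m (n + 1), (1 / (j : ℝ)) : ℝ) : ℂ) := by push_cast; rfl
    rw [e, ← ofReal_sub, norm_real, hH, Real.norm_eq_abs, abs_le]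
    constructor <;> linarith
  rw [hsplit]
  have : (∑ j ∈ range m, 1 / ((1 / 4 + I * y : ℂ) + j) +
        ∑ j ∈ Ico m (n + 1), 1 / ((1 / 4 + I * y : ℂ) + j)) -
      ((Real.log n - Real.log y : ℝ) : ℂ) =
      (∑ j ∈ range m, 1 / ((1 / 4 + I * y : ℂ) + j)) +
      ((∑ j ∈ Ico m (n + 1), 1 / ((1 / 4 + I * y : ℂ) + j)) -
        ∑ j ∈ Ico m (n + 1), (1 / (j : ℂ))) +
      ((∑ j ∈ Ico m (n + 1), (1 / (j : ℂ))) - ((Real.log n - Real.log y : ℝ) : ℂ)) := by ring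
  rw [this]
  refine le_trans (norm_add_le _ _) ?_
  have := norm_add_le (∑ j ∈ range m, 1 / ((1 / 4 + I * y : ℂ) + j))
    ((∑ j ∈ Ico m (n + 1), 1 / ((1 / 4 + I * y : ℂ) + j)) -
        ∑ j ∈ Ico m (n + 1), (1 / (j : ℂ)))
  linarith

/-- The product in exponential form. -/
private lemma prod_exp (y b : ℝ) (hy : 1 ≤ y) (hb : 0 < b) (hb1 : b ≤ 1 / 2) (n : ℕ) :
    ∃ e : ℂ, ‖e‖ ≤ 3 * b ^ 2 ∧
      ∏ j ∈ range (n + 1), (1 + I * b / ((1 / 4 + I * y : ℂ) + j)) =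
        cexp (I * b * (∑ j ∈ range (n + 1), 1 / ((1 / 4 + I * y : ℂ) + j)) + e) := by
  have hw : ∀ j : ℕ, ‖I * (b : ℂ) / ((1 / 4 + I * y : ℂ) + j)‖ =
      b / ‖(1 / 4 + I * y : ℂ) + j‖ := by
    intro j
    rw [norm_div, norm_mul, norm_I, one_mul, norm_real, Real.norm_of_nonneg hb.le]
  have hpos : ∀ j : ℕ, 0 < ‖(1 / 4 + I * y : ℂ) + j‖ := fun j => norm_pos_iff.mpr (zj_ne y hy j)
  have hw2 : ∀ j : ℕ, ‖I * (b : ℂ) / ((1 / 4 + I * y : ℂ) + j)‖ ≤ 1 / 2 := by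
    intro j
    rw [hw j, div_le_iff₀ (hpos j)]
    have := norm_zj_ge y j
    nlinarith
  have hne : ∀ j : ℕ, 1 + I * (b : ℂ) / ((1 / 4 + I * y : ℂ) + j) ≠ 0 := by
    intro j h
    have h1 : I * (b : ℂ) / ((1 / 4 + I * y : ℂ) + j) = -1 := by linear_combination h
    have h2 := hw2 j
    rw [h1, norm_neg, norm_one] at h2
    norm_num at h2
  refine ⟨∑ j ∈ range (n + 1), (log (1 + I * b / ((1 / 4 + I * y : ℂ) + j)) -
    I * b / ((1 / 4 + I * y : ℂ) + j)), ?_, ?_⟩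
  · have hterm : ∀ j : ℕ, ‖log (1 + I * b / ((1 / 4 + I * y : ℂ) + j)) -
        I * b / ((1 / 4 + I * y : ℂ) + j)‖ ≤ b ^ 2 * (‖(1 / 4 + I * y : ℂ) + j‖ ^ 2)⁻¹ := by
      intro j
      have h1 := norm_log_one_add_sub_self_le (lt_of_le_of_lt (hw2 j) (by norm_num : (1 / 2 : ℝ) < 1))
      refine le_trans h1 ?_
      have h2 : (1 - ‖I * (b : ℂ) / ((1 / 4 + I * y : ℂ) + j)‖)⁻¹ ≤ 2 := by
        rw [inv_le_comm₀ (by linarith [hw2 j]) (by norm_num)]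
        linarith [hw2 j]
      have h3 : ‖I * (b : ℂ) / ((1 / 4 + I * y : ℂ) + j)‖ ^ 2 =
          b ^ 2 * (‖(1 / 4 + I * y : ℂ) + j‖ ^ 2)⁻¹ := by
        rw [hw j, div_pow, div_eq_mul_inv]
      rw [h3]
      have h4 : 0 ≤ b ^ 2 * (‖(1 / 4 + I * y : ℂ) + j‖ ^ 2)⁻¹ := by positivity
      nlinarith
    refine le_trans (norm_sum_le_of_le _ fun j _ => hterm j) ?_
    rw [← mul_sum, mul_comm (3 : ℝ)]
    refine mul_le_mul_of_nonneg_left ?_ (by positivity)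
    rw [sum_range_succ', Nat.cast_zero]
    have h0 : (‖(1 / 4 + I * y : ℂ) + (0 : ℂ)‖ ^ 2)⁻¹ ≤ 1 := by
      have := norm_zj_ge y 0
      rw [Nat.cast_zero] at this
      refine inv_le_one_of_one_le₀ ?_
      nlinarith
    have h1 : ∑ k ∈ range n, (‖(1 / 4 + I * y : ℂ) + ((k + 1 : ℕ) : ℂ)‖ ^ 2)⁻¹ ≤ 2 := by
      calc ∑ k ∈ range n, (‖(1 / 4 + I * y : ℂ) + ((k + 1 : ℕ) : ℂ)‖ ^ 2)⁻¹
          ≤ ∑ k ∈ range n, (((k + 1 : ℕ) : ℝ) ^ 2)⁻¹ := by
            refine sum_le_sum fun k _ => ?_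
            have h5 := norm_zj_ge' y (k + 1)
            have h6 : (0 : ℝ) < ((k + 1 : ℕ) : ℝ) := by positivity
            exact inv_anti₀ (by positivity) (by gcongr)
        _ = ∑ j ∈ Ico 1 (n + 1), ((j : ℝ) ^ 2)⁻¹ := by
            rw [range_eq_Ico, sum_Ico_add' (fun j : ℕ => ((j : ℝ) ^ 2)⁻¹) 0 n 1]
        _ ≤ 2 / (1 : ℕ) := sum_sq_le 1 (n + 1) le_rfl
        _ = 2 := by norm_num
    linarith
  · have : I * b * (∑ j ∈ range (n + 1), 1 / ((1 / 4 + I * y : ℂ) + j)) +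
        ∑ j ∈ range (n + 1), (log (1 + I * b / ((1 / 4 + I * y : ℂ) + j)) -
          I * b / ((1 / 4 + I * y : ℂ) + j)) =
        ∑ j ∈ range (n + 1), log (1 + I * b / ((1 / 4 + I * y : ℂ) + j)) := by
      rw [mul_sum, ← sum_add_distrib]
      refine sum_congr rfl fun j _ => ?_
      ring
    rw [this, exp_sum]
    refine prod_congr rfl fun j _ => ?_
    rw [exp_log (hne j)]

private lemma exp_sub_one_bound (x : ℂ) (b : ℝ) (hb : 0 < b) (hb1 : b ≤ 1 / 2)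
    (hx : ‖x‖ ≤ 8 * b) : ‖cexp x - 1‖ ≤ 1000 * b := by
  rcases le_or_gt (8 * b) 1 with h | h
  · have := norm_exp_sub_one_le (le_trans hx h)
    nlinarith [norm_nonneg x]
  · have h1 : ‖cexp x‖ ≤ Real.exp 4 := by
      rw [Complex.norm_exp]
      refine Real.exp_le_exp.mpr ?_
      have := re_le_norm x
      linarith
    have h2 : Real.exp 4 ≤ 81 := by
      have h3 := Real.exp_one_lt_d9
      have h4 : Real.exp 4 = (Real.exp 1) ^ 4 := by rw [← Real.exp_nat_mul]; norm_num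
      rw [h4]
      have h5 : 0 < Real.exp 1 := Real.exp_pos 1
      calc (Real.exp 1) ^ 4 ≤ 3 ^ 4 := pow_le_pow_left₀ h5.le (by linarith) 4
        _ = 81 := by norm_num
    have h6 : ‖cexp x - 1‖ ≤ ‖cexp x‖ + 1 := by
      have := norm_sub_le (cexp x) 1
      rwa [norm_one] at this
    linarith

private lemma gamma_ratio_limit (y b : ℝ) (hy : 1 ≤ y) (hb : 0 < b) :
    Tendsto (fun n : ℕ => (n : ℂ) ^ (-(I * b) : ℂ) *
      ∏ j ∈ range (n + 1), (1 + I * b / ((1 / 4 + I * y : ℂ) + j))) atTop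
      (𝓝 (Gamma (1 / 4 + I * y) / Gamma (1 / 4 + I * y + I * b))) := by
  have hG : Gamma (1 / 4 + I * y + I * b) ≠ 0 := by
    refine Gamma_ne_zero fun m hm => ?_
    have := congrArg Complex.im hm
    simp at this
    linarith
  have h1 := (GammaSeq_tendsto_Gamma (1 / 4 + I * y)).div
    (GammaSeq_tendsto_Gamma (1 / 4 + I * y + I * b)) hG
  refine h1.congr' ?_
  filter_upwards [eventually_ge_atTop 1] with n hn
  have hn0 : (n : ℂ) ≠ 0 := by exact_mod_cast (by omega : n ≠ 0)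
  simp only [Pi.div_apply, GammaSeq]
  have hfac : ((n.factorial : ℕ) : ℂ) ≠ 0 := by exact_mod_cast n.factorial_ne_zero
  have hp1 : ∏ j ∈ range (n + 1), ((1 / 4 + I * y : ℂ) + j) ≠ 0 :=
    prod_ne_zero_iff.mpr fun j _ => zj_ne y hy j
  have hzb : ∀ j : ℕ, (1 / 4 + I * y + I * b : ℂ) + j ≠ 0 := by
    intro j h
    have := congrArg Complex.im h
    simp at this
    linarith
  have hp2 : ∏ j ∈ range (n + 1), ((1 / 4 + I * y + I * b : ℂ) + j) ≠ 0 :=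
    prod_ne_zero_iff.mpr fun j _ => hzb j
  have e1 : ∏ j ∈ range (n + 1), (1 + I * b / ((1 / 4 + I * y : ℂ) + j)) =
      (∏ j ∈ range (n + 1), ((1 / 4 + I * y + I * b : ℂ) + j)) /
        ∏ j ∈ range (n + 1), ((1 / 4 + I * y : ℂ) + j) := by
    rw [← prod_div_distrib]
    refine prod_congr rfl fun j _ => ?_
    have := zj_ne y hy j
    rw [eq_div_iff this, add_mul, div_mul_cancel₀ _ this]
    ring
  have e2 : (n : ℂ) ^ (1 / 4 + I * y + I * b : ℂ) = (n : ℂ) ^ (1 / 4 + I * y : ℂ) *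
      (n : ℂ) ^ (I * b : ℂ) := cpow_add _ _ hn0
  have e3 : (n : ℂ) ^ (-(I * b) : ℂ) = ((n : ℂ) ^ (I * b : ℂ))⁻¹ := cpow_neg _ _
  have hc1 : (n : ℂ) ^ (1 / 4 + I * y : ℂ) ≠ 0 := by
    rw [Ne, cpow_eq_zero_iff]; tauto
  have hc2 : (n : ℂ) ^ (I * b : ℂ) ≠ 0 := by
    rw [Ne, cpow_eq_zero_iff]; tauto
  rw [e1, e2, e3]
  generalize ∏ j ∈ range (n + 1), ((1 / 4 + I * y : ℂ) + j) = P1 at hp1 ⊢
  generalize ∏ j ∈ range (n + 1), ((1 / 4 + I * y + I * b : ℂ) + j) = P2 at hp2 ⊢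
  generalize (n : ℂ) ^ (1 / 4 + I * y : ℂ) = Q1 at hc1 ⊢
  generalize (n : ℂ) ^ (I * b : ℂ) = Q2 at hc2 ⊢
  generalize ((n.factorial : ℕ) : ℂ) = F1 at hfac ⊢
  field_simp

private lemma gamma_ratio_bound (y b : ℝ) (hy : 1 ≤ y) (hb : 0 < b) (hb1 : b ≤ 1 / 2) :
    ‖Gamma (1 / 4 + I * y) / Gamma (1 / 4 + I * y + I * b) -
      cexp (-(I * b * (Real.log y : ℂ)))‖ ≤ 1000 * b := by
  have hlim := (gamma_ratio_limit y b hy hb).sub_const (cexp (-(I * b * (Real.log y : ℂ))))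
  refine le_of_tendsto hlim.norm ?_
  filter_upwards [eventually_ge_atTop (max 1 ⌈y⌉₊)] with n hn
  have hn1 : 1 ≤ n := le_trans (le_max_left _ _) hn
  have hn2 : ⌈y⌉₊ ≤ n := le_trans (le_max_right _ _) hn
  obtain ⟨e, he, hprod⟩ := prod_exp y b hy hb hb1 n
  have hS := sum_inv_bound y hy n hn2
  set S := ∑ j ∈ range (n + 1), 1 / ((1 / 4 + I * y : ℂ) + j) with hSdef
  have hn0 : (n : ℂ) ≠ 0 := by exact_mod_cast (by omega : n ≠ 0)
  have hlogn : log (n : ℂ) = (Real.log n : ℂ) := by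
    rw [← ofReal_natCast, ← ofReal_log (Nat.cast_nonneg n)]
  have hpow : (n : ℂ) ^ (-(I * b) : ℂ) = cexp (-(I * b * (Real.log n : ℂ))) := by
    rw [cpow_def_of_ne_zero hn0, hlogn]
    congr 1
    ring
  rw [hprod, hpow, ← exp_add]
  have hfac : cexp (-(I * b * (Real.log n : ℂ)) + (I * b * S + e)) -
      cexp (-(I * b * (Real.log y : ℂ))) =
      cexp (-(I * b * (Real.log y : ℂ))) *
        (cexp (I * b * (S - ((Real.log n - Real.log y : ℝ) : ℂ)) + e) - 1) := by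
    rw [mul_sub, ← exp_add, mul_one]
    congr 2
    push_cast
    ring
  rw [hfac, norm_mul]
  have hn3 : ‖cexp (-(I * b * (Real.log y : ℂ)))‖ = 1 := by
    have : -(I * b * (Real.log y : ℂ)) = ((-(b * Real.log y) : ℝ) : ℂ) * I := by
      push_cast
      ring
    rw [this, norm_exp_ofReal_mul_I]
  rw [hn3, one_mul]
  refine exp_sub_one_bound _ b hb hb1 ?_
  refine le_trans (norm_add_le _ _) ?_
  rw [norm_mul, norm_mul, norm_I, one_mul, norm_real, Real.norm_of_nonneg hb.le]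
  nlinarith

theorem gfac_phase : ∃ C : ℝ, 0 < C ∧ ∀ α : ℝ, 0 < α → α ≤ 1 → ∀ t : ℝ, 2 ≤ t →
    ‖gfac α (1 / 2 + I * t) - cexp (-(I * ((α / 2 * Real.log (t / (2 * Real.pi)) : ℝ) : ℂ)))‖
      ≤ C * α := by
  refine ⟨500, by norm_num, fun α hα hα1 t ht => ?_⟩
  have hb := gamma_ratio_bound (t / 2) (α / 2) (by linarith) (by linarith) (by linarith)
  have hpi : (Real.pi : ℂ) ≠ 0 := by exact_mod_cast Real.pi_ne_zero
  have hlogpi : log (Real.pi : ℂ) = (Real.log Real.pi : ℂ) := (ofReal_log Real.pi_pos.le).symm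
  have e1 : gfac α (1 / 2 + I * t) = cexp (I * ((α / 2 : ℝ) : ℂ) * (Real.log Real.pi : ℂ)) *
      (Gamma (1 / 4 + I * ((t / 2 : ℝ) : ℂ)) /
        Gamma (1 / 4 + I * ((t / 2 : ℝ) : ℂ) + I * ((α / 2 : ℝ) : ℂ))) := by
    unfold gfac
    rw [Gammaℝ_def, Gammaℝ_def]
    have a1 : (1 / 2 + I * (t : ℂ)) / 2 = 1 / 4 + I * ((t / 2 : ℝ) : ℂ) := by
      push_cast
      ring
    have a2 : (1 / 2 + I * (t : ℂ) + I * (α : ℂ)) / 2 =
        1 / 4 + I * ((t / 2 : ℝ) : ℂ) + I * ((α / 2 : ℝ) : ℂ) := by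
      push_cast
      ring
    rw [a1, a2, mul_div_mul_comm]
    congr 1
    rw [cpow_def_of_ne_zero hpi, cpow_def_of_ne_zero hpi, ← exp_sub, hlogpi]
    congr 1
    push_cast
    ring
  have hlog : Real.log (t / (2 * Real.pi)) = Real.log (t / 2) - Real.log Real.pi := by
    rw [← Real.log_div (by linarith) Real.pi_ne_zero]
    congr 1
    field_simp
  have e2 : cexp (-(I * ((α / 2 * Real.log (t / (2 * Real.pi)) : ℝ) : ℂ))) =
      cexp (I * ((α / 2 : ℝ) : ℂ) * (Real.log Real.pi : ℂ)) *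
        cexp (-(I * ((α / 2 : ℝ) : ℂ) * (Real.log (t / 2) : ℂ))) := by
    rw [← exp_add, hlog]
    congr 1
    push_cast
    ring
  rw [e1, e2, ← mul_sub, norm_mul]
  have hn : ‖cexp (I * ((α / 2 : ℝ) : ℂ) * (Real.log Real.pi : ℂ))‖ = 1 := by
    have : I * ((α / 2 : ℝ) : ℂ) * (Real.log Real.pi : ℂ) =
        ((α / 2 * Real.log Real.pi : ℝ) : ℂ) * I := by
      push_cast
      ring
    rw [this, norm_exp_ofReal_mul_I]
  rw [hn, one_mul]
  linarith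

end H2.Gap
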