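import Pool.Agent.H2.Gap.Defs

/-!
# [H2 GAP SHIFT] shifting the contour: off-diagonal and diagonal terms

`g` is holomorphic and bounded by `G0` in `Im s ≥ 2`; `2 ≤ t1 ≤ t2`, `t2 - t1 ≤ 2T`,
`T/4 ≤ |t1 - T|`, `T/4 ≤ |t2 - T|`, `0 < D`, `2 ≤ l` (`l` is the parameter lambda).
PROOF. For `s = x + it`: `|W s| = exp(((x-1/2)^2 - (t-T)^2)/D^2)`, `|r^s| = r^x`
(`Complex.norm_cpow_eq_rpow_re_of_pos`). `f s = r^s g s W s` is holomorphic in `Im s ≥ 2`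
(differentiable at each point).
(off) Case `r < 1`: Cauchy on the rectangle `[2, l] × [t1, t2]`
(`Complex.integral_boundary_rect_eq_zero_of_differentiableOn`): the integral over `Re s = 2` equals
the integral over `Re s = l` plus two horizontal integrals. `|∫_{Re = l}| ≤ (t2-t1) r^l G0
exp((l+1)^2/D^2) ≤ 2T r^2 r^(l-2) G0 exp(..)`; horizontal: `(l-2) r^2 G0 exp(((l+1)^2-(T/4)^2)/D^2)`
each (`r^x ≤ r^2` for `x ≥ 2`). Case `r > 1`: rectangle `[-l, 2] × [t1,t2]`, `r^(-l) ≤ r^2 q^(l-2)`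
with `q = 1/r`, `r^x ≤ r^2` for `x ≤ 2`, length `l + 2 ≤ 2 l`; `(x-1/2)^2 ≤ (l+1)^2` on `[-l, l]`.
(diag) `r = 1`, rectangle `[1/2, 2] × [t1, t2]`: horizontal integrals are at most
`(3/2) G0 exp((9/4 - (T/4)^2)/D^2)` each.
-/

set_option autoImplicit false

namespace H2.Gap

open Complex

theorem sh_rect (F : ℂ → ℂ) (a b t1 t2 B : ℝ) (hab : a ≤ b) (h1 : 2 ≤ t1) (h12 : t1 ≤ t2)
    (hF : ∀ s : ℂ, 2 ≤ s.im → DifferentiableAt ℂ F s)
    (hB1 : ∀ x : ℝ, a ≤ x → x ≤ b → ‖F (x + I * t1)‖ ≤ B)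
    (hB2 : ∀ x : ℝ, a ≤ x → x ≤ b → ‖F (x + I * t2)‖ ≤ B) :
    ‖(∫ t in t1..t2, F (b + I * t)) - ∫ t in t1..t2, F (a + I * t)‖ ≤ 2 * (b - a) * B := by
  have hz1 : ((a : ℂ) + t1 * I).re = a := by simp
  have hz2 : ((a : ℂ) + t1 * I).im = t1 := by simp
  have hw1 : ((b : ℂ) + t2 * I).re = b := by simp
  have hw2 : ((b : ℂ) + t2 * I).im = t2 := by simp
  have H := integral_boundary_rect_eq_zero_of_differentiableOn F (a + t1 * I) (b + t2 * I) ?_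
  · rw [hz1, hz2, hw1, hw2] at H
    simp only [mul_comm _ I, smul_eq_mul] at H
    have e : I * ((∫ t in t1..t2, F (b + I * t)) - ∫ t in t1..t2, F (a + I * t)) =
        (∫ x in a..b, F (x + I * t2)) - ∫ x in a..b, F (x + I * t1) := by
      linear_combination H
    have e1 : ‖(∫ t in t1..t2, F (b + I * t)) - ∫ t in t1..t2, F (a + I * t)‖ =
        ‖(∫ x in a..b, F (x + I * t2)) - ∫ x in a..b, F (x + I * t1)‖ := by
      rw [← e, norm_mul, norm_I, one_mul]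
    rw [e1]
    have h3 : ‖∫ x in a..b, F (x + I * t2)‖ ≤ B * |b - a| := by
      refine intervalIntegral.norm_integral_le_of_norm_le_const fun x hx => ?_
      rw [Set.uIoc_of_le hab] at hx
      exact hB2 x hx.1.le hx.2
    have h4 : ‖∫ x in a..b, F (x + I * t1)‖ ≤ B * |b - a| := by
      refine intervalIntegral.norm_integral_le_of_norm_le_const fun x hx => ?_
      rw [Set.uIoc_of_le hab] at hx
      exact hB1 x hx.1.le hx.2
    rw [abs_of_nonneg (by linarith)] at h3 h4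
    refine (norm_sub_le _ _).trans ?_
    linarith
  · rw [hz1, hz2, hw1, hw2]
    intro s hs
    refine (hF s ?_).differentiableWithinAt
    have h3 := hs.2
    rw [Set.mem_preimage, Set.uIcc_of_le h12] at h3
    linarith [h3.1]

theorem sh_norm_Wt (T D x t : ℝ) :
    ‖Wt T D (x + I * t)‖ = Real.exp (((x - 1 / 2) ^ 2 - (t - T) ^ 2) / D ^ 2) := by
  unfold Wt
  rw [norm_exp]
  congr 1
  have e1 : ((x : ℂ) + I * t - 1 / 2 - I * T) ^ 2 / (D : ℂ) ^ 2 =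
      ((((x - 1 / 2) ^ 2 - (t - T) ^ 2) / D ^ 2 : ℝ) : ℂ) +
        ((2 * (x - 1 / 2) * (t - T) / D ^ 2 : ℝ) : ℂ) * I := by
    push_cast
    by_cases hD : (D : ℂ) ^ 2 = 0
    · rw [hD]
      simp
    · field_simp
      ring_nf
      rw [I_sq]
      ring
  rw [e1]
  simp [-ofReal_div, -ofReal_mul, -ofReal_sub, -ofReal_pow]

theorem sh_differentiable_Wt (T D : ℝ) (s : ℂ) : DifferentiableAt ℂ (Wt T D) s := by
  unfold Wt
  fun_prop

theorem sh_exp_le {D A B : ℝ} (h : A ≤ B) :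
    Real.exp (A / D ^ 2) ≤ Real.exp (B / D ^ 2) :=
  Real.exp_le_exp.2 (div_le_div_of_nonneg_right h (by positivity))

theorem sh_sq {T t : ℝ} (hT : 0 < T) (h : T / 4 ≤ |t - T|) : (T / 4) ^ 2 ≤ (t - T) ^ 2 := by
  rw [← sq_abs (t - T)]
  exact pow_le_pow_left₀ (by positivity) h 2

/-- the bound of the integrand -/
theorem sh_bound (g : ℂ → ℂ) (G0 T D r : ℝ) (hg : ∀ s : ℂ, 2 ≤ s.im → ‖g s‖ ≤ G0)
    (hr : 0 < r) (x t R V : ℝ) (ht : 2 ≤ t) (hR : r ^ x ≤ R)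
    (hV : (x - 1 / 2) ^ 2 - (t - T) ^ 2 ≤ V) :
    ‖((r : ℂ) ^ ((x : ℂ) + I * t)) * (g (x + I * t) * Wt T D (x + I * t))‖ ≤
      R * (G0 * Real.exp (V / D ^ 2)) := by
  rw [norm_mul, norm_mul, sh_norm_Wt, norm_cpow_eq_rpow_re_of_pos hr]
  have h1 : ((x : ℂ) + I * t).re = x := by simp
  have h2 : ((x : ℂ) + I * t).im = t := by simp
  rw [h1]
  have h3 := hg (x + I * t) (by rw [h2]; exact ht)
  have h4 : 0 ≤ r ^ x := (Real.rpow_pos_of_pos hr x).le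
  exact mul_le_mul hR (mul_le_mul h3 (sh_exp_le hV) (Real.exp_pos _).le
    ((norm_nonneg _).trans h3)) (by positivity) (h4.trans hR)

theorem shift_off (g : ℂ → ℂ) (G0 T D l t1 t2 r : ℝ) (hg : ∀ s : ℂ, 2 ≤ s.im → ‖g s‖ ≤ G0)
    (hgd : ∀ s : ℂ, 2 ≤ s.im → DifferentiableAt ℂ g s) (hD : 0 < D) (hl : 2 ≤ l) (hT : 0 < T)
    (h1 : 2 ≤ t1) (h12 : t1 ≤ t2) (h2T : t2 - t1 ≤ 2 * T) (hT1 : T / 4 ≤ |t1 - T|)
    (hT2 : T / 4 ≤ |t2 - T|) (hr : 0 < r) (hr1 : r ≠ 1) :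
    ‖∫ t in t1..t2, ((r : ℂ) ^ (2 + I * t : ℂ)) * (g (2 + I * t) * Wt T D (2 + I * t))‖ ≤
      r ^ 2 * G0 * (2 * T * Real.exp ((l + 1) ^ 2 / D ^ 2) * (min r (1 / r)) ^ (l - 2) +
        4 * l * Real.exp (((l + 1) ^ 2 - (T / 4) ^ 2) / D ^ 2)) := by
  have hG0 : 0 ≤ G0 := (norm_nonneg _).trans (hg (2 * I) (by simp))
  set F : ℂ → ℂ := fun s => (r : ℂ) ^ s * (g s * Wt T D s) with hFdef
  have hFd : ∀ s : ℂ, 2 ≤ s.im → DifferentiableAt ℂ F s := by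
    intro s hs
    have h0 : (r : ℂ) ≠ 0 := by exact_mod_cast hr.ne'
    have e1 : DifferentiableAt ℂ (fun s : ℂ => (r : ℂ) ^ s) s :=
      differentiableAt_id.const_cpow (Or.inl h0)
    exact e1.mul ((hgd s hs).mul (sh_differentiable_Wt T D s))
  have h2 : 2 ≤ t2 := h1.trans h12
  have hsq1 := sh_sq hT hT1
  have hsq2 := sh_sq hT hT2
  have hr2 : r ^ (2 : ℝ) = r ^ 2 := Real.rpow_two r
  have hx : ∀ x : ℝ, -l ≤ x → x ≤ l → (x - 1 / 2) ^ 2 ≤ (l + 1) ^ 2 := by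
    intro x hx1 hx2
    refine sq_le_sq' ?_ ?_ <;> linarith
  have hgoal : (∫ t in t1..t2, ((r : ℂ) ^ (2 + I * t : ℂ)) * (g (2 + I * t) * Wt T D (2 + I * t)))
      = ∫ t in t1..t2, F (((2 : ℝ) : ℂ) + I * t) := by
    simp only [hFdef, ofReal_ofNat]
  rw [hgoal]
  -- the integral over a vertical line
  have hline : ∀ x : ℝ, -l ≤ x → x ≤ l → ∀ R : ℝ, r ^ x ≤ R →
      ‖∫ t in t1..t2, F ((x : ℂ) + I * t)‖ ≤
        R * (G0 * Real.exp ((l + 1) ^ 2 / D ^ 2)) * (2 * T) := by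
    intro x hx1 hx2 R hR
    have hR0 : 0 ≤ R := (Real.rpow_pos_of_pos hr x).le.trans hR
    have h3 : ‖∫ t in t1..t2, F ((x : ℂ) + I * t)‖ ≤
        R * (G0 * Real.exp ((l + 1) ^ 2 / D ^ 2)) * |t2 - t1| := by
      refine intervalIntegral.norm_integral_le_of_norm_le_const fun t ht => ?_
      rw [Set.uIoc_of_le h12] at ht
      refine sh_bound g G0 T D r hg hr x t R _ (by linarith [ht.1]) hR ?_
      have := hx x hx1 hx2
      nlinarith [sq_nonneg (t - T)]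
    refine h3.trans ?_
    rw [abs_of_nonneg (by linarith)]
    exact mul_le_mul_of_nonneg_left h2T (by positivity)
  have hedge : ∀ x : ℝ, -l ≤ x → x ≤ l → r ^ x ≤ r ^ 2 → ∀ t : ℝ, 2 ≤ t →
      (T / 4) ^ 2 ≤ (t - T) ^ 2 →
      ‖F ((x : ℂ) + I * t)‖ ≤ r ^ 2 * (G0 * Real.exp (((l + 1) ^ 2 - (T / 4) ^ 2) / D ^ 2)) := by
    intro x hx1 hx2 hR t ht hts
    refine sh_bound g G0 T D r hg hr x t _ _ ht hR ?_
    have := hx x hx1 hx2
    linarith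
  set E : ℝ := Real.exp (((l + 1) ^ 2 - (T / 4) ^ 2) / D ^ 2) with hE
  set V : ℝ := Real.exp ((l + 1) ^ 2 / D ^ 2) with hV
  have hE0 : 0 < E := Real.exp_pos _
  have hV0 : 0 < V := Real.exp_pos _
  rcases lt_or_gt_of_ne hr1 with hlt | hgt
  · -- `r < 1`
    have hmin : min r (1 / r) = r := by
      refine min_eq_left ?_
      rw [le_div_iff₀ hr]
      nlinarith
    rw [hmin]
    have hpow : ∀ x : ℝ, 2 ≤ x → r ^ x ≤ r ^ 2 := by
      intro x hx2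
      rw [← hr2]
      exact Real.rpow_le_rpow_of_exponent_ge hr hlt.le hx2
    have h3 := sh_rect F 2 l t1 t2 _ hl h1 h12 hFd
      (fun x hx1 hx2 => hedge x (by linarith) hx2 (hpow x hx1) t1 h1 hsq1)
      (fun x hx1 hx2 => hedge x (by linarith) hx2 (hpow x hx1) t2 h2 hsq2)
    have h4 := hline l (by linarith) le_rfl (r ^ 2 * r ^ (l - 2)) (by
      rw [← hr2, ← Real.rpow_add hr]
      exact le_of_eq (by congr 1; ring))
    have h5 : ‖∫ t in t1..t2, F (((2 : ℝ) : ℂ) + I * t)‖ ≤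
        ‖∫ t in t1..t2, F ((l : ℂ) + I * t)‖ +
        ‖(∫ t in t1..t2, F ((l : ℂ) + I * t)) - ∫ t in t1..t2, F (((2 : ℝ) : ℂ) + I * t)‖ := by
      have := norm_sub_le (∫ t in t1..t2, F ((l : ℂ) + I * t))
        ((∫ t in t1..t2, F ((l : ℂ) + I * t)) - ∫ t in t1..t2, F (((2 : ℝ) : ℂ) + I * t))
      simpa using this
    have h6 : 0 ≤ r ^ 2 * (G0 * E) := by positivity
    refine h5.trans ?_
    refine (add_le_add h4 h3).trans ?_
    have h7 : 2 * (l - 2) * (r ^ 2 * (G0 * E)) ≤ 4 * l * (r ^ 2 * (G0 * E)) :=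
      mul_le_mul_of_nonneg_right (by linarith) h6
    refine (add_le_add_right h7 _).trans (le_of_eq ?_)
    ring
  · -- `r > 1`
    have hr1' : 1 ≤ r := le_of_lt hgt
    have hmin : min r (1 / r) = 1 / r := by
      refine min_eq_right ?_
      rw [div_le_iff₀ hr]
      nlinarith
    rw [hmin]
    have hpow : ∀ x : ℝ, x ≤ 2 → r ^ x ≤ r ^ 2 := by
      intro x hx2
      rw [← hr2]
      exact Real.rpow_le_rpow_of_exponent_le hr1' hx2
    have h3 := sh_rect F (-l) 2 t1 t2 _ (by linarith) h1 h12 hFd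
      (fun x hx1 hx2 => hedge x hx1 (by linarith) (hpow x hx2) t1 h1 hsq1)
      (fun x hx1 hx2 => hedge x hx1 (by linarith) (hpow x hx2) t2 h2 hsq2)
    have h4 := hline (-l) le_rfl (by linarith) (r ^ 2 * (1 / r) ^ (l - 2)) (by
      rw [one_div, Real.inv_rpow hr.le, ← Real.rpow_neg hr.le, ← hr2, ← Real.rpow_add hr]
      exact Real.rpow_le_rpow_of_exponent_le hr1' (by linarith))
    have h5 : ‖∫ t in t1..t2, F (((2 : ℝ) : ℂ) + I * t)‖ ≤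
        ‖∫ t in t1..t2, F (((-l : ℝ) : ℂ) + I * t)‖ +
        ‖(∫ t in t1..t2, F (((2 : ℝ) : ℂ) + I * t)) -
          ∫ t in t1..t2, F (((-l : ℝ) : ℂ) + I * t)‖ := by
      have := norm_add_le (∫ t in t1..t2, F (((-l : ℝ) : ℂ) + I * t))
        ((∫ t in t1..t2, F (((2 : ℝ) : ℂ) + I * t)) - ∫ t in t1..t2, F (((-l : ℝ) : ℂ) + I * t))
      simpa using this
    have h6 : 0 ≤ r ^ 2 * (G0 * E) := by positivity
    refine h5.trans ?_
    refine (add_le_add h4 h3).trans ?_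
    have h7 : 2 * (2 - -l) * (r ^ 2 * (G0 * E)) ≤ 4 * l * (r ^ 2 * (G0 * E)) :=
      mul_le_mul_of_nonneg_right (by linarith) h6
    refine (add_le_add_right h7 _).trans (le_of_eq ?_)
    ring

theorem shift_diag (g : ℂ → ℂ) (G0 T D t1 t2 : ℝ) (hg : ∀ s : ℂ, 2 ≤ s.im → ‖g s‖ ≤ G0)
    (hgd : ∀ s : ℂ, 2 ≤ s.im → DifferentiableAt ℂ g s) (hD : 0 < D) (hT : 0 < T)
    (h1 : 2 ≤ t1) (h12 : t1 ≤ t2) (hT1 : T / 4 ≤ |t1 - T|) (hT2 : T / 4 ≤ |t2 - T|) :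
    ‖(∫ t in t1..t2, g (2 + I * t) * Wt T D (2 + I * t)) -
        ∫ t in t1..t2, g (1 / 2 + I * t) * ((Real.exp (-((t - T) ^ 2 / D ^ 2)) : ℝ) : ℂ)‖ ≤
      3 * G0 * Real.exp ((9 / 4 - (T / 4) ^ 2) / D ^ 2) := by
  set F : ℂ → ℂ := fun s => g s * Wt T D s with hFdef
  have hFd : ∀ s : ℂ, 2 ≤ s.im → DifferentiableAt ℂ F s := fun s hs =>
    (hgd s hs).mul (sh_differentiable_Wt T D s)
  have h2 : 2 ≤ t2 := h1.trans h12
  have hsq1 := sh_sq hT hT1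
  have hsq2 := sh_sq hT hT2
  have hedge : ∀ x : ℝ, 1 / 2 ≤ x → x ≤ 2 → ∀ t : ℝ, 2 ≤ t → (T / 4) ^ 2 ≤ (t - T) ^ 2 →
      ‖F ((x : ℂ) + I * t)‖ ≤ G0 * Real.exp ((9 / 4 - (T / 4) ^ 2) / D ^ 2) := by
    intro x hx1 hx2 t ht hts
    simp only [hFdef]
    rw [norm_mul, sh_norm_Wt]
    have h4 : ((x : ℂ) + I * t).im = t := by simp
    have h3 := hg (x + I * t) (by rw [h4]; exact ht)
    refine mul_le_mul h3 (sh_exp_le ?_) (Real.exp_pos _).le ((norm_nonneg _).trans h3)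
    nlinarith
  have h3 := sh_rect F (1 / 2) 2 t1 t2 _ (by norm_num) h1 h12 hFd
    (fun x hx1 hx2 => hedge x hx1 hx2 t1 h1 hsq1) (fun x hx1 hx2 => hedge x hx1 hx2 t2 h2 hsq2)
  have e1 : (∫ t in t1..t2, g (2 + I * t) * Wt T D (2 + I * t)) =
      ∫ t in t1..t2, F (((2 : ℝ) : ℂ) + I * t) := by
    simp only [hFdef, ofReal_ofNat]
  have e2 : (∫ t in t1..t2, g (1 / 2 + I * t) * ((Real.exp (-((t - T) ^ 2 / D ^ 2)) : ℝ) : ℂ)) =
      ∫ t in t1..t2, F (((1 / 2 : ℝ) : ℂ) + I * t) := by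
    refine intervalIntegral.integral_congr fun t _ => ?_
    simp only [hFdef]
    have e3 : (((1 / 2 : ℝ) : ℂ)) = 1 / 2 := by push_cast; rfl
    rw [e3]
    congr 1
    unfold Wt
    rw [ofReal_exp]
    congr 1
    push_cast
    have e4 : ((1 : ℂ) / 2 + I * t - 1 / 2 - I * T) ^ 2 = -((t : ℂ) - T) ^ 2 := by
      have : ((1 : ℂ) / 2 + I * t - 1 / 2 - I * T) = I * (t - T) := by ring
      rw [this, mul_pow, I_sq]
      ring
    rw [e4]
    ring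
  rw [e1, e2]
  refine h3.trans (le_of_eq ?_)
  ring

end H2.Gap
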