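import Pool.Agent.H2.Gap.Expand
import Pool.Agent.H2.Gap.GamAbs
import Pool.Agent.H2.Gap.Shift

/-!
# [H2 GAP INTER] the integral over `Re s = 2` as a double sum

`J r = ∫_{t1}^{t2} r^(2+it) g(2+it) W(2+it) dt`, `g = gfac α`.
PROOF. On `Re s = 2`: `Λ s = Gammaℝ s * ζ s` (`riemannZeta_def_of_ne_zero`, `Gammaℝ ≠ 0`:
`Gammaℝ_ne_zero_of_re_pos`), so `Gr α s = gfac α s * (ζ s/ζ(s+iα))`. With `expansion`:
`Gr α s * (A s B s W s) = g s W s (∑' n, c n n^(-s)) (∑_{m ≤ N} μ m m^(s-1))
= ∑' n, ∑_{m ≤ N} c n (μ m/m) (m/n)^s g s W s` (`m^(s-1) = m^s/m`, `(m/n)^s = m^s n^(-s)` for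
positive reals). Integrate termwise (`intervalIntegral.hasSum_integral_of_dominated_convergence`, or
`hasSum_intervalIntegral_of_summable_norm`): for fixed `m` the `n`-th term is at most
`|c n| n^(-2) * m * sup |g W|` on the compact interval, summable; `t ↦ g W` is continuous there.
The term `n = 0` vanishes since `c 0 = 0`.
-/

set_option autoImplicit false

namespace H2.Gap

open Complex Finset

/-- The integral attached to a ratio `r = m/n`. -/
noncomputable def Jint (α T D t1 t2 r : ℝ) : ℂ :=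
  ∫ t in t1..t2, ((r : ℂ) ^ (2 + I * t : ℂ)) * (gfac α (2 + I * t) * Wt T D (2 + I * t))

theorem in_cont (α T D t1 t2 : ℝ) (hα : 0 ≤ α) (h1 : 2 ≤ t1) :
    ContinuousOn (fun t : ℝ => gfac α (2 + I * t) * Wt T D (2 + I * t)) (Set.Icc t1 t2) := by
  intro t ht
  have h2 : 0 < (2 + I * (t : ℂ)).im := by
    have : (2 + I * (t : ℂ)).im = t := by simp
    rw [this]
    linarith [ht.1]
  have hc : ContinuousAt (fun t : ℝ => (2 + I * (t : ℂ))) t := by fun_prop
  have e1 : ContinuousAt (fun t : ℝ => gfac α (2 + I * t)) t :=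
    ContinuousAt.comp (f := fun t : ℝ => (2 + I * (t : ℂ))) (g := gfac α)
      (differentiableAt_gfac α hα _ h2).continuousAt hc
  have e2 : ContinuousAt (fun t : ℝ => Wt T D (2 + I * t)) t :=
    ContinuousAt.comp (f := fun t : ℝ => (2 + I * (t : ℂ))) (g := Wt T D)
      (sh_differentiable_Wt T D _).continuousAt hc
  exact (e1.mul e2).continuousWithinAt

theorem in_cpow (r : ℝ) (hr : 0 < r) : Continuous fun t : ℝ => (r : ℂ) ^ (2 + I * t : ℂ) := by
  have h0 : (r : ℂ) ≠ 0 := by exact_mod_cast hr.ne'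
  have h1 : Continuous fun t : ℝ => (2 + I * t : ℂ) := by fun_prop
  exact h1.const_cpow (Or.inl h0)

theorem in_Gr (α t : ℝ) : Gr α (2 + I * t) =
    riemannZeta (2 + I * t) / riemannZeta (2 + I * t + I * α) * gfac α (2 + I * t) := by
  have h1 : 0 < (2 + I * (t : ℂ)).re := by simp
  have h2 : 0 < (2 + I * (t : ℂ) + I * α).re := by simp
  have n1 : (2 + I * (t : ℂ)) ≠ 0 := by
    intro h
    rw [h] at h1
    simp at h1
  have n2 : (2 + I * (t : ℂ) + I * α) ≠ 0 := by
    intro h
    rw [h] at h2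
    simp at h2
  have g1 := Gammaℝ_ne_zero_of_re_pos h1
  have g2 := Gammaℝ_ne_zero_of_re_pos h2
  unfold Gr gfac
  rw [riemannZeta_def_of_ne_zero n1, riemannZeta_def_of_ne_zero n2]
  by_cases h0 : completedRiemannZeta (2 + I * (t : ℂ) + I * α) = 0
  · rw [h0]
    simp
  · field_simp

theorem in_norm (α T D t : ℝ) (hα : 0 ≤ α) (hα1 : α ≤ 1) (ht : 2 ≤ t) :
    ‖gfac α (2 + I * t) * Wt T D (2 + I * t)‖ ≤
      Real.exp (4 * α) * Real.exp ((9 / 4) / D ^ 2) := by
  rw [norm_mul]
  have h1 := norm_gfac_le α hα hα1 (2 + I * t) (by simpa using ht)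
  have h2 := sh_norm_Wt T D 2 t
  rw [ofReal_ofNat] at h2
  rw [h2]
  refine mul_le_mul h1 (sh_exp_le ?_) (Real.exp_pos _).le (Real.exp_pos _).le
  nlinarith [sq_nonneg (t - T)]

theorem inter (α T D t1 t2 : ℝ) (N : ℕ) (hα : 0 ≤ α) (hα1 : α ≤ 1) (hD : 0 < D) (h1 : 2 ≤ t1)
    (h12 : t1 ≤ t2) (c : ℕ → ℂ) (hc0 : c 0 = 0)
    (hc1 : Summable fun n : ℕ => ‖c n‖ * ((n : ℝ) ^ 2)⁻¹)
    (hc2 : ∀ t : ℝ, riemannZeta (2 + I * t) / riemannZeta (2 + I * t + I * α) *
      Asum N (2 + I * t) = ∑' n : ℕ, c n * (n : ℂ) ^ (-(2 + I * t) : ℂ)) :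
    HasSum (fun n : ℕ => ∑ m ∈ Icc 1 N, c n * ((ArithmeticFunction.moebius m : ℂ) / m) *
        Jint α T D t1 t2 ((m : ℝ) / n))
      (∫ t in t1..t2, Gr α (2 + I * t) *
        (Asum N (2 + I * t) * Bsum N (2 + I * t) * Wt T D (2 + I * t))) := by
  set gW : ℝ → ℂ := fun t => gfac α (2 + I * t) * Wt T D (2 + I * t) with hgW
  set F : ℕ → ℝ → ℂ := fun n t => ∑ m ∈ Icc 1 N,
    c n * ((ArithmeticFunction.moebius m : ℂ) / m) *
      ((((m : ℝ) / n : ℝ) : ℂ) ^ (2 + I * t : ℂ) * gW t) with hF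
  have hcont : ∀ n : ℕ, ContinuousOn (F n) (Set.Icc t1 t2) := by
    intro n
    rcases eq_or_ne n 0 with rfl | hn
    · simp only [hF, hc0, zero_mul, sum_const_zero]
      exact continuousOn_const
    · refine continuousOn_finsetSum _ fun m hm => ?_
      rw [mem_Icc] at hm
      have hr : 0 < (m : ℝ) / n := by
        have : 0 < m := by omega
        have : 0 < n := Nat.pos_of_ne_zero hn
        positivity
      exact continuousOn_const.mul ((in_cpow _ hr).continuousOn.mul (in_cont α T D t1 t2 hα h1))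
  -- integral of the terms
  have hint : ∀ n : ℕ, ∫ t in t1..t2, F n t = ∑ m ∈ Icc 1 N,
      c n * ((ArithmeticFunction.moebius m : ℂ) / m) * Jint α T D t1 t2 ((m : ℝ) / n) := by
    intro n
    rcases eq_or_ne n 0 with rfl | hn
    · simp only [hF, hc0, zero_mul, sum_const_zero, intervalIntegral.integral_zero]
    · simp only [hF]
      rw [intervalIntegral.integral_finsetSum]
      · refine sum_congr rfl fun m _ => ?_
        rw [intervalIntegral.integral_const_mul]
        rfl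
      · intro m hm
        rw [mem_Icc] at hm
        have hr : 0 < (m : ℝ) / n := by
          have : 0 < m := by omega
          have : 0 < n := Nat.pos_of_ne_zero hn
          positivity
        refine ContinuousOn.intervalIntegrable ?_
        rw [Set.uIcc_of_le h12]
        exact continuousOn_const.mul ((in_cpow _ hr).continuousOn.mul
          (in_cont α T D t1 t2 hα h1))
  have hconv : (fun n : ℕ => ∑ m ∈ Icc 1 N, c n * ((ArithmeticFunction.moebius m : ℂ) / m) *
        Jint α T D t1 t2 ((m : ℝ) / n)) = fun n => ∫ t in t1..t2, F n t := by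
    funext n
    rw [hint n]
  rw [hconv]
  set G : ℝ := Real.exp (4 * α) * Real.exp ((9 / 4) / D ^ 2) with hG
  set K : ℝ := (∑ m ∈ Icc 1 N, (m : ℝ)) * G with hK
  refine intervalIntegral.hasSum_integral_of_dominated_convergence
    (fun n _ => ‖c n‖ * ((n : ℝ) ^ 2)⁻¹ * K) ?_ ?_ ?_ ?_ ?_
  · intro n
    rw [Set.uIoc_of_le h12]
    exact ((hcont n).mono Set.Ioc_subset_Icc_self).aestronglyMeasurable measurableSet_Ioc
  · intro n
    refine Filter.Eventually.of_forall fun t ht => ?_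
    rw [Set.uIoc_of_le h12] at ht
    rcases eq_or_ne n 0 with rfl | hn
    · simp [hF, hc0]
    · have hnpos : (0 : ℝ) < n := by exact_mod_cast Nat.pos_of_ne_zero hn
      have hg : ‖gW t‖ ≤ G := in_norm α T D t hα hα1 (by linarith [ht.1])
      simp only [hF]
      refine (norm_sum_le _ _).trans ?_
      rw [hK, sum_mul, mul_sum]
      refine sum_le_sum fun m hm => ?_
      rw [mem_Icc] at hm
      have hmpos : (0 : ℝ) < m := by exact_mod_cast (by omega : 0 < m)
      have hr : 0 < (m : ℝ) / n := by positivity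
      rw [norm_mul, norm_mul, norm_mul, norm_div, norm_cpow_eq_rpow_re_of_pos hr]
      have e1 : (2 + I * (t : ℂ)).re = 2 := by simp
      rw [e1, Real.rpow_two, Complex.norm_natCast]
      have e2 : ‖((ArithmeticFunction.moebius m : ℤ) : ℂ)‖ ≤ 1 := ex_norm_moebius m
      calc ‖c n‖ * (‖((ArithmeticFunction.moebius m : ℤ) : ℂ)‖ / m) * (((m : ℝ) / n) ^ 2 * ‖gW t‖)
          ≤ ‖c n‖ * (1 / m) * (((m : ℝ) / n) ^ 2 * G) := by
            gcongr
        _ = ‖c n‖ * ((n : ℝ) ^ 2)⁻¹ * (m * G) := by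
            field_simp
  · exact Filter.Eventually.of_forall fun t _ => hc1.mul_right K
  · exact intervalIntegrable_const
  · refine Filter.Eventually.of_forall fun t ht => ?_
    have hs : Summable fun n : ℕ => c n * (n : ℂ) ^ (-(2 + I * t) : ℂ) := by
      refine Summable.of_norm_bounded hc1 fun n => ?_
      rcases eq_or_ne n 0 with rfl | hn
      · simp [hc0]
      · rw [norm_mul, norm_natCast_cpow_of_pos (Nat.pos_of_ne_zero hn)]
        have e1 : (-(2 + I * (t : ℂ))).re = -2 := by simp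
        rw [e1, Real.rpow_neg (Nat.cast_nonneg n), Real.rpow_two]
    have hS := hs.hasSum
    rw [← hc2 t] at hS
    have hS2 := hS.mul_right (Bsum N (2 + I * t) * gW t)
    have e1 : riemannZeta (2 + I * t) / riemannZeta (2 + I * t + I * α) * Asum N (2 + I * t) *
        (Bsum N (2 + I * t) * gW t) = Gr α (2 + I * t) *
        (Asum N (2 + I * t) * Bsum N (2 + I * t) * Wt T D (2 + I * t)) := by
      rw [in_Gr, hgW]
      ring
    rw [e1] at hS2
    have hfun : (fun n => F n t) = fun n : ℕ => c n * (n : ℂ) ^ (-(2 + I * t) : ℂ) *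
        (Bsum N (2 + I * t) * gW t) := ?_
    · rw [hfun]
      exact hS2
    funext n
    rcases eq_or_ne n 0 with rfl | hn
    · simp [hF, hc0]
    · simp only [hF]
      unfold Bsum
      rw [sum_mul, mul_sum]
      refine sum_congr rfl fun m hm => ?_
      rw [mem_Icc] at hm
      have hnpos : (0 : ℝ) < n := by exact_mod_cast Nat.pos_of_ne_zero hn
      have hmpos : (0 : ℝ) < m := by exact_mod_cast (by omega : 0 < m)
      have hm0 : (m : ℂ) ≠ 0 := by exact_mod_cast (by omega : m ≠ 0)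
      have hn0 : (n : ℂ) ≠ 0 := by exact_mod_cast hn
      have e2 : (((m : ℝ) / n : ℝ) : ℂ) ^ (2 + I * t : ℂ) =
          (m : ℂ) ^ (2 + I * t : ℂ) * (n : ℂ) ^ (-(2 + I * t) : ℂ) := by
        rw [div_eq_mul_inv, ofReal_mul, mul_cpow_ofReal_nonneg hmpos.le (inv_pos.2 hnpos).le,
          ofReal_inv, inv_cpow_eq_ite, if_neg, ← cpow_neg]
        · simp
        · rw [ofReal_natCast, natCast_arg]
          exact Real.pi_ne_zero.symm
      have e3 : (m : ℂ) ^ ((2 + I * t : ℂ) - 1) = (m : ℂ) ^ (2 + I * t : ℂ) / m := by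
        rw [cpow_sub _ _ hm0, cpow_one]
      rw [e2, e3]
      ring

end H2.Gap
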