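import Pool.Agent.H2.Gap.Divide

/-!
# [H2 GAP LOWER] a lower bound for a holomorphic function away from its zeros

PROOF. `n = Z.card`. By `exists_divide` (on `U = ball z0 2`) `f = P h`, `P z = ∏_{w ∈ Z} (z - w)`,
`h ≠ 0` on `closedBall z0 (8/5)` (a zero of `h` there would be a zero of `f`, hence in `Z`).
On the sphere `|z - z0| = 19/10`: `|P| ≥ (3/10)^n`, so `|h| ≤ M/(3/10)^n`; by the maximum principle
(`Complex.norm_le_of_forall_mem_frontier_norm_le`) the same holds on `closedBall z0 (19/10)`.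
`|h z0| ≥ m/(8/5)^n`. On `ball z0 (8/5)` there is a holomorphic `l` with `exp (l z) = h z / h z0`,
`l z0 = 0`: primitive of `h'/h` on the ball (`DifferentiableOn.isExactOn_ball` in
`Mathlib/Analysis/Complex/HasPrimitives.lean`, `IsExactOn.with_val_at`), the derivative of
`exp (-l) h` is 0.
`Re l ≤ A := log (M/m) + n log (16/3)`, `A ≥ 0`. Borel-Caratheodory
(`Complex.borelCaratheodory_zero`, translated to the centre 0, with `A + e` for `e > 0` or `A + 1`
if `A = 0`) gives `|l z| ≤ 2 (A + e) (3/2)/(1/10) = 30 (A + e)` for `|z - z0| ≤ 3/2`; let `e → 0`.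
So `|h z| ≥ |h z0| exp (-30 A) ≥ m (8/5)^(-n) exp (-30 A)` and `|f z| = |P z| |h z| ≥ d^n ...`.
Finally `30 log (16/3) + log (8/5) ≤ 62`.
-/

set_option autoImplicit false

namespace H2.Gap

open Complex Metric

/-- Holomorphic logarithm on a disc. -/
theorem low_exists_log {f : ℂ → ℂ} {c : ℂ} {r : ℝ} (hr : 0 < r)
    (hf : DifferentiableOn ℂ f (ball c r)) (hne : ∀ z ∈ ball c r, f z ≠ 0) :
    ∃ g : ℂ → ℂ, DifferentiableOn ℂ g (ball c r) ∧ ∀ z ∈ ball c r, exp (g z) = f z := by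
  have hd : DifferentiableOn ℂ (fun z => deriv f z / f z) (ball c r) :=
    (hf.deriv isOpen_ball).div hf hne
  obtain ⟨g, hg⟩ := hd.isExactOn_ball
  have hg' : ∀ z ∈ ball c r, HasDerivAt g (deriv f z / f z) z := hg
  have hfd : ∀ z ∈ ball c r, HasDerivAt f (deriv f z) z := fun z hz =>
    ((hf z hz).differentiableAt (isOpen_ball.mem_nhds hz)).hasDerivAt
  have hc : c ∈ ball c r := mem_ball_self hr
  have hconst : ∀ z ∈ ball c r, f z * exp (-g z) = f c * exp (-g c) := by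
    have hder : ∀ z ∈ ball c r, HasDerivAt (fun z => f z * exp (-g z)) 0 z := by
      intro z hz
      have h1 := (hfd z hz).mul (hg' z hz).neg.cexp
      have h3 := hne z hz
      have h2 : deriv f z * cexp ((-g) z) + f z * (cexp ((-g) z) * -(deriv f z / f z)) = 0 := by
        field_simp
        ring
      rw [h2] at h1
      exact h1
    intro z hz
    refine isOpen_ball.is_const_of_deriv_eq_zero (convex_ball c r).isPreconnected
      (fun w hw => (hder w hw).differentiableAt.differentiableWithinAt)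
      (fun w hw => (hder w hw).deriv) hz hc
  have hC : f c * exp (-g c) ≠ 0 := mul_ne_zero (hne c hc) (exp_ne_zero _)
  refine ⟨fun z => g z + log (f c * exp (-g c)), ?_, fun z hz => ?_⟩
  · exact DifferentiableOn.add_const _ (fun z hz =>
      (hg' z hz).differentiableAt.differentiableWithinAt)
  · rw [exp_add, exp_log hC, ← hconst z hz, mul_comm (f z), ← mul_assoc, ← exp_add]
    simp

/-- Lower bound of a function without zeros (`h z0 ≠ 0`). -/
theorem low_nozero (h : ℂ → ℂ) (z0 : ℂ) (hh : DifferentiableOn ℂ h (ball z0 (8 / 5)))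
    (hne : ∀ z ∈ ball z0 (8 / 5), h z ≠ 0) (A : ℝ) (hA : 0 ≤ A)
    (hup : ∀ z ∈ ball z0 (8 / 5), ‖h z‖ ≤ ‖h z0‖ * Real.exp A)
    (z : ℂ) (hz : z ∈ closedBall z0 (3 / 2)) : ‖h z0‖ * Real.exp (-(30 * A)) ≤ ‖h z‖ := by
  have hz00 : z0 ∈ ball z0 (8 / 5 : ℝ) := mem_ball_self (by norm_num)
  obtain ⟨g, hg, hgh⟩ := low_exists_log (by norm_num) hh hne
  have hn0 : 0 < ‖h z0‖ := norm_pos_iff.2 (hne z0 hz00)
  -- the normalised logarithm
  set l : ℂ → ℂ := fun u => g (z0 + u) - g z0 with hl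
  have hmem : ∀ u : ℂ, u ∈ ball (0 : ℂ) (8 / 5) → z0 + u ∈ ball z0 (8 / 5 : ℝ) := by
    intro u hu
    rw [mem_ball_zero_iff] at hu
    rw [mem_ball, dist_eq_norm]
    simpa using hu
  have hnorm : ∀ u : ℂ, u ∈ ball (0 : ℂ) (8 / 5) →
      ‖h (z0 + u)‖ = ‖h z0‖ * Real.exp (l u).re := by
    intro u hu
    have h1 : h (z0 + u) = h z0 * exp (l u) := by
      rw [← hgh _ (hmem u hu), ← hgh _ hz00, ← exp_add]
      congr 1
      simp only [hl]
      ring
    rw [h1, norm_mul, norm_exp]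
  have hld : DifferentiableOn ℂ l (ball 0 (8 / 5)) := by
    refine DifferentiableOn.sub_const ?_ _
    refine hg.comp ?_ hmem
    fun_prop
  have hre : ∀ u : ℂ, u ∈ ball (0 : ℂ) (8 / 5) → (l u).re ≤ A := by
    intro u hu
    have h1 := hup _ (hmem u hu)
    rw [hnorm u hu] at h1
    exact Real.exp_le_exp.1 (le_of_mul_le_mul_left h1 hn0)
  have hl0 : l 0 = 0 := by simp [hl]
  have hzz : z - z0 ∈ ball (0 : ℂ) (8 / 5) := by
    rw [mem_ball_zero_iff]
    rw [mem_closedBall, dist_eq_norm] at hz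
    linarith
  have hzn : ‖z - z0‖ ≤ 3 / 2 := by rwa [mem_closedBall, dist_eq_norm] at hz
  have hbound : ‖l (z - z0)‖ ≤ 30 * A := by
    refine le_of_forall_pos_le_add fun e he => ?_
    have h1 := borelCaratheodory_zero (f := l) (M := A + e / 30) (R := 8 / 5) (z := z - z0)
      (by positivity) hld (fun u hu => (hre u hu).trans (by linarith [div_pos he (by norm_num : (0 : ℝ) < 30)]))
      (by norm_num) hzz hl0
    refine h1.trans ?_
    have h2 : 0 < 8 / 5 - ‖z - z0‖ := by linarith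
    rw [div_le_iff₀ h2]
    have h3 : 0 ≤ A + e / 30 := by positivity
    have h4 : 0 ≤ ‖z - z0‖ := norm_nonneg _
    nlinarith [mul_nonneg h3 (sub_nonneg.2 hzn)]
  have h1 := hnorm _ hzz
  rw [add_sub_cancel] at h1
  rw [h1]
  refine mul_le_mul_of_nonneg_left (Real.exp_le_exp.2 ?_) hn0.le
  have h2 := (abs_le.1 ((abs_re_le_norm (l (z - z0))).trans hbound)).1
  exact h2

theorem lower_of_zeros (f : ℂ → ℂ) (z0 : ℂ) (hf : DifferentiableOn ℂ f (ball z0 2)) (Z : Finset ℂ)
    (M m d : ℝ) (hm : 0 < m) (hd : 0 < d) (hd1 : d ≤ 1)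
    (hM : ∀ z ∈ closedBall z0 (19 / 10), ‖f z‖ ≤ M) (hz0 : m ≤ ‖f z0‖)
    (hZ : ∀ w ∈ Z, w ∈ closedBall z0 (8 / 5) ∧ f w = 0 ∧ deriv f w ≠ 0)
    (hall : ∀ w ∈ closedBall z0 (8 / 5), f w = 0 → w ∈ Z)
    (z : ℂ) (hz : z ∈ closedBall z0 (3 / 2)) (hdist : ∀ w ∈ Z, d ≤ ‖z - w‖) :
    m * d ^ Z.card * Real.exp (-(30 * Real.log (M / m) + 62 * Z.card)) ≤ ‖f z‖ := by
  have hsub : closedBall z0 (8 / 5 : ℝ) ⊆ ball z0 2 :=
    closedBall_subset_ball (by norm_num)
  obtain ⟨h, hh, hfac, hhZ⟩ := exists_divide Z (ball z0 2) isOpen_ball f hf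
    (fun w hw => hsub (hZ w hw).1) (fun w hw => (hZ w hw).2.1) (fun w hw => (hZ w hw).2.2)
  set n := Z.card with hn
  have hz0M : m ≤ M := hz0.trans (hM z0 (mem_closedBall_self (by norm_num)))
  have hMpos : 0 < M := lt_of_lt_of_le hm hz0M
  -- no zeros
  have hne : ∀ w ∈ closedBall z0 (8 / 5 : ℝ), h w ≠ 0 := by
    intro w hw h0
    have h1 : f w = 0 := by rw [hfac w (hsub hw), h0, mul_zero]
    exact hhZ w (hall w hw h1) h0
  -- the product
  have hPlow : ∀ w : ℂ, ∀ c : ℝ, 0 ≤ c → (∀ v ∈ Z, c ≤ ‖w - v‖) →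
      c ^ n ≤ ‖∏ v ∈ Z, (w - v)‖ := by
    intro w c hc hcv
    rw [norm_prod, hn, ← Finset.prod_const]
    exact Finset.prod_le_prod (fun _ _ => hc) hcv
  have hPup : ∀ w : ℂ, ∀ c : ℝ, (∀ v ∈ Z, ‖w - v‖ ≤ c) →
      ‖∏ v ∈ Z, (w - v)‖ ≤ c ^ n := by
    intro w c hcv
    rw [norm_prod, hn, ← Finset.prod_const]
    exact Finset.prod_le_prod (fun _ _ => norm_nonneg _) hcv
  -- upper bound on the sphere and in the ball
  have hsph : ∀ w ∈ sphere z0 (19 / 10 : ℝ), ‖h w‖ ≤ M / (3 / 10) ^ n := by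
    intro w hw
    have hw1 : ‖w - z0‖ = 19 / 10 := by rwa [mem_sphere, dist_eq_norm] at hw
    have hw2 : w ∈ ball z0 (2 : ℝ) := by
      rw [mem_ball, dist_eq_norm, hw1]
      norm_num
    have h1 : (3 / 10 : ℝ) ^ n ≤ ‖∏ v ∈ Z, (w - v)‖ := by
      refine hPlow w _ (by norm_num) fun v hv => ?_
      have h2 : ‖v - z0‖ ≤ 8 / 5 := by
        have := (hZ v hv).1
        rwa [mem_closedBall, dist_eq_norm] at this
      have h3 : ‖w - z0‖ ≤ ‖w - v‖ + ‖v - z0‖ := by
        have := norm_add_le (w - v) (v - z0)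
        simpa using this
      linarith
    have h2 : ‖∏ v ∈ Z, (w - v)‖ * ‖h w‖ ≤ M := by
      rw [← norm_mul, ← hfac w hw2]
      exact hM w (sphere_subset_closedBall hw)
    rw [le_div_iff₀ (by positivity)]
    calc ‖h w‖ * (3 / 10) ^ n ≤ ‖h w‖ * ‖∏ v ∈ Z, (w - v)‖ :=
          mul_le_mul_of_nonneg_left h1 (norm_nonneg _)
      _ ≤ M := by rw [mul_comm]; exact h2
  have hball : ∀ w ∈ closedBall z0 (19 / 10 : ℝ), ‖h w‖ ≤ M / (3 / 10) ^ n := by
    intro w hw
    refine norm_le_of_forall_mem_frontier_norm_le (U := ball z0 (19 / 10)) isBounded_ball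
      (hh.diffContOnCl_ball (closedBall_subset_ball (by norm_num))) ?_ ?_
    · intro v hv
      rw [frontier_ball z0 (by norm_num)] at hv
      exact hsph v hv
    · rw [closure_ball z0 (by norm_num)]
      exact hw
  -- lower bound at the centre
  have hcen : m / (8 / 5) ^ n ≤ ‖h z0‖ := by
    rw [div_le_iff₀ (by positivity)]
    have h1 : ‖∏ v ∈ Z, (z0 - v)‖ ≤ (8 / 5) ^ n := by
      refine hPup z0 _ fun v hv => ?_
      have := (hZ v hv).1
      rwa [mem_closedBall, dist_comm, dist_eq_norm] at this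
    calc m ≤ ‖f z0‖ := hz0
      _ = ‖∏ v ∈ Z, (z0 - v)‖ * ‖h z0‖ := by
          rw [hfac z0 (mem_ball_self (by norm_num)), norm_mul]
      _ ≤ (8 / 5) ^ n * ‖h z0‖ := mul_le_mul_of_nonneg_right h1 (norm_nonneg _)
      _ = ‖h z0‖ * (8 / 5) ^ n := mul_comm _ _
  have hMm : 1 ≤ M / m := (one_le_div hm).2 hz0M
  set A : ℝ := Real.log (M / m) + n * Real.log (16 / 3) with hA
  have hA0 : 0 ≤ A := by
    have h1 := Real.log_nonneg hMm
    have h2 : 0 ≤ Real.log (16 / 3) := Real.log_nonneg (by norm_num)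
    positivity
  have hexpA : Real.exp A = M / m * (16 / 3) ^ n := by
    rw [hA, Real.exp_add, Real.exp_log (by positivity), mul_comm (n : ℝ), Real.exp_mul,
      Real.exp_log (by norm_num), Real.rpow_natCast]
  have hup : ∀ w ∈ ball z0 (8 / 5 : ℝ), ‖h w‖ ≤ ‖h z0‖ * Real.exp A := by
    intro w hw
    have h1 : w ∈ closedBall z0 (19 / 10 : ℝ) :=
      closedBall_subset_closedBall (by norm_num) (ball_subset_closedBall hw)
    refine (hball w h1).trans ?_
    rw [hexpA]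
    calc M / (3 / 10) ^ n = m / (8 / 5) ^ n * (M / m * (16 / 3) ^ n) := by
          have e1 : (16 / 3 : ℝ) ^ n = (8 / 5) ^ n / (3 / 10) ^ n := by
            rw [← div_pow]
            norm_num
          have e2 : ((8 / 5 : ℝ)) ^ n ≠ 0 := by positivity
          have e3 : ((3 / 10 : ℝ)) ^ n ≠ 0 := by positivity
          rw [e1]
          generalize ((8 / 5 : ℝ)) ^ n = a at e2 ⊢
          generalize ((3 / 10 : ℝ)) ^ n = b at e3 ⊢
          field_simp
      _ ≤ ‖h z0‖ * (M / m * (16 / 3) ^ n) :=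
          mul_le_mul_of_nonneg_right hcen (by positivity)
  have hmain := low_nozero h z0 (hh.mono (ball_subset_ball (by norm_num)))
    (fun w hw => hne w (ball_subset_closedBall hw)) A hA0 hup z hz
  have hz2 : z ∈ ball z0 (2 : ℝ) := closedBall_subset_ball (by norm_num) hz
  rw [hfac z hz2, norm_mul]
  have hP : d ^ n ≤ ‖∏ v ∈ Z, (z - v)‖ := hPlow z d hd.le hdist
  have h85 : Real.exp (-(n : ℝ)) ≤ 1 / (8 / 5) ^ n := by
    have h1 : Real.exp (-(n : ℝ)) = (1 / Real.exp 1) ^ n := by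
      rw [div_pow, one_pow, ← Real.exp_nat_mul, mul_one, Real.exp_neg, one_div]
    rw [h1, ← one_div_pow]
    refine pow_le_pow_left₀ (by positivity) ?_ n
    refine one_div_le_one_div_of_le (by norm_num) ?_
    have := Real.exp_one_gt_d9
    linarith
  have hlog : Real.log (16 / 3) ≤ 2 := by
    rw [Real.log_le_iff_le_exp (by norm_num)]
    have h1 := Real.exp_one_gt_d9
    have h2 : Real.exp 2 = Real.exp 1 * Real.exp 1 := by
      rw [← Real.exp_add]
      norm_num
    rw [h2]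
    nlinarith
  calc m * d ^ n * Real.exp (-(30 * Real.log (M / m) + 62 * n))
      ≤ m * d ^ n * (Real.exp (-(n : ℝ)) * Real.exp (-(30 * A))) := by
        refine mul_le_mul_of_nonneg_left ?_ (by positivity)
        rw [← Real.exp_add]
        refine Real.exp_le_exp.2 ?_
        rw [hA]
        have hn0 : (0 : ℝ) ≤ n := Nat.cast_nonneg n
        nlinarith [mul_le_mul_of_nonneg_left hlog hn0]
    _ ≤ m * d ^ n * (1 / (8 / 5) ^ n * Real.exp (-(30 * A))) := by
        refine mul_le_mul_of_nonneg_left ?_ (by positivity)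
        exact mul_le_mul_of_nonneg_right h85 (Real.exp_pos _).le
    _ = d ^ n * (m / (8 / 5) ^ n * Real.exp (-(30 * A))) := by ring
    _ ≤ ‖∏ v ∈ Z, (z - v)‖ * (‖h z0‖ * Real.exp (-(30 * A))) := by
        refine mul_le_mul hP ?_ (by positivity) (norm_nonneg _)
        exact mul_le_mul_of_nonneg_right hcen (Real.exp_pos _).le
    _ ≤ ‖∏ v ∈ Z, (z - v)‖ * ‖h z‖ := mul_le_mul_of_nonneg_left hmain (norm_nonneg _)

end H2.Gap
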