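import Pool.Agent.H2.Gap.Defs

/-!
# [H2 GAP NEG] from the negation to separated simple zeros

PROOF. `b = 1/2 + ε`, `c` with `1/2 < c < min 1 b`. `g n = ordinate n ≥ 0` for all `n` (induction:
`sInf` of a set of positive numbers, or `sInf ∅ = 0`). For `n ≥ n0 ≥ 3`:
`g (n+1) - g n ≥ 2πb/log n > 0`, so the set `S_n = {t > g n, ζ(1/2+it) = 0}` is nonempty
(otherwise `g (n+1) = 0 ≤ g n`).
COUNT. `g n ≥ (n - n0) 2πb/log n` for `n ≥ n0`, so `n ≤ n0 + g n log n` (`2πb ≥ 1`); in particular
`g n → ∞`; from `log n ≤ 2 sqrt n` etc. `log n ≤ 2 log (g n) + C`, then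
`n ≤ n0 + g n (2 log (g n) + C)`, so `log n ≤ log (g n) + log log (g n) + C'` for large `n`. So there
is `T1` such that for `T ≥ T1` and `n ≥ n0` with `g n ≤ 4T`: `log n ≤ (b/c) log T` (for bounded `n`
trivial when `T` is large; note that the right side of the estimate is increasing in `g n`), and
`g (n+1) - g n ≥ 2πb/log n ≥ 2πc/log T`.
EXHAUSTION. Let `u > g n0` with `ζ(1/2+iu) = 0`. Let `n ≥ n0` be maximal with `g n < u` (`g` is
strictly increasing and unbounded from `n0` on). `u ∈ S_n`, so `g (n+1) = sInf S_n ≤ u`, and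
`g (n+1) ≥ u` by maximality: `u = g (n+1)`.
So (T0 large, `T0/4 > g n0`): simple zeros; and for zeros `u < v` in `[T/4, 4T]`, `u = g i`,
`v = g j`, `n0 ≤ i < j`, `v - u ≥ g (i+1) - g i ≥ 2πc/log T`.
-/

set_option autoImplicit false

namespace H2.Gap

open Complex Filter

/-- The ordinates of the zeros of zeta on the upper half of the critical line in increasing order,
each value once: `ordinate 0 = 0` and `ordinate (n+1)` is the least `t > ordinate n` with
`ζ(1/2 + it) = 0`. -/
noncomputable def ordinate : ℕ → ℝ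
  | 0 => 0
  | n + 1 => sInf {t : ℝ | ordinate n < t ∧ riemannZeta (1 / 2 + I * t) = 0}

theorem ordinate_nonneg (n : ℕ) : 0 ≤ ordinate n := by
  induction n with
  | zero => exact le_rfl
  | succ n ih =>
    show 0 ≤ sInf {t : ℝ | ordinate n < t ∧ riemannZeta (1 / 2 + I * t) = 0}
    exact Real.sInf_nonneg fun t ht => ih.trans ht.1.le

/-- growth against a linear function -/
private theorem ord_large (r : ℝ) (hr : 1 < r) (n0 : ℕ) : ∀ᶠ n : ℕ in atTop,
    4 * (n : ℝ) ^ (1 / r) * Real.log n < n - n0 := by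
  set s : ℝ := (1 - 1 / r) / 2 with hs
  have hr1 : 1 / r < 1 := by
    rw [div_lt_one (by linarith)]
    exact hr
  have hs0 : 0 < s := by
    rw [hs]
    linarith
  have h1 : Tendsto (fun n : ℕ => (n : ℝ) ^ s) atTop atTop :=
    (tendsto_rpow_atTop hs0).comp tendsto_natCast_atTop_atTop
  filter_upwards [h1.eventually_gt_atTop (8 / s), eventually_ge_atTop (2 * n0 + 1)] with n hn hn2
  have hn1 : 1 ≤ n := by omega
  have hnR : (1 : ℝ) ≤ n := by exact_mod_cast hn1
  have hn0 : (0 : ℝ) < n := by linarith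
  have hlog : Real.log n ≤ (n : ℝ) ^ s / s := Real.log_le_rpow_div hn0.le hs0
  have h2 : (2 * (n0 : ℝ)) < n := by
    have : ((2 * n0 + 1 : ℕ) : ℝ) ≤ n := by exact_mod_cast hn2
    push_cast at this
    linarith
  have hp1 : 0 < (n : ℝ) ^ (1 / r) := Real.rpow_pos_of_pos hn0 _
  have hp2 : 0 < (n : ℝ) ^ s := Real.rpow_pos_of_pos hn0 _
  have h3 : (n : ℝ) ^ (1 / r) * (n : ℝ) ^ s * (n : ℝ) ^ s = n := by
    rw [← Real.rpow_add hn0, ← Real.rpow_add hn0]
    have h4 : 1 / r + s + s = 1 := by
      rw [hs]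
      ring
    rw [h4, Real.rpow_one]
  have h5 : ∀ a b n' : ℝ, 0 < b → a * b * b = n' → 4 * a * (b / s) = n' / 2 * ((8 / s) / b) := by
    rintro a b _ hb rfl
    field_simp
    ring
  calc 4 * (n : ℝ) ^ (1 / r) * Real.log n ≤ 4 * (n : ℝ) ^ (1 / r) * ((n : ℝ) ^ s / s) :=
        mul_le_mul_of_nonneg_left hlog (by positivity)
    _ = (n : ℝ) / 2 * ((8 / s) / (n : ℝ) ^ s) := h5 _ _ _ hp2 h3
    _ ≤ (n : ℝ) / 2 * 1 := by
        refine mul_le_mul_of_nonneg_left ?_ (by positivity)
        rw [div_le_one hp2]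
        exact hn.le
    _ < n - n0 := by linarith

theorem good_of_not (ε : ℝ) (hε : 0 < ε)
    (h : ∀ᶠ n : ℕ in atTop, (1 / 2 + ε) * (2 * Real.pi / Real.log n) ≤
      ordinate (n + 1) - ordinate n ∧ deriv riemannZeta (1 / 2 + I * ordinate n) ≠ 0) :
    ∃ c T0 : ℝ, 1 / 2 < c ∧ c < 1 ∧ Good c T0 := by
  have hpi := Real.pi_gt_three
  obtain ⟨b, hb⟩ : ∃ b : ℝ, b = 1 / 2 + ε := ⟨_, rfl⟩
  rw [← hb] at h
  have hb2 : 1 / 2 < b := by linarith
  obtain ⟨c, hc1, hc2, hcb⟩ : ∃ c : ℝ, 1 / 2 < c ∧ c < 1 ∧ c < b :=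
    ⟨(1 / 2 + min 1 b) / 2, by
      have : (1 : ℝ) / 2 < min 1 b := lt_min (by norm_num) hb2
      linarith, by
      have : min 1 b ≤ 1 := min_le_left _ _
      linarith, by
      have : min 1 b ≤ b := min_le_right _ _
      linarith⟩
  have hc0 : 0 < c := by linarith
  have hr : 1 < b / c := by
    rw [lt_div_iff₀ hc0]
    linarith
  obtain ⟨n0', hn0'⟩ := eventually_atTop.mp h
  obtain ⟨n0, hn03, hn0⟩ : ∃ n0 : ℕ, 3 ≤ n0 ∧ ∀ n, n0 ≤ n → b * (2 * Real.pi / Real.log n) ≤
      ordinate (n + 1) - ordinate n ∧ deriv riemannZeta (1 / 2 + I * ordinate n) ≠ 0 :=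
    ⟨max 3 n0', le_max_left _ _, fun n hn => hn0' n ((le_max_right _ _).trans hn)⟩
  have hlogpos : ∀ n : ℕ, n0 ≤ n → 0 < Real.log n := by
    intro n hn
    refine Real.log_pos ?_
    have : ((3 : ℕ) : ℝ) ≤ n := by exact_mod_cast hn03.trans hn
    push_cast at this
    linarith
  have hstep : ∀ n, n0 ≤ n → ordinate n < ordinate (n + 1) := by
    intro n hn
    have h1 := (hn0 n hn).1
    have h2 : 0 < b * (2 * Real.pi / Real.log n) := by
      have := hlogpos n hn
      have := Real.pi_pos
      positivity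
    linarith
  -- monotonicity from `n0` on
  have hmono : ∀ i j, n0 ≤ i → i < j → ordinate i < ordinate j := by
    intro i j hi hij
    induction j, hij using Nat.le_induction with
    | base => exact hstep i hi
    | succ j hj ih => exact ih.trans (hstep j (by omega))
  -- counting
  have hcount : ∀ n, n0 ≤ n → (n : ℝ) - n0 ≤ ordinate n * Real.log n := by
    intro n hn
    have h1 : ∀ j : ℕ, n0 ≤ j → j ≤ n → ((j : ℝ) - n0) / Real.log n ≤ ordinate j := by
      intro j hj
      induction j, hj using Nat.le_induction with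
      | base =>
        intro _
        rw [sub_self, zero_div]
        exact ordinate_nonneg n0
      | succ j hj ih =>
        intro hjn
        have h2 := ih (by omega)
        have h3 := (hn0 j hj).1
        have hlj := hlogpos j hj
        have hln := hlogpos n hn
        have h4 : 1 / Real.log n ≤ b * (2 * Real.pi / Real.log j) := by
          have h5 : Real.log j ≤ Real.log n := by
            refine Real.log_le_log ?_ (by exact_mod_cast (by omega : j ≤ n))
            exact_mod_cast (by omega : 0 < j)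
          have h6 : 1 / Real.log n ≤ 1 / Real.log j := one_div_le_one_div_of_le hlj h5
          have h7 : b * (2 * Real.pi / Real.log j) = (b * (2 * Real.pi)) * (1 / Real.log j) := by
            ring
          rw [h7]
          have h8 : 1 ≤ b * (2 * Real.pi) := by nlinarith
          have h9 : 0 < 1 / Real.log j := by positivity
          nlinarith
        have h5 : (((j + 1 : ℕ) : ℝ) - n0) / Real.log n =
            ((j : ℝ) - n0) / Real.log n + 1 / Real.log n := by
          push_cast
          ring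
        rw [h5]
        linarith
    have h2 := h1 n hn le_rfl
    rw [div_le_iff₀ (hlogpos n hn)] at h2
    exact h2
  obtain ⟨n1, hn1⟩ := eventually_atTop.mp (ord_large (b / c) hr n0)
  -- unbounded
  have hunb : ∀ u : ℝ, ∃ n, n0 ≤ n ∧ u ≤ ordinate n := by
    intro u
    have h1 : Tendsto (fun n : ℕ => 4 * (n : ℝ) ^ (1 / (b / c))) atTop atTop := by
      refine Tendsto.const_mul_atTop (by norm_num) ?_
      exact (tendsto_rpow_atTop (by positivity)).comp tendsto_natCast_atTop_atTop
    obtain ⟨n2, hn2⟩ := eventually_atTop.mp (h1.eventually_ge_atTop u)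
    refine ⟨max n0 (max n1 n2), le_max_left _ _, ?_⟩
    set n := max n0 (max n1 n2) with hn
    have hn_0 : n0 ≤ n := le_max_left _ _
    have hn_1 : n1 ≤ n := (le_max_left _ _).trans (le_max_right _ _)
    have hn_2 : n2 ≤ n := (le_max_right _ _).trans (le_max_right _ _)
    have h3 := hn2 n hn_2
    have h4 := hn1 n hn_1
    have h5 := hcount n hn_0
    have h6 := hlogpos n hn_0
    by_contra h7
    have h8 : ordinate n * Real.log n ≤ 4 * (n : ℝ) ^ (1 / (b / c)) * Real.log n :=
      mul_le_mul_of_nonneg_right ((not_le.mp h7).le.trans h3) h6.le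
    linarith
  -- exhaustion
  have hexh : ∀ u : ℝ, ordinate n0 < u → riemannZeta (1 / 2 + I * u) = 0 →
      ∃ n, n0 ≤ n ∧ u = ordinate n := by
    intro u hu hz
    classical
    have hex := hunb u
    have hspec := Nat.find_spec hex
    have hmin := fun m => Nat.find_min hex (m := m)
    set n' := Nat.find hex with hn'
    have h1 : n' ≠ n0 := by
      intro h2
      rw [h2] at hspec
      linarith [hspec.2]
    obtain ⟨n, hn⟩ : ∃ n, n' = n + 1 := ⟨n' - 1, by omega⟩
    have hn00 : n0 ≤ n := by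
      have := hspec.1
      omega
    have h2 : ordinate n < u := by
      by_contra h3
      exact hmin n (by omega) ⟨hn00, not_lt.mp h3⟩
    refine ⟨n', hspec.1, le_antisymm hspec.2 ?_⟩
    rw [hn]
    show sInf {t : ℝ | ordinate n < t ∧ riemannZeta (1 / 2 + I * t) = 0} ≤ u
    exact csInf_le ⟨ordinate n, fun t ht => ht.1.le⟩ ⟨h2, hz⟩
  -- the bound for log n
  obtain ⟨T1, hT1⟩ : ∃ T1 : ℝ, 1 < T1 ∧ ∀ T : ℝ, T1 ≤ T → ∀ n, n0 ≤ n → ordinate n ≤ 4 * T →
      Real.log n ≤ b / c * Real.log T := by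
    refine ⟨max 2 (n1 + 1), lt_of_lt_of_le (by norm_num) (le_max_left _ _), fun T hT n hn hg => ?_⟩
    have hT2 : 2 ≤ T := (le_max_left _ _).trans hT
    have hTn : (n1 : ℝ) + 1 ≤ T := (le_max_right _ _).trans hT
    have hT0 : 0 < T := by linarith
    by_contra hcon
    push Not at hcon
    have hnpos : (0 : ℝ) < n := by exact_mod_cast (by omega : 0 < n)
    have hlogT : 0 < Real.log T := Real.log_pos (by linarith)
    -- `T ≤ n ^ (1/r)`
    have h1 : T ≤ (n : ℝ) ^ (1 / (b / c)) := by
      rw [← Real.log_le_log_iff hT0 (Real.rpow_pos_of_pos hnpos _), Real.log_rpow hnpos]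
      rw [one_div, ← div_eq_inv_mul, le_div_iff₀ (by positivity)]
      linarith
    have h2 : (n1 : ℝ) ≤ n := by
      have h3 : Real.log T ≤ Real.log n := by nlinarith
      have h4 : T ≤ n := (Real.log_le_log_iff hT0 hnpos).mp h3
      linarith
    have h3 := hn1 n (by exact_mod_cast h2)
    have h4 := hcount n hn
    have h5 := hlogpos n hn
    have h6 : ordinate n * Real.log n ≤ 4 * (n : ℝ) ^ (1 / (b / c)) * Real.log n :=
      mul_le_mul_of_nonneg_right (hg.trans (by linarith)) h5.le
    linarith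
  obtain ⟨hT11, hT1⟩ := hT1
  refine ⟨c, max T1 (4 * (ordinate n0 + 1)), hc1, hc2, ?_, ?_⟩
  · intro u hu hz
    have h1 : 4 * (ordinate n0 + 1) ≤ u := (le_max_right _ _).trans hu
    have h2 := ordinate_nonneg n0
    obtain ⟨n, hn, rfl⟩ := hexh u (by linarith) hz
    exact (hn0 n hn).2
  · intro T hT u v hu huv hv hzu hzv
    have h1 : 4 * (ordinate n0 + 1) ≤ T := (le_max_right _ _).trans hT
    have h1' : T1 ≤ T := (le_max_left _ _).trans hT
    have h2 := ordinate_nonneg n0
    obtain ⟨i, hi, rfl⟩ := hexh u (by linarith) hzu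
    obtain ⟨j, hj, rfl⟩ := hexh v (by linarith) hzv
    have hij : i < j := by
      by_contra hcon
      rcases (not_lt.mp hcon).lt_or_eq with h3 | h3
      · exact absurd (hmono j i hj h3) (by linarith)
      · rw [h3] at huv
        exact lt_irrefl _ huv
    have h3 : ordinate (i + 1) ≤ ordinate j := by
      rcases (Nat.succ_le_of_lt hij).lt_or_eq with h4 | h4
      · exact (hmono (i + 1) j (by omega) h4).le
      · rw [← h4]
    have h4 := (hn0 i hi).1
    have h5 := hT1 T h1' i hi (by linarith)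
    have h6 := hlogpos i hi
    have h7 : 0 < Real.log T := Real.log_pos (by linarith)
    have h8 : 2 * Real.pi * c / Real.log T ≤ b * (2 * Real.pi / Real.log i) := by
      rw [← mul_div_assoc, div_le_div_iff₀ h7 h6]
      have h9 : c * Real.log i ≤ b * Real.log T := by
        have h10 : c * (b / c * Real.log T) = b * Real.log T := by
          field_simp
        rw [← h10]
        exact mul_le_mul_of_nonneg_left h5 hc0.le
      nlinarith
    linarith

end H2.Gap
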