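import Pool.Agent.H2.Gap.GamPhase
import Pool.Agent.H2.Gap.Tiny

/-!
# [H2 GAP PHASEINT] the diagonal integral

PROOF. `T = TT k N`, `log T = (1+k) log N` (`Real.log_rpow`), `α = al c k N = 2πc/log T ≤ 1` for
large `N`. For `t ∈ [t1,t2] ⊆ [T/2, 2T]`: `(α/2) log(t/(2π)) = πc log(t/(2π))/log T`, and
`|log(t/(2π)) - log T| ≤ log(4π) ≤ 3`, so it differs from `πc` by at most `10/log T`. With
`gfac_phase`: `‖gfac α (1/2+it) - e^{-iπc}‖ ≤ C α + 10/log T ≤ C'/log N`. Multiply with the positive
weight and integrate (`intervalIntegral.norm_integral_le_integral_norm`), continuity of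
`gfac α (1/2+it)` in `t` on `[t1,t2]` (`differentiableAt_gfac` or integrability of a bounded
measurable function; it may be proved here directly: `Gammaℝ` is differentiable and nonzero off the
real axis).
-/

set_option autoImplicit false

namespace H2.Gap

open Complex

theorem continuous_gfac_line (α : ℝ) : Continuous (fun t : ℝ => gfac α (1 / 2 + I * t)) := by
  have h := differentiable_Gammaℝ_inv.continuous
  have e : (fun t : ℝ => gfac α (1 / 2 + I * t)) = fun t : ℝ =>
      ((Gammaℝ (1 / 2 + I * t))⁻¹)⁻¹ * (Gammaℝ (1 / 2 + I * t + I * α))⁻¹ := by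
    ext t
    unfold gfac
    rw [inv_inv, div_eq_mul_inv]
  rw [e]
  apply Continuous.mul
  · apply Continuous.inv₀
    · exact h.comp (by fun_prop : Continuous fun t : ℝ => (1 / 2 + I * t : ℂ))
    · intro t
      apply inv_ne_zero
      apply Gammaℝ_ne_zero_of_re_pos
      simp
  · exact h.comp (by fun_prop : Continuous fun t : ℝ => (1 / 2 + I * t + I * α : ℂ))

theorem norm_cexp_sub_le (x y : ℝ) :
    ‖cexp (-(I * ((x : ℝ) : ℂ))) - cexp (-(I * ((y : ℝ) : ℂ)))‖ ≤ |y - x| := by
  have e : cexp (-(I * ((x : ℝ) : ℂ))) - cexp (-(I * ((y : ℝ) : ℂ))) =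
      cexp (((-y : ℝ) : ℂ) * I) * (cexp (I * ((y - x : ℝ) : ℂ)) - 1) := by
    rw [mul_sub, mul_one, ← Complex.exp_add]
    congr 2
    · push_cast; ring
    · push_cast; ring
  rw [e, norm_mul, Complex.norm_exp_ofReal_mul_I, one_mul]
  exact Real.norm_exp_I_mul_ofReal_sub_one_le

theorem phase_int (c k : ℝ) (hc : 1 / 2 < c) (hc1 : c < 1) (hk : 0 < k) (hk1 : k ≤ 1) :
    ∃ C : ℝ, 0 < C ∧ ∃ N0 : ℕ, ∀ N : ℕ, N0 ≤ N → ∀ t1 t2 : ℝ, TT k N / 2 ≤ t1 → t1 ≤ t2 →
      t2 ≤ 2 * TT k N →
      ‖(∫ t in t1..t2, gfac (al c k N) (1 / 2 + I * t) *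
          ((Real.exp (-((t - TT k N) ^ 2 / (DD k N) ^ 2)) : ℝ) : ℂ)) -
        cexp (-(I * ((Real.pi * c : ℝ) : ℂ))) * (VV k N t1 t2 : ℂ)‖ ≤
      C * VV k N t1 t2 / Real.log N := by
  obtain ⟨C1, hC1, hph⟩ := gfac_phase
  obtain ⟨N0, hN0⟩ := params c k hc hc1 hk hk1 4
  refine ⟨7 * C1 + 10, by positivity, N0, ?_⟩
  intro N hN t1 t2 ht1 ht12 ht2
  obtain ⟨hT4, hlog4, hα0, hα1, -, hD1, hN2, hαeq⟩ := hN0 N hN
  set T := TT k N with hT
  set α := al c k N with hα
  have hNpos : (0 : ℝ) < N := by exact_mod_cast (by omega : 0 < N)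
  have hTpos : 0 < T := by linarith
  have hlogN : 0 < Real.log N := by linarith
  have hlogT : Real.log N ≤ Real.log T := by
    rw [hT]
    unfold TT
    rw [Real.log_rpow hNpos]
    nlinarith
  have hlogTpos : 0 < Real.log T := by linarith
  have hpi := Real.pi_pos
  have hpi4 := Real.pi_lt_d2
  -- pointwise bound
  have hpt : ∀ t ∈ Set.Icc t1 t2, ‖gfac α (1 / 2 + I * t) - cexp (-(I * ((Real.pi * c : ℝ) : ℂ)))‖ ≤
      (7 * C1 + 10) / Real.log N := by
    intro t ht
    have ht2' : 2 ≤ t := by linarith [ht.1]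
    have htpos : 0 < t := by linarith
    have h1 := hph α hα0 hα1 t ht2'
    have h2 := norm_cexp_sub_le (α / 2 * Real.log (t / (2 * Real.pi))) (Real.pi * c)
    have h3 : |Real.pi * c - α / 2 * Real.log (t / (2 * Real.pi))| ≤ 10 / Real.log N := by
      have e1 : Real.pi * c - α / 2 * Real.log (t / (2 * Real.pi)) =
          Real.pi * c / Real.log T * (-(Real.log (t / (2 * Real.pi) / T))) := by
        rw [Real.log_div (x := t / (2 * Real.pi)) (by positivity) hTpos.ne', hαeq]
        field_simp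
        ring
      have hlow : -3 ≤ Real.log (t / (2 * Real.pi) / T) := by
        rw [Real.le_log_iff_exp_le (by positivity)]
        have h5 : Real.exp (-3) ≤ 1 / (4 * Real.pi) := by
          rw [Real.exp_neg, ← one_div]
          apply one_div_le_one_div_of_le (by positivity)
          have h6 : Real.exp 3 = Real.exp 1 ^ 3 := by rw [← Real.exp_nat_mul]; norm_num
          rw [h6]
          have h7 := Real.exp_one_gt_d9
          have h8 : (2.7 : ℝ) ^ 3 ≤ Real.exp 1 ^ 3 := pow_le_pow_left₀ (by norm_num) (by linarith) 3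
          have : (2.7 : ℝ) ^ 3 = 19.683 := by norm_num
          linarith
        refine h5.trans ?_
        rw [div_div, div_le_div_iff₀ (by positivity) (by positivity)]
        nlinarith [ht.1]
      have hup : Real.log (t / (2 * Real.pi) / T) ≤ 3 := by
        have h5 : t / (2 * Real.pi) / T ≤ 1 := by
          rw [div_div, div_le_one (by positivity)]
          nlinarith [ht.2, Real.pi_gt_three]
        have := Real.log_nonpos (by positivity) h5
        linarith
      rw [e1, abs_mul, abs_neg]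
      have h9 : |Real.log (t / (2 * Real.pi) / T)| ≤ 3 := abs_le.2 ⟨hlow, hup⟩
      have h10 : |Real.pi * c / Real.log T| ≤ 3.2 / Real.log N := by
        rw [abs_of_nonneg (by positivity)]
        apply div_le_div₀ (by norm_num) _ hlogN hlogT
        nlinarith
      calc |Real.pi * c / Real.log T| * |Real.log (t / (2 * Real.pi) / T)|
          ≤ 3.2 / Real.log N * 3 := mul_le_mul h10 h9 (abs_nonneg _) (by positivity)
        _ ≤ 10 / Real.log N := by
            rw [div_mul_eq_mul_div]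
            apply div_le_div_of_nonneg_right _ hlogN.le
            norm_num
    have h4 : C1 * α ≤ 7 * C1 / Real.log N := by
      rw [hαeq, mul_div_assoc', le_div_iff₀ hlogN, div_mul_eq_mul_div, div_le_iff₀ hlogTpos]
      have h5 : C1 * (2 * Real.pi * c) ≤ 7 * C1 := by
        have h50 : 2 * Real.pi * c ≤ 7 := by nlinarith
        rw [mul_comm 7]
        exact mul_le_mul_of_nonneg_left h50 hC1.le
      have h6 : 0 ≤ C1 * (2 * Real.pi * c) := by positivity
      calc C1 * (2 * Real.pi * c) * Real.log N ≤ C1 * (2 * Real.pi * c) * Real.log T :=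
            mul_le_mul_of_nonneg_left hlogT h6
        _ ≤ 7 * C1 * Real.log T := mul_le_mul_of_nonneg_right h5 hlogTpos.le
    calc ‖gfac α (1 / 2 + I * t) - cexp (-(I * ((Real.pi * c : ℝ) : ℂ)))‖
        ≤ ‖gfac α (1 / 2 + I * t) -
            cexp (-(I * ((α / 2 * Real.log (t / (2 * Real.pi)) : ℝ) : ℂ)))‖ +
          ‖cexp (-(I * ((α / 2 * Real.log (t / (2 * Real.pi)) : ℝ) : ℂ))) -
            cexp (-(I * ((Real.pi * c : ℝ) : ℂ)))‖ := norm_sub_le_norm_sub_add_norm_sub _ _ _
      _ ≤ C1 * α + 10 / Real.log N := add_le_add h1 (h2.trans h3)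
      _ ≤ 7 * C1 / Real.log N + 10 / Real.log N := by linarith
      _ = (7 * C1 + 10) / Real.log N := by rw [add_div]
  -- the integral
  have hcw : Continuous (fun t : ℝ => Real.exp (-((t - T) ^ 2 / (DD k N) ^ 2))) := by fun_prop
  have hcw' : Continuous (fun t : ℝ => ((Real.exp (-((t - T) ^ 2 / (DD k N) ^ 2)) : ℝ) : ℂ)) :=
    Complex.continuous_ofReal.comp hcw
  have hcg := continuous_gfac_line α
  have e2 : cexp (-(I * ((Real.pi * c : ℝ) : ℂ))) * (VV k N t1 t2 : ℂ) =
      ∫ t in t1..t2, cexp (-(I * ((Real.pi * c : ℝ) : ℂ))) *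
        ((Real.exp (-((t - T) ^ 2 / (DD k N) ^ 2)) : ℝ) : ℂ) := by
    rw [intervalIntegral.integral_const_mul, intervalIntegral.integral_ofReal]
    rfl
  have hi1 : IntervalIntegrable (fun t : ℝ => gfac α (1 / 2 + I * t) *
      ((Real.exp (-((t - T) ^ 2 / (DD k N) ^ 2)) : ℝ) : ℂ)) MeasureTheory.volume t1 t2 :=
    (hcg.mul hcw').intervalIntegrable _ _
  have hi2 : IntervalIntegrable (fun t : ℝ => cexp (-(I * ((Real.pi * c : ℝ) : ℂ))) *
      ((Real.exp (-((t - T) ^ 2 / (DD k N) ^ 2)) : ℝ) : ℂ)) MeasureTheory.volume t1 t2 :=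
    (continuous_const.mul hcw').intervalIntegrable _ _
  rw [e2, ← intervalIntegral.integral_sub hi1 hi2]
  refine (intervalIntegral.norm_integral_le_integral_norm ht12).trans ?_
  have e3 : (7 * C1 + 10) * VV k N t1 t2 / Real.log N =
      ∫ t in t1..t2, (7 * C1 + 10) / Real.log N * Real.exp (-((t - T) ^ 2 / (DD k N) ^ 2)) := by
    rw [intervalIntegral.integral_const_mul]
    unfold VV
    ring
  rw [e3]
  apply intervalIntegral.integral_mono_on ht12
  · exact (hi1.sub hi2).norm
  · exact (continuous_const.mul hcw).intervalIntegrable _ _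
  · intro t ht
    rw [← sub_mul, norm_mul, Complex.norm_real, Real.norm_eq_abs, abs_of_pos (Real.exp_pos _)]
    exact mul_le_mul_of_nonneg_right (hpt t ht) (Real.exp_pos _).le

end H2.Gap
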