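import Pool.Agent.H2.Gap.Inter
import Pool.Agent.H2.Gap.Phase
import Pool.Agent.H2.Gap.Tiny

/-!
# [H2 GAP REVAL] evaluation of the integral over `Re s = 2`

PROOF. `T = TT k N`, `D = DD k N`, `l = LL k N`, `α = al c k N`, `G0 = exp 4 ≥ exp (4α)`
(`norm_gfac_le`), `c_n` from `expansion`. For `t1 ∈ [T/2, T/2+1]`, `t2 ∈ [3T/2, 3T/2+1]`, `T ≥ 8`:
`|t_i - T| ≥ T/4`, `t2 - t1 ≤ 2T`, `t1 ≥ 2`. By `inter` the integral `R` is
`∑'_n ∑_{m≤N} c_n (μ m/m) J(m/n)`.
OFF-DIAGONAL `n ≠ m`, `n ≥ 1`: `q = min (m/n) (n/m) ≤ N/(N+1)`; `shift_off` gives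
`‖J(m/n)‖ ≤ (m/n)^2 e^4 E`, `E` the bracket in `tiny_off` (monotonicity of `q ↦ q^(l-2)`); so the sum
of the off-diagonal terms is at most `∑_n ‖c_n‖ n^(-2) ∑_{m≤N} m e^4 E ≤ 8 N(N+1) e^4 E ≤ 1/2`
(`tiny_off`).
DIAGONAL `n = m ≤ N`: `J(1) = ∫ g(2+it) W(2+it)` and by `shift_diag`, `phase_int`
`J(1) = e^{-iπc} V + e1 + e2`, `|e1| ≤ 3 e^4 exp((9/4-(T/4)^2)/D^2)`, `|e2| ≤ C V/log N`. The
coefficient is `c_n μ n/n = (μ n)^2/n * n^(-iα)`, and `∑_{n≤N} 1/n ≤ 1 + log N ≤ N`,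
`1 + log N ≤ 2 log N`. So the diagonal part is
`V ∑_{n≤N} (μ n)^2/n e^{-i(πc + α log n)} + O(1/2) + O(2 C V)` (`tiny_diag`). Imaginary part:
`-V ∑ (μ n)^2/n sin(πc + α log n)`, `α log n = 2πc log n/((1+k) log N)`.
-/

set_option autoImplicit false

namespace H2.Gap

open Complex Finset

theorem re_mu (m : ℕ) : ‖((ArithmeticFunction.moebius m : ℤ) : ℂ)‖ ≤ 1 := by
  rw [Complex.norm_intCast]
  have := ArithmeticFunction.abs_moebius_le_one (n := m)
  exact_mod_cast this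

/-- the ratio is at most `N/(N+1)` -/
theorem re_min (N m n : ℕ) (hm : 1 ≤ m) (hmN : m ≤ N) (hn : 1 ≤ n) (hne : m ≠ n) :
    min ((m : ℝ) / n) (1 / ((m : ℝ) / n)) ≤ (N : ℝ) / (N + 1) := by
  have hm0 : (0 : ℝ) < m := by exact_mod_cast hm
  have hn0 : (0 : ℝ) < n := by exact_mod_cast hn
  have hN0 : (0 : ℝ) < N := by exact_mod_cast (by omega : 0 < N)
  have hmNR : (m : ℝ) ≤ N := by exact_mod_cast hmN
  rcases lt_or_gt_of_ne hne with h | h
  · refine (min_le_left _ _).trans ?_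
    have h1 : (m : ℝ) + 1 ≤ n := by exact_mod_cast h
    rw [div_le_div_iff₀ hn0 (by positivity)]
    nlinarith
  · refine (min_le_right _ _).trans ?_
    have h1 : (n : ℝ) + 1 ≤ m := by exact_mod_cast h
    rw [one_div_div, div_le_div_iff₀ hm0 (by positivity)]
    nlinarith

/-- the harmonic sum -/
theorem re_harm (N : ℕ) : ∑ n ∈ Icc 1 N, 1 / (n : ℝ) ≤ 1 + Real.log N := by
  have h1 := harmonic_le_one_add_log N
  rw [harmonic_eq_sum_Icc] at h1
  push_cast at h1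
  simpa only [one_div] using h1

/-- the main term -/
theorem re_main (N : ℕ) (α c V : ℝ) :
    (cexp (-(I * ((Real.pi * c : ℝ) : ℂ))) * (V : ℂ) *
      ∑ n ∈ Icc 1 N, (((((ArithmeticFunction.moebius n : ℤ) : ℝ) ^ 2 / n : ℝ) : ℂ) *
        (n : ℂ) ^ (-(I * α)))).im =
    -(V * ∑ n ∈ Icc 1 N, ((ArithmeticFunction.moebius n : ℤ) : ℝ) ^ 2 / n *
      Real.sin (α * Real.log n + Real.pi * c)) := by
  rw [Finset.mul_sum, Complex.im_sum, Finset.mul_sum, ← Finset.sum_neg_distrib]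
  refine Finset.sum_congr rfl fun n hn => ?_
  rw [Finset.mem_Icc] at hn
  have hn0 : (n : ℂ) ≠ 0 := by
    have : n ≠ 0 := by omega
    exact_mod_cast this
  set a : ℝ := ((ArithmeticFunction.moebius n : ℤ) : ℝ) ^ 2 / n
  have h1 : (n : ℂ) ^ (-(I * (α : ℂ))) = cexp (-(I * ((α * Real.log n : ℝ) : ℂ))) := by
    rw [Complex.cpow_def_of_ne_zero hn0, ← Complex.natCast_log]
    congr 1
    push_cast
    ring
  have h2 : cexp (-(I * ((Real.pi * c : ℝ) : ℂ))) * (V : ℂ) * ((a : ℂ) *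
      (n : ℂ) ^ (-(I * (α : ℂ)))) = ((V * a : ℝ) : ℂ) *
        cexp (((-(α * Real.log n + Real.pi * c) : ℝ) : ℂ) * I) := by
    rw [h1]
    have h3 : cexp (((-(α * Real.log n + Real.pi * c) : ℝ) : ℂ) * I) =
        cexp (-(I * ((Real.pi * c : ℝ) : ℂ))) * cexp (-(I * ((α * Real.log n : ℝ) : ℂ))) := by
      rw [← Complex.exp_add]
      congr 1
      push_cast
      ring
    rw [h3]
    push_cast
    ring
  rw [h2, Complex.im_ofReal_mul, Complex.exp_ofReal_mul_I_im, Real.sin_neg]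
  ring

/-- the off-diagonal terms -/
theorem re_offd (α T D t1 t2 K : ℝ) (N : ℕ) (hN : 1 ≤ N) (hK : 0 ≤ K) (cc : ℕ → ℂ) (R : ℂ)
    (h0 : cc 0 = 0) (h2 : Summable fun n : ℕ => ‖cc n‖ * ((n : ℝ) ^ 2)⁻¹)
    (h3 : ∑' n : ℕ, ‖cc n‖ * ((n : ℝ) ^ 2)⁻¹ ≤ 8)
    (hint : HasSum (fun n : ℕ => ∑ m ∈ Icc 1 N, cc n * ((ArithmeticFunction.moebius m : ℂ) / m) *
        Jint α T D t1 t2 ((m : ℝ) / n)) R)
    (hJoff : ∀ m n : ℕ, 1 ≤ m → m ≤ N → 1 ≤ n → m ≠ n →
      ‖Jint α T D t1 t2 ((m : ℝ) / n)‖ ≤ ((m : ℝ) / n) ^ 2 * K) :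
    ‖R - ∑ n ∈ Icc 1 N, cc n * ((ArithmeticFunction.moebius n : ℂ) / n) *
      Jint α T D t1 t2 1‖ ≤ 8 * ((N : ℝ) * (N + 1)) * K := by
  have hN0 : (0 : ℝ) < N := by exact_mod_cast hN
  set J1 : ℂ := Jint α T D t1 t2 1 with hJ1
  set dg : ℕ → ℂ := fun n => if n ∈ Icc 1 N then
    cc n * ((ArithmeticFunction.moebius n : ℂ) / n) * J1 else 0 with hdg
  have hdgs : HasSum dg (∑ n ∈ Icc 1 N, dg n) :=
    hasSum_sum_of_ne_finset_zero (fun n hn => by rw [hdg]; simp only; rw [if_neg hn])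
  have hdgsum : ∑ n ∈ Icc 1 N, dg n = ∑ n ∈ Icc 1 N, cc n *
      ((ArithmeticFunction.moebius n : ℂ) / n) * J1 :=
    Finset.sum_congr rfl fun n hn => by rw [hdg]; simp only; rw [if_pos hn]
  have hsub := hint.sub hdgs
  have hbound : ∀ n : ℕ, ‖(∑ m ∈ Icc 1 N, cc n * ((ArithmeticFunction.moebius m : ℂ) / m) *
        Jint α T D t1 t2 ((m : ℝ) / n)) - dg n‖ ≤
      (‖cc n‖ * ((n : ℝ) ^ 2)⁻¹) * ((N : ℝ) * N * K) := by
    intro n
    rcases Nat.eq_zero_or_pos n with hn | hn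
    · subst hn
      have h5 : dg 0 = 0 := by
        rw [hdg]
        simp
      rw [h5, h0]
      simp
    · have hn0 : (0 : ℝ) < n := by exact_mod_cast hn
      have hterm : ∀ m ∈ Icc 1 N, ‖cc n * ((ArithmeticFunction.moebius m : ℂ) / m) *
          Jint α T D t1 t2 ((m : ℝ) / n) - if m = n then
            cc n * ((ArithmeticFunction.moebius n : ℂ) / n) * J1 else 0‖ ≤
          (‖cc n‖ * ((n : ℝ) ^ 2)⁻¹) * (N * K) := by
        intro m hm
        rw [Finset.mem_Icc] at hm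
        have hm0 : (0 : ℝ) < m := by exact_mod_cast hm.1
        by_cases hmn : m = n
        · subst hmn
          rw [if_pos rfl, div_self hn0.ne', ← hJ1, sub_self, norm_zero]
          positivity
        · rw [if_neg hmn, sub_zero, norm_mul, norm_mul, norm_div, Complex.norm_natCast]
          have h5 := hJoff m n hm.1 hm.2 hn hmn
          have h6 := re_mu m
          have hmN : (m : ℝ) ≤ N := by exact_mod_cast hm.2
          calc ‖cc n‖ * (‖((ArithmeticFunction.moebius m : ℤ) : ℂ)‖ / m) *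
                ‖Jint α T D t1 t2 ((m : ℝ) / n)‖
              ≤ ‖cc n‖ * (1 / m) * (((m : ℝ) / n) ^ 2 * K) := by gcongr
            _ = (‖cc n‖ * ((n : ℝ) ^ 2)⁻¹) * (m * K) := by field_simp
            _ ≤ _ := by gcongr
      have hdge : dg n = ∑ m ∈ Icc 1 N, if m = n then
          cc n * ((ArithmeticFunction.moebius n : ℂ) / n) * J1 else 0 := by
        rw [hdg, Finset.sum_ite_eq']
      rw [hdge, ← Finset.sum_sub_distrib]
      refine (norm_sum_le_of_le _ hterm).trans (le_of_eq ?_)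
      rw [Finset.sum_const, Nat.card_Icc, nsmul_eq_mul, Nat.add_sub_cancel]
      ring
  rw [← hdgsum, ← hsub.tsum_eq]
  refine (tsum_of_norm_bounded (h2.hasSum.mul_right _) hbound).trans ?_
  calc (∑' n : ℕ, ‖cc n‖ * ((n : ℝ) ^ 2)⁻¹) * ((N : ℝ) * N * K)
      ≤ 8 * ((N : ℝ) * (N + 1) * K) := by
        gcongr
        linarith
    _ = 8 * ((N : ℝ) * (N + 1)) * K := by ring

/-- the error in the diagonal terms -/
theorem re_err (a b e1 C1 V L N : ℝ) (ha : a ≤ e1 + C1 * V / L) (hb : b ≤ 1 + L) (hb0 : 0 ≤ b)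
    (he : 0 ≤ e1) (hCV : 0 ≤ C1 * V) (hL : 1 ≤ L) (hLN : 1 + L ≤ N) (h : N * e1 ≤ 1 / 2) :
    a * b ≤ 1 / 2 + 2 * C1 * V := by
  have h5 : 0 ≤ C1 * V / L := by positivity
  calc a * b ≤ (e1 + C1 * V / L) * (1 + L) := mul_le_mul ha hb hb0 (by positivity)
    _ = (1 + L) * e1 + C1 * V / L * (1 + L) := by ring
    _ ≤ N * e1 + C1 * V / L * (2 * L) := by
        gcongr
        linarith
    _ = N * e1 + 2 * C1 * V := by
        field_simp
    _ ≤ 1 / 2 + 2 * C1 * V := by linarith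

theorem re_Sn (N : ℕ) (α : ℝ) :
    ‖∑ n ∈ Icc 1 N, (((((ArithmeticFunction.moebius n : ℤ) : ℝ) ^ 2 / n : ℝ) : ℂ) *
        (n : ℂ) ^ (-(I * (α : ℂ))))‖ ≤ 1 + Real.log N := by
  refine le_trans ?_ (re_harm N)
  refine norm_sum_le_of_le _ fun n hn => ?_
  rw [Finset.mem_Icc] at hn
  have hn0 : (0 : ℝ) < n := by exact_mod_cast hn.1
  rw [norm_mul, Complex.norm_real, Complex.norm_natCast_cpow_of_pos (by omega)]
  have h5 : (-(I * (α : ℂ))).re = 0 := by simp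
  rw [h5, Real.rpow_zero, mul_one, norm_div, Real.norm_of_nonneg (sq_nonneg _),
    Real.norm_of_nonneg hn0.le]
  have h6 : ((ArithmeticFunction.moebius n : ℤ) : ℝ) ^ 2 ≤ 1 := by
    have h7 := ArithmeticFunction.abs_moebius_le_one (n := n)
    have h8 : |((ArithmeticFunction.moebius n : ℤ) : ℝ)| ≤ 1 := by exact_mod_cast h7
    rw [← sq_abs]
    exact pow_le_one₀ (abs_nonneg _) h8
  gcongr

theorem reval (c k : ℝ) (hc : 1 / 2 < c) (hc1 : c < 1) (hk : 0 < k) (hk1 : k ≤ 1) :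
    ∃ C : ℝ, 0 < C ∧ ∃ N0 : ℕ, ∀ N : ℕ, N0 ≤ N → ∀ t1 t2 : ℝ, TT k N / 2 ≤ t1 →
      t1 ≤ TT k N / 2 + 1 → 3 * TT k N / 2 ≤ t2 → t2 ≤ 3 * TT k N / 2 + 1 →
      -(VV k N t1 t2 * ∑ n ∈ Icc 1 N, ((ArithmeticFunction.moebius n : ℤ) : ℝ) ^ 2 / n *
          Real.sin (2 * Real.pi * c * Real.log n / ((1 + k) * Real.log N) + Real.pi * c)) -
        C * VV k N t1 t2 - 1 ≤
      (∫ t in t1..t2, FF c k N (2 + I * t)).im := by
  obtain ⟨C1, hC1, N1, hphase⟩ := phase_int c k hc hc1 hk hk1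
  obtain ⟨N2, hoff⟩ := tiny_off k hk hk1
  obtain ⟨N3, hdiag⟩ := tiny_diag k hk hk1
  obtain ⟨N4, hpar⟩ := params c k hc hc1 hk hk1 100
  refine ⟨2 * C1, by positivity, max (max N1 N2) (max N3 N4), ?_⟩
  intro N hN t1 t2 ht1 ht1' ht2 ht2'
  have hNa := (le_max_left _ _).trans hN
  have hNb := (le_max_right _ _).trans hN
  obtain ⟨hT100, hlogN, hα0, hα1, hl2, hD1, hN2, -⟩ := hpar N ((le_max_right _ _).trans hNb)
  have htoff := hoff N ((le_max_right _ _).trans hNa)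
  have htdiag := hdiag N ((le_max_left _ _).trans hNb)
  have hph := hphase N ((le_max_left _ _).trans hNa) t1 t2 ht1 (by linarith) (by linarith)
  set T : ℝ := TT k N with hT
  set D : ℝ := DD k N with hD
  set l : ℝ := LL k N with hl
  set α : ℝ := al c k N with hα
  set V : ℝ := VV k N t1 t2 with hV
  clear_value T D l α V
  have hV0 : 0 ≤ V := by
    rw [hV]
    unfold VV
    exact intervalIntegral.integral_nonneg (by linarith) (fun t _ => (Real.exp_pos _).le)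
  have hNR : (2 : ℝ) ≤ N := by exact_mod_cast hN2
  have hN0 : (0 : ℝ) < N := by linarith
  have hg : ∀ s : ℂ, 2 ≤ s.im → ‖gfac α s‖ ≤ Real.exp 4 := fun s hs =>
    (norm_gfac_le α hα0.le hα1 s hs).trans (Real.exp_le_exp.2 (by linarith))
  have hgd : ∀ s : ℂ, 2 ≤ s.im → DifferentiableAt ℂ (gfac α) s := fun s hs =>
    differentiableAt_gfac α hα0.le s (by linarith)
  have hD0 : 0 < D := by linarith
  have hT0 : 0 < T := by linarith
  have hd1 : T / 4 ≤ |t1 - T| := by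
    rw [abs_of_nonpos (by linarith)]
    linarith
  have hd2 : T / 4 ≤ |t2 - T| := by
    rw [abs_of_nonneg (by linarith)]
    linarith
  obtain ⟨cc, h0, h1, h2, h3, h4⟩ := expansion α N
  have hint := inter α T D t1 t2 N hα0.le hα1 hD0 (by linarith) (by linarith) cc h0 h2 h4
  -- the bracket
  set E : ℝ := 2 * T * Real.exp ((l + 1) ^ 2 / D ^ 2) * ((N : ℝ) / (N + 1)) ^ (l - 2) +
      4 * l * Real.exp (((l + 1) ^ 2 - (T / 4) ^ 2) / D ^ 2) with hE
  have hE0 : 0 ≤ E := by positivity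
  have hJoff : ∀ m n : ℕ, 1 ≤ m → m ≤ N → 1 ≤ n → m ≠ n →
      ‖Jint α T D t1 t2 ((m : ℝ) / n)‖ ≤ ((m : ℝ) / n) ^ 2 * Real.exp 4 * E := by
    intro m n hm hmN hn hne
    have hm0 : (0 : ℝ) < m := by exact_mod_cast hm
    have hn0 : (0 : ℝ) < n := by exact_mod_cast hn
    have hr1 : (m : ℝ) / n ≠ 1 := by
      rw [Ne, div_eq_one_iff_eq hn0.ne']
      exact_mod_cast hne
    refine (shift_off (gfac α) (Real.exp 4) T D l t1 t2 ((m : ℝ) / n) hg hgd hD0 hl2 hT0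
      (by linarith) (by linarith) (by linarith) hd1 hd2 (by positivity) hr1).trans ?_
    have h5 : (min ((m : ℝ) / n) (1 / ((m : ℝ) / n))) ^ (l - 2) ≤
        ((N : ℝ) / (N + 1)) ^ (l - 2) :=
      Real.rpow_le_rpow (le_min (by positivity) (by positivity)) (re_min N m n hm hmN hn hne)
        (by linarith)
    rw [hE]
    gcongr
  -- the diagonal terms
  set J1 : ℂ := Jint α T D t1 t2 1 with hJ1
  have hoffsum := re_offd α T D t1 t2 (Real.exp 4 * E) N (by omega) (by positivity) cc _ h0 h2 h3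
    hint (fun m n hm hmN hn hne => by
      have h5 := hJoff m n hm hmN hn hne
      rwa [mul_assoc] at h5)
  have hoff2 : 8 * ((N : ℝ) * (N + 1)) * (Real.exp 4 * E) ≤ 1 / 2 := by
    rw [← mul_assoc]
    exact htoff
  replace hoffsum := hoffsum.trans hoff2
  rw [← hJ1] at hoffsum
  -- the value of the diagonal integral
  have hJ1' : J1 = ∫ t in t1..t2, gfac α (2 + I * t) * Wt T D (2 + I * t) := by
    rw [hJ1]
    unfold Jint
    congr 1
    funext t
    rw [Complex.ofReal_one, Complex.one_cpow, one_mul]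
  have hshift := shift_diag (gfac α) (Real.exp 4) T D t1 t2 hg hgd hD0 hT0 (by linarith)
    (by linarith) hd1 hd2
  rw [← hJ1'] at hshift
  set P : ℂ := cexp (-(I * ((Real.pi * c : ℝ) : ℂ))) * (V : ℂ) with hP
  have hJP : ‖J1 - P‖ ≤ 3 * Real.exp 4 * Real.exp ((9 / 4 - (T / 4) ^ 2) / D ^ 2) +
      C1 * V / Real.log N := by
    have h5 := norm_add_le _ _ |>.trans (add_le_add hshift hph)
    rwa [sub_add_sub_cancel] at h5
  set S : ℂ := ∑ n ∈ Icc 1 N, (((((ArithmeticFunction.moebius n : ℤ) : ℝ) ^ 2 / n : ℝ) : ℂ) *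
        (n : ℂ) ^ (-(I * (α : ℂ)))) with hS
  have hdsum : ∑ n ∈ Icc 1 N, cc n * ((ArithmeticFunction.moebius n : ℂ) / n) * J1 = J1 * S := by
    rw [hS, Finset.mul_sum]
    refine Finset.sum_congr rfl fun n hn => ?_
    rw [h1 n (Finset.mem_Icc.1 hn).1 (Finset.mem_Icc.1 hn).2]
    push_cast
    ring
  have hSn : ‖S‖ ≤ 1 + Real.log N := re_Sn N α
  have hlogNN : 1 + Real.log N ≤ N := by
    have := Real.log_le_sub_one_of_pos hN0
    linarith
  have herr : ‖(J1 - P) * S‖ ≤ 1 / 2 + 2 * C1 * V := by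
    rw [norm_mul]
    exact re_err _ _ _ C1 V (Real.log N) N hJP hSn (norm_nonneg _) (by positivity)
      (mul_nonneg hC1.le hV0) (by linarith) hlogNN htdiag
  have hmain := re_main N α c V
  rw [← hP, ← hS] at hmain
  have hsin : ∑ n ∈ Icc 1 N, ((ArithmeticFunction.moebius n : ℤ) : ℝ) ^ 2 / n *
      Real.sin (2 * Real.pi * c * Real.log n / ((1 + k) * Real.log N) + Real.pi * c) =
      ∑ n ∈ Icc 1 N, ((ArithmeticFunction.moebius n : ℤ) : ℝ) ^ 2 / n *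
      Real.sin (α * Real.log n + Real.pi * c) := by
    refine Finset.sum_congr rfl fun n _ => ?_
    congr 2
    rw [hα]
    unfold al
    ring
  rw [hsin, ← hmain]
  have hFF : (∫ t in t1..t2, FF c k N (2 + I * t)) = ∫ t in t1..t2, Gr α (2 + I * t) *
      (Asum N (2 + I * t) * Bsum N (2 + I * t) * Wt T D (2 + I * t)) := by
    rw [hα, hT, hD]
    rfl
  rw [hFF]
  set R : ℂ := ∫ t in t1..t2, Gr α (2 + I * t) *
      (Asum N (2 + I * t) * Bsum N (2 + I * t) * Wt T D (2 + I * t)) with hR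
  rw [hdsum] at hoffsum
  have h5 : R = P * S + (J1 - P) * S + (R - J1 * S) := by ring
  have h6 : R.im = (P * S).im + ((J1 - P) * S).im + (R - J1 * S).im := by
    conv_lhs => rw [h5]
    rw [Complex.add_im, Complex.add_im]
  have h7 := (abs_le.1 ((Complex.abs_im_le_norm ((J1 - P) * S)).trans herr)).1
  have h8 := (abs_le.1 ((Complex.abs_im_le_norm (R - J1 * S)).trans hoffsum)).1
  rw [h6]
  linarith

end H2.Gap
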