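import Pool.Agent.H2.Gap.Lower
import Pool.Agent.H2.Gap.ZUp

/-!
# [H2 GAP ZLOW] a lower bound for zeta on a horizontal line away from the zeros

PROOF. Apply `lower_of_zeros` with `f = riemannZeta`, `z0 = 2 + it`; `ball z0 2` lies in
`Re s > 0`, `Im s ≥ 8`, where zeta is holomorphic (`differentiableAt_riemannZeta`, `s ≠ 1`), and
`closedBall z0 (19/10)` in `Re ≥ 1/10`, `Re ≤ 4`, `Im ≥ 2`, so `M = C1 (t + 2)` works
(`zeta_upper`, enlarge `C1` to have `C1 ≥ 1`). `m = 1/4`: `|ζ(2+it)| ≥ 2 - ζ(2) ≥ 1/4`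
(`zeta_eq_tsum_one_div_nat_add_one_cpow`, `∑_{n≥2} n^{-2} = π^2/6 - 1 ≤ 3/4`).
`Z` = the set of zeros in `closedBall z0 (8/5)`. They have `0 < Re`, `|Im - t| ≤ 8/5 ≤ 2`, so by
`h1` they lie on `Re = 1/2` and are simple, and by `h2` their ordinates are distinct with distances
`≥ α`; the ordinates lie in `[t-2,t+2]`, so `Z` is finite with at most `4/α + 1 ≤ 5/α` elements
(an `α`-separated subset of an interval of length 4: the map `u ↦ ⌊(u-(t-2))/α⌋` is injective into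
`{0,...,⌊4/α⌋}`). `d = α/4`: for `z = σ + it`, `w ∈ Z`: `|z - w| ≥ |t - Im w| ≥ α/4` by `h3`.
`|z - z0| = 2 - σ ≤ 3/2`. The result is
`(1/4) (α/4)^n exp(-(30 log(4 C1 (t+2)) + 62 n)) ≤ |ζ(σ+it)|`, `n ≤ 5/α`, and
`log 4 + n log(4/α) + 30 log(4 C1 (t+2)) + 62 n ≤ C (log t + (1/α)(1 + log(1/α)))`
for `t ≥ 10`, `0 < α ≤ 1`.
-/

set_option autoImplicit false

namespace H2.Gap

open Complex

private theorem zl_two (t : ℝ) : 1 / 4 ≤ ‖riemannZeta (2 + I * t)‖ := by
  have hre : (2 + I * (t : ℂ)).re = 2 := by simp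
  have h1 : 1 < (2 + I * (t : ℂ)).re := by
    rw [hre]
    norm_num
  rw [zeta_eq_tsum_one_div_nat_add_one_cpow h1]
  have hnorm : ∀ n : ℕ, ‖1 / ((n : ℂ) + 1) ^ (2 + I * (t : ℂ))‖ = 1 / ((n : ℝ) + 1) ^ 2 := by
    intro n
    have h2 : ((n : ℂ) + 1) = (((n : ℝ) + 1 : ℝ) : ℂ) := by push_cast; rfl
    rw [norm_div, norm_one, h2, norm_cpow_eq_rpow_re_of_pos (by positivity), hre]
    norm_num
  have hs2 : Summable (fun n : ℕ => 1 / ((n : ℝ) + 1) ^ 2) := by
    have h3 := (summable_nat_add_iff 1).mpr hasSum_zeta_two.summable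
    simpa using h3
  have hs : Summable (fun n : ℕ => 1 / ((n : ℂ) + 1) ^ (2 + I * (t : ℂ))) := by
    refine Summable.of_norm ?_
    simp only [hnorm]
    exact hs2
  rw [hs.tsum_eq_zero_add]
  have h0 : 1 / (((0 : ℕ) : ℂ) + 1) ^ (2 + I * (t : ℂ)) = 1 := by simp
  rw [h0]
  have htail : ‖∑' n : ℕ, 1 / (((n + 1 : ℕ) : ℂ) + 1) ^ (2 + I * (t : ℂ))‖ ≤ 3 / 4 := by
    have hs3 : Summable (fun n : ℕ => ‖1 / (((n + 1 : ℕ) : ℂ) + 1) ^ (2 + I * (t : ℂ))‖) := by
      simp only [hnorm]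
      exact (summable_nat_add_iff 1).mpr hs2
    refine (norm_tsum_le_tsum_norm hs3).trans ?_
    simp only [hnorm]
    have h4 : ∑' n : ℕ, 1 / ((n : ℝ) + 1) ^ 2 = Real.pi ^ 2 / 6 := by
      have h5 := hasSum_zeta_two.summable.tsum_eq_zero_add
      rw [hasSum_zeta_two.tsum_eq] at h5
      rw [h5]
      simp
    have h6 := hs2.tsum_eq_zero_add
    rw [h4] at h6
    have h7 : (1 : ℝ) / (((0 : ℕ) : ℝ) + 1) ^ 2 = 1 := by norm_num
    rw [h7] at h6
    have h8 : Real.pi ^ 2 ≤ 9.9225 := by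
      have := Real.pi_lt_d2
      have := Real.pi_pos
      nlinarith
    linarith
  have h9 : ‖(1 : ℂ)‖ - ‖∑' n : ℕ, 1 / (((n + 1 : ℕ) : ℂ) + 1) ^ (2 + I * (t : ℂ))‖ ≤
      ‖1 + ∑' n : ℕ, 1 / (((n + 1 : ℕ) : ℂ) + 1) ^ (2 + I * (t : ℂ))‖ := norm_sub_le_norm_add _ _
  rw [norm_one] at h9
  linarith

private theorem zl_ball (t r : ℝ) (z : ℂ) (hz : z ∈ Metric.closedBall (2 + I * (t : ℂ)) r) :
    |z.re - 2| ≤ r ∧ |z.im - t| ≤ r := by
  rw [Metric.mem_closedBall, dist_eq_norm] at hz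
  have h1 := (abs_re_le_norm (z - (2 + I * (t : ℂ)))).trans hz
  have h2 := (abs_im_le_norm (z - (2 + I * (t : ℂ)))).trans hz
  simpa using And.intro h1 h2

theorem zeta_lower : ∃ C : ℝ, 0 < C ∧ ∀ t α : ℝ, 10 ≤ t → 0 < α → α ≤ 1 →
    (∀ ρ : ℂ, riemannZeta ρ = 0 → 0 < ρ.re → |ρ.im - t| ≤ 2 →
      ρ.re = 1 / 2 ∧ deriv riemannZeta ρ ≠ 0) →
    (∀ ρ ρ' : ℂ, riemannZeta ρ = 0 → riemannZeta ρ' = 0 → 0 < ρ.re → 0 < ρ'.re →
      |ρ.im - t| ≤ 2 → |ρ'.im - t| ≤ 2 → ρ ≠ ρ' → α ≤ |ρ.im - ρ'.im|) →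
    (∀ ρ : ℂ, riemannZeta ρ = 0 → 0 < ρ.re → |ρ.im - t| ≤ 2 → α / 4 ≤ |ρ.im - t|) →
    ∀ σ : ℝ, 1 / 2 ≤ σ → σ ≤ 2 →
      Real.exp (-(C * (Real.log t + 1 / α * (1 + Real.log (1 / α))))) ≤
        ‖riemannZeta (σ + I * t)‖ := by
  obtain ⟨C1, hC1, hup⟩ := zeta_upper
  obtain ⟨C2, hC2, hC21⟩ : ∃ C2 : ℝ, C1 ≤ C2 ∧ 1 ≤ C2 := ⟨max C1 1, le_max_left _ _, le_max_right _ _⟩
  have hC20 : 0 < C2 := by linarith
  have hlC2 : 0 ≤ Real.log C2 := Real.log_nonneg hC21
  refine ⟨400 + 30 * Real.log C2, by positivity, ?_⟩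
  intro t α ht hα hα1 h1 h2 h3 σ hσ1 hσ2
  set z0 : ℂ := 2 + I * (t : ℂ) with hz0
  set S : Set ℂ := {w | w ∈ Metric.closedBall z0 (8 / 5) ∧ riemannZeta w = 0} with hS
  have hSb : ∀ w ∈ S, 0 < w.re ∧ |w.im - t| ≤ 8 / 5 := by
    intro w hw
    obtain ⟨h4, h5⟩ := zl_ball t _ w hw.1
    rw [abs_le] at h4
    exact ⟨by linarith [h4.1], h5⟩
  have hinj : Set.InjOn (fun w : ℂ => ⌊(w.im - (t - 2)) / α⌋₊) S := by
    intro w hw w' hw' hww
    by_contra hne
    obtain ⟨h4, h5⟩ := hSb w hw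
    obtain ⟨h6, h7⟩ := hSb w' hw'
    have h8 := h2 w w' hw.2 hw'.2 h4 h6 (by linarith) (by linarith) hne
    have hww' : ⌊(w.im - (t - 2)) / α⌋₊ = ⌊(w'.im - (t - 2)) / α⌋₊ := hww
    rw [abs_le] at h5 h7
    have h9 : 0 ≤ (w.im - (t - 2)) / α := div_nonneg (by linarith) hα.le
    have h10 : 0 ≤ (w'.im - (t - 2)) / α := div_nonneg (by linarith) hα.le
    have h11 := Nat.floor_le h9
    have h12 := Nat.lt_floor_add_one ((w.im - (t - 2)) / α)
    have h13 := Nat.floor_le h10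
    have h14 := Nat.lt_floor_add_one ((w'.im - (t - 2)) / α)
    rw [hww'] at h11 h12
    have h15 : |(w.im - (t - 2)) / α - (w'.im - (t - 2)) / α| < 1 := by
      rw [abs_lt]
      constructor <;> linarith
    have h16 : (w.im - (t - 2)) / α - (w'.im - (t - 2)) / α = (w.im - w'.im) / α := by ring
    rw [h16, abs_div, abs_of_pos hα, div_lt_one hα] at h15
    linarith
  have hmaps : Set.MapsTo (fun w : ℂ => ⌊(w.im - (t - 2)) / α⌋₊) S
      ((Finset.range (⌊4 / α⌋₊ + 1) : Finset ℕ) : Set ℕ) := by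
    intro w hw
    obtain ⟨h4, h5⟩ := hSb w hw
    rw [abs_le] at h5
    rw [Finset.coe_range, Set.mem_Iio, Nat.lt_succ_iff]
    exact Nat.floor_le_floor (div_le_div_of_nonneg_right (by linarith) hα.le)
  have hfin : S.Finite := Set.Finite.of_injOn hmaps hinj (Finset.finite_toSet _)
  set Z : Finset ℂ := hfin.toFinset with hZ
  have hZmem : ∀ w, w ∈ Z ↔ w ∈ S := fun w => hfin.mem_toFinset
  have hcard : (Z.card : ℝ) ≤ 5 / α := by
    have h4 : Z.card ≤ (Finset.range (⌊4 / α⌋₊ + 1)).card := by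
      refine Finset.card_le_card_of_injOn (fun w : ℂ => ⌊(w.im - (t - 2)) / α⌋₊) ?_ ?_
      · intro w hw
        exact hmaps ((hZmem w).mp hw)
      · intro w hw w' hw' h
        exact hinj ((hZmem w).mp hw) ((hZmem w').mp hw') h
    rw [Finset.card_range] at h4
    have h5 : (Z.card : ℝ) ≤ (⌊4 / α⌋₊ : ℝ) + 1 := by exact_mod_cast h4
    have h6 : (⌊4 / α⌋₊ : ℝ) ≤ 4 / α := Nat.floor_le (by positivity)
    have h7 : 1 ≤ 1 / α := by
      rw [le_div_iff₀ hα]
      linarith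
    have h8 : 5 / α = 4 / α + 1 / α := by ring
    rw [h8]
    linarith
  have hdiff : DifferentiableOn ℂ riemannZeta (Metric.ball z0 2) := by
    intro z hz
    have hz' : z ∈ Metric.closedBall z0 2 := Metric.ball_subset_closedBall hz
    obtain ⟨-, h5⟩ := zl_ball t _ z hz'
    rw [abs_le] at h5
    have h6 : z ≠ 1 := by
      intro h7
      rw [h7, one_im] at h5
      linarith [h5.1]
    exact (differentiableAt_riemannZeta h6).differentiableWithinAt
  have key := lower_of_zeros riemannZeta z0 hdiff Z (C2 * (t + 2)) (1 / 4) (α / 4) (by norm_num)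
    (by positivity) (by linarith) ?_ (zl_two t) ?_ ?_ (σ + I * t) ?_ ?_
  · refine le_trans ?_ key
    have hlt : 1 ≤ Real.log t := by
      rw [Real.le_log_iff_exp_le (by linarith)]
      have := Real.exp_one_lt_d9
      linarith
    have hl4 : Real.log 4 ≤ 2 := by
      have h4 : (4 : ℝ) = 2 ^ 2 := by norm_num
      rw [h4, Real.log_pow]
      have := Real.log_two_lt_d9
      push_cast
      linarith
    have hla : 0 ≤ Real.log (1 / α) := Real.log_nonneg (by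
      rw [le_div_iff₀ hα]
      linarith)
    have hpow : (α / 4) ^ Z.card = Real.exp (-(Z.card * (Real.log 4 + Real.log (1 / α)))) := by
      have h5 : Real.log 4 + Real.log (1 / α) = -Real.log (α / 4) := by
        rw [Real.log_div one_ne_zero hα.ne', Real.log_div hα.ne' (by norm_num), Real.log_one]
        ring
      rw [h5, mul_neg, neg_neg, mul_comm, ← Real.exp_one_rpow, Real.exp_one_rpow, Real.exp_mul,
        Real.exp_log (by positivity), Real.rpow_natCast]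
    have h14 : (1 / 4 : ℝ) = Real.exp (-Real.log 4) := by
      rw [Real.exp_neg, Real.exp_log (by norm_num)]
      norm_num
    have hM : Real.log (C2 * (t + 2) / (1 / 4)) ≤ 2 + Real.log C2 + (1 + Real.log t) := by
      have h6 : C2 * (t + 2) / (1 / 4) = 4 * (C2 * (t + 2)) := by ring
      rw [h6, Real.log_mul (by norm_num) (by positivity), Real.log_mul hC20.ne' (by linarith)]
      have h7 : Real.log (t + 2) ≤ 1 + Real.log t := by
        have h8 : t + 2 ≤ Real.exp 1 * t := by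
          have := Real.exp_one_gt_d9
          nlinarith
        calc Real.log (t + 2) ≤ Real.log (Real.exp 1 * t) := Real.log_le_log (by linarith) h8
          _ = 1 + Real.log t := by
              rw [Real.log_mul (Real.exp_pos _).ne' (by linarith), Real.log_exp]
      linarith
    rw [hpow]
    conv_rhs => rw [h14]
    rw [← Real.exp_add, ← Real.exp_add]
    rw [← h14]
    refine Real.exp_le_exp.mpr ?_
    have hn0 : (0 : ℝ) ≤ Z.card := Nat.cast_nonneg _
    have h9 : (Z.card : ℝ) * (Real.log 4 + Real.log (1 / α) + 62) ≤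
        5 / α * (64 * (1 + Real.log (1 / α))) := by
      refine mul_le_mul hcard (by linarith) (by positivity) (by positivity)
    have h10 : 5 / α * (64 * (1 + Real.log (1 / α))) =
        320 * (1 / α * (1 + Real.log (1 / α))) := by ring
    have h11 : 0 ≤ 1 / α * (1 + Real.log (1 / α)) := by positivity
    have h12 : 0 ≤ Real.log C2 * (1 / α * (1 + Real.log (1 / α))) := mul_nonneg hlC2 h11
    have h13 : Real.log C2 ≤ Real.log C2 * Real.log t := by nlinarith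
    nlinarith
  · intro z hz
    obtain ⟨h4, h5⟩ := zl_ball t _ z hz
    rw [abs_le] at h4 h5
    refine (hup z (by linarith [h4.1]) (by linarith [h4.2]) (by linarith [h5.1])).trans ?_
    refine mul_le_mul hC2 (by linarith [h5.2]) (by linarith [h5.1]) hC20.le
  · intro w hw
    have hwS := (hZmem w).mp hw
    obtain ⟨h4, h5⟩ := hSb w hwS
    exact ⟨hwS.1, hwS.2, (h1 w hwS.2 h4 (by linarith)).2⟩
  · intro w hw hw0
    exact (hZmem w).mpr ⟨hw, hw0⟩
  · rw [Metric.mem_closedBall, dist_eq_norm]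
    have h4 : (σ : ℂ) + I * t - z0 = ((σ - 2 : ℝ) : ℂ) := by
      rw [hz0]
      push_cast
      ring
    rw [h4, norm_real, Real.norm_eq_abs, abs_le]
    constructor <;> linarith
  · intro w hw
    have hwS := (hZmem w).mp hw
    obtain ⟨h4, h5⟩ := hSb w hwS
    have h6 := h3 w hwS.2 h4 (by linarith)
    have h7 := abs_im_le_norm ((σ : ℂ) + I * t - w)
    have h8 : ((σ : ℂ) + I * t - w).im = t - w.im := by simp
    rw [h8, abs_sub_comm] at h7
    exact h6.trans h7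

end H2.Gap
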